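import Mathlib

/-! Nilpotent modulo `p`. -/

set_option autoImplicit false

namespace Pool.Agent.Lib.MP_8f66f0_al_Plus

variable {Γ : Type*} [Group Γ] {O : Type*} [CommRing O]

/-- Nilpotent modulo `p`. -/
def NilMod {κ : Type*} [Fintype κ] [DecidableEq κ] (p : ℕ)
    (Y : Matrix κ κ (MonoidAlgebra O Γ)) : Prop :=
  ∃ m : ℕ, ∃ W : Matrix κ κ (MonoidAlgebra O Γ), Y ^ m = p • W

end Pool.Agent.Lib.MP_8f66f0_al_Plus
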