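import Mathlib
import Pool.Agent.Lib.MP_8f66f0_al_FinQ.Abs
import Pool.Agent.Lib.MP_8f66f0_al_FinQ.Mon
import Pool.Agent.Lib.MP_8f66f0_al_Plus.Spec0

/-! Definitions for the theorem on all finite-dimensional representations. -/

set_option autoImplicit false
set_option linter.unusedSectionVars false

namespace Pool.Agent.Lib.MP_8f66f0_al_Plus

open Pool.Agent.Lib.MP_8f66f0_al_Dennis Pool.Agent.Lib.MP_8f66f0_al_FinQ

/-- The algebraic numbers. -/
abbrev Qbar := AlgebraicClosure ℚ

section basic

variable {Γ : Type*} [Group Γ] {O : Type*} [CommRing O]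

/-- Class functions. -/
def IsClassFn {G R : Type*} [Group G] (f : G → R) : Prop := ∀ g h, f (g * h) = f (h * g)

/-- The sum over `g` of the trace of the coefficient of `g` times `f g`. -/
noncomputable def trf {ι : Type*} [Fintype ι] (f : Γ → O)
    (Y : Matrix ι ι (MonoidAlgebra ℤ Γ)) : O :=
  Y.trace.coeff.sum fun g a => (a : O) * f g

/-- The Adams operation on functions. -/
def psiF (m : ℕ) (f : Γ → O) : Γ → O := fun g => f (g ^ m)

/-- The image of a matrix over the integral group ring under a homomorphism of groups. -/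
noncomputable def mapMat {Q ι : Type*} [Group Q] [Fintype ι] [DecidableEq ι] (π : Γ →* Q) :
    Matrix ι ι (MonoidAlgebra ℤ Γ) →+* Matrix ι ι (MonoidAlgebra ℤ Q) :=
  (MonoidAlgebra.mapDomainRingHom ℤ π).mapMatrix

/-- The determinant of a representation, as a representation by matrices of size one. -/
noncomputable def detRep {κ : Type*} [Fintype κ] [DecidableEq κ] (ρ : Γ →* Matrix κ κ O) :
    Γ →* Matrix (Fin 1) (Fin 1) O where
  toFun g := Matrix.of fun _ _ => (ρ g).det
  map_one' := by
    ext i j
    rw [Matrix.of_apply, map_one, Matrix.det_one, Subsingleton.elim i j, Matrix.one_apply_eq]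
  map_mul' g h := by
    ext i j
    rw [Matrix.of_apply, map_mul, Matrix.det_mul, Matrix.mul_apply]
    simp

/-- The regular representation of a finite group, by permutation matrices. -/
def regMon (O : Type*) [CommRing O] (Q : Type*) [Group Q] [Fintype Q] [DecidableEq Q] :
    Q →* Matrix Q Q O where
  toFun q := Matrix.of fun x y => if x = q * y then 1 else 0
  map_one' := by
    ext x y
    rw [Matrix.of_apply, one_mul, Matrix.one_apply]
  map_mul' q r := by
    ext x y
    rw [Matrix.of_apply, Matrix.mul_apply, Finset.sum_eq_single (r * y)]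
    · rw [Matrix.of_apply, Matrix.of_apply, if_pos rfl, mul_one, mul_assoc]
    · intro z _ hz
      rw [Matrix.of_apply, Matrix.of_apply, if_neg hz, mul_zero]
    · intro h; exact absurd (Finset.mem_univ _) h

end basic

/-- The multiplicativity property of determinants at the prime `p` (a consequence of the
vanishing of the Dennis trace). -/
def PropM {Γ : Type*} [Group Γ] {n : ℕ} (p : ℕ)
    (A B : Matrix (Fin n) (Fin n) (MonoidAlgebra ℤ Γ)) : Prop :=
  ∀ (O : Type) [CommRing O] [IsDomain O] [CharZero O], PSep O p →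
    ∀ (k l : ℕ) (β β' : Γ →* Matrix (Fin k) (Fin k) O) (σ : Γ →* Matrix (Fin l) (Fin l) O),
      NilMod p (twist β' B * twist β A - 1) →
      ∃ N : ℕ, 0 < N ∧ ((mapRep (tens β σ) A).det * (mapRep β' A).det ^ l) ^ N =
        ((mapRep (tens β' σ) A).det * (mapRep β A).det ^ l) ^ N

/-- The determinants of `A` in all monomial representations, induced from linear characters with
values in `O`, of the finite quotients of `Γ` are roots of unity. -/
def MonT {Γ : Type*} [Group Γ] {n : ℕ} (O : Type) [CommRing O]
    (A : Matrix (Fin n) (Fin n) (MonoidAlgebra ℤ Γ)) : Prop :=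
  ∀ (N : Subgroup Γ) [N.Normal] [N.FiniteIndex] (C : Subgroup (Γ ⧸ N))
    [Fintype ((Γ ⧸ N) ⧸ C)] [DecidableEq ((Γ ⧸ N) ⧸ C)] (ψ : C →* O),
    ∃ K : ℕ, 0 < K ∧
      (mapRep ((monRep (indCocycle_isMonCocycle C ψ)).comp (QuotientGroup.mk' N)) A).det ^ K = 1

/-- On `N` the representation `ρ` is trivial modulo `q`. -/
def TrivMod {Γ O : Type*} [Group Γ] [CommRing O] {κ : Type*} [Fintype κ] [DecidableEq κ]
    (ρ : Γ →* Matrix κ κ O) (N : Subgroup Γ) (q : O) : Prop :=
  ∀ x ∈ N, ∀ i j, q ∣ (ρ x - 1) i j

end Pool.Agent.Lib.MP_8f66f0_al_Plus
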