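import Mathlib

/-! The necklace congruence for powers of sums in a noncommutative ring. -/

set_option autoImplicit false
set_option linter.unusedSectionVars false

namespace Pool.Agent.Lib.MP_8f66f0_al_Plus

section orbits

variable {X : Type*}

open Function in
lemma iterate_smul (r : Equiv.Perm X) (n : ℕ) (x : X) : (fun y : X => r • y)^[n] x = (r ^ n) x := by
  rw [smul_iterate]
  rfl

open MulAction Function in
lemma card_orbit (r : Equiv.Perm X) {p i : ℕ} (hp : p.Prime) (hr : r ^ (p ^ (i + 1)) = 1)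
    {x : X} (hx : (r ^ (p ^ i)) x ≠ x) [Fintype (orbit (Subgroup.zpowers r) x)] :
    Fintype.card (orbit (Subgroup.zpowers r) x) = p ^ (i + 1) := by
  rw [← minimalPeriod_eq_card]
  have hper : IsPeriodicPt (fun y : X => r • y) (p ^ (i + 1)) x := by
    change (fun y : X => r • y)^[_] x = x
    rw [iterate_smul, hr]; rfl
  obtain ⟨j, hj, hj2⟩ := (Nat.dvd_prime_pow hp).mp hper.minimalPeriod_dvd
  rw [hj2]
  rcases Nat.lt_or_ge j (i + 1) with h | h
  · exfalso
    apply hx
    have h1 : IsPeriodicPt (fun y : X => r • y) (p ^ i) x := by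
      have h2 : IsPeriodicPt (fun y : X => r • y) (p ^ j) x := by
        rw [← hj2]; exact isPeriodicPt_minimalPeriod _ _
      exact h2.trans_dvd (pow_dvd_pow p (by omega))
    have h3 : (fun y : X => r • y)^[p ^ i] x = x := h1
    rwa [iterate_smul] at h3
  · have : j = i + 1 := by omega
    rw [this]

open Classical in
/-- The sum of an invariant function is, up to `p ^ (i + 1)` times the sum over some set, its sum
over the points with a short orbit. -/
lemma exists_rep [Fintype X] (r : Equiv.Perm X) {p i : ℕ} (hp : p.Prime)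
    (hr : r ^ (p ^ (i + 1)) = 1) :
    ∃ S0 S : Finset X, (∀ x, x ∈ S0 ↔ (r ^ (p ^ i)) x = x) ∧
      ∀ (G : Type*) [AddCommGroup G] (F : X → G), (∀ x, F (r x) = F x) →
      ∑ x, F x = (∑ x ∈ S0, F x) + p ^ (i + 1) • ∑ x ∈ S, F x := by
  let s : Setoid X := MulAction.orbitRel (Subgroup.zpowers r) X
  set rep : X → X := fun x => (Quotient.mk s x).out with hrep
  have hrel : ∀ x, s (rep x) x := fun x => Quotient.mk_out x
  have hrr : ∀ x y, s x y → rep x = rep y := fun x y h => by
    rw [hrep]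
    dsimp only
    rw [Quotient.sound (s := s) h]
  have hsmul : ∀ x y, s x y → ∃ k : ℤ, (r ^ k) y = x := by
    intro x y h
    obtain ⟨⟨g, hg⟩, hgy⟩ := MulAction.orbitRel_apply.mp h
    obtain ⟨k, rfl⟩ := Subgroup.mem_zpowers_iff.mp hg
    exact ⟨k, hgy⟩
  have hfix : ∀ x y, s x y → (r ^ (p ^ i)) x = x → (r ^ (p ^ i)) y = y := by
    intro x y h hx
    obtain ⟨k, rfl⟩ := hsmul x y h
    have h1 : (r ^ (p ^ i)) ((r ^ k) y) = (r ^ k) ((r ^ (p ^ i)) y) := by
      rw [← Equiv.Perm.mul_apply, ← Equiv.Perm.mul_apply, ← zpow_natCast, ← zpow_add, ← zpow_add,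
        add_comm]
    rw [h1] at hx
    exact (r ^ k).injective hx
  refine ⟨Finset.univ.filter fun x => (r ^ (p ^ i)) x = x,
    Finset.univ.filter fun x => (r ^ (p ^ i)) x ≠ x ∧ rep x = x,
    fun x => by rw [Finset.mem_filter]; simp, fun G _ F hF => ?_⟩
  have hFk : ∀ (k : ℤ) (x : X), F ((r ^ k) x) = F x := by
    have hn : ∀ (k : ℕ) (x : X), F ((r ^ k) x) = F x := by
      intro k
      induction k with
      | zero => intro x; rfl
      | succ k ih => intro x; rw [pow_succ, Equiv.Perm.mul_apply, ih, hF]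
    intro k x
    cases k with
    | ofNat k => rw [Int.ofNat_eq_natCast, zpow_natCast, hn]
    | negSucc k =>
      have h1 := hn (k + 1) ((r ^ (Int.negSucc k)) x)
      rw [← h1]
      congr 1
      rw [zpow_negSucc, ← Equiv.Perm.mul_apply, mul_inv_cancel]
      rfl
  have hFs : ∀ x y, s x y → F x = F y := by
    intro x y h
    obtain ⟨k, rfl⟩ := hsmul x y h
    exact hFk k y
  rw [← Finset.sum_filter_add_sum_filter_not Finset.univ (fun x => (r ^ (p ^ i)) x = x)]
  congr 1
  rw [← Finset.sum_fiberwise_of_maps_to (s := Finset.univ.filter fun x => ¬ (r ^ (p ^ i)) x = x)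
    (t := Finset.univ.filter fun x => (r ^ (p ^ i)) x ≠ x ∧ rep x = x) (g := rep) ?_,
    Finset.smul_sum]
  · refine Finset.sum_congr rfl fun y hy => ?_
    obtain ⟨hy1, hy2⟩ := (Finset.mem_filter.mp hy).2
    have h1 : ∀ x ∈ (Finset.univ.filter fun x => ¬ (r ^ (p ^ i)) x = x).filter
        (fun x => rep x = y), F x = F y := by
      intro x hx
      have h2 := (Finset.mem_filter.mp hx).2
      rw [← h2]
      exact (hFs _ _ (hrel x)).symm
    rw [Finset.sum_congr rfl h1, Finset.sum_const]
    congr 1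
    rw [← card_orbit r hp hr hy1, ← Set.toFinset_card]
    congr 1
    ext x
    rw [Finset.mem_filter, Finset.mem_filter, Set.mem_toFinset]
    constructor
    · rintro ⟨-, rfl⟩
      exact MulAction.orbitRel_apply.mp (s.symm (hrel x))
    · intro hx
      have h3 : s x y := MulAction.orbitRel_apply.mpr hx
      refine ⟨⟨Finset.mem_univ _, fun h => hy1 (hfix x y h3 h)⟩, ?_⟩
      rw [hrr x y h3, hy2]
  · intro x hx
    have h1 := (Finset.mem_filter.mp hx).2
    refine Finset.mem_filter.mpr ⟨Finset.mem_univ _, fun h => h1 (hfix _ _ (hrel x) h), ?_⟩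
    exact hrr _ _ (hrel x)

end orbits

section words

variable {R T : Type*} [Ring R] [Fintype T]

/-- The product of the letters of a word. -/
def wordProd (y : T → R) {L : ℕ} (w : Fin L → T) : R := (List.ofFn fun i => y (w i)).prod

lemma sum_pow_eq (y : T → R) (L : ℕ) : (∑ t, y t) ^ L = ∑ w : Fin L → T, wordProd y w := by
  induction L with
  | zero => simp [wordProd]
  | succ L ih =>
    rw [pow_succ', ih, ← (Fin.consEquiv fun _ : Fin (L + 1) => T).sum_comp, Fintype.sum_prod_type,
      Finset.sum_mul_sum]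
    refine Finset.sum_congr rfl fun t _ => Finset.sum_congr rfl fun w _ => ?_
    unfold wordProd
    rw [List.ofFn_succ, List.prod_cons]
    rfl

/-- The rotation of words. -/
def rot (T : Type*) (L : ℕ) [NeZero L] : Equiv.Perm (Fin L → T) :=
  (Equiv.arrowCongr (finRotate L) (Equiv.refl T)).symm

lemma rot_apply {L : ℕ} [NeZero L] (w : Fin L → T) (j : Fin L) :
    rot T L w j = w (finRotate L j) := rfl

lemma rot_pow_apply {L : ℕ} [NeZero L] (w : Fin L → T) (m : ℕ) (j : Fin L) :
    (rot T L ^ m) w j = w ((finRotate L ^ m) j) := by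
  induction m generalizing j w with
  | zero => rfl
  | succ m ih =>
    rw [pow_succ, Equiv.Perm.mul_apply, ih, rot_apply, pow_succ', Equiv.Perm.mul_apply]

lemma val_finRotate_pow {L : ℕ} [NeZero L] (m : ℕ) (j : Fin L) :
    (((finRotate L ^ m) j : Fin L) : ℕ) = (j + m) % L := by
  induction m with
  | zero => rw [pow_zero, Equiv.Perm.one_apply, add_zero, Nat.mod_eq_of_lt j.2]
  | succ m ih =>
    rw [pow_succ', Equiv.Perm.mul_apply, finRotate_apply, Fin.val_add, ih]
    rw [← Nat.add_assoc, Nat.add_mod ((j : ℕ) + m) 1 L]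
    rw [Fin.val_one']

lemma rot_pow_card {L : ℕ} [NeZero L] : rot T L ^ L = 1 := by
  ext w j
  rw [rot_pow_apply]
  change w _ = w j
  congr 1
  apply Fin.ext
  rw [val_finRotate_pow, Nat.add_mod_right, Nat.mod_eq_of_lt j.2]

lemma trace_rot {G : Type*} [AddCommGroup G] (y : T → R) (τ : R →+ G)
    (hτ : ∀ a b, τ (a * b) = τ (b * a)) {L : ℕ} [NeZero L] (w : Fin L → T) :
    τ (wordProd y (rot T L w)) = τ (wordProd y w) := by
  obtain ⟨n, rfl⟩ : ∃ n, L = n + 1 := ⟨L - 1, by have := NeZero.pos L; omega⟩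
  have h1 : wordProd y w = y (w 0) * (List.ofFn fun i : Fin n => y (w i.succ)).prod := by
    unfold wordProd
    rw [List.ofFn_succ, List.prod_cons]
  have h2 : wordProd y (rot T (n + 1) w) =
      (List.ofFn fun i : Fin n => y (w i.succ)).prod * y (w 0) := by
    unfold wordProd
    rw [List.ofFn_succ', List.concat_eq_append, List.prod_append, List.prod_singleton]
    congr 1
    · congr 2
      funext i
      rw [rot_apply, finRotate_apply, Fin.coeSucc_eq_succ]
    · rw [rot_apply, finRotate_last]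
  rw [h1, h2, hτ]

lemma wordProd_repeat (y : T → R) {n : ℕ} (p : ℕ) (v : Fin n → T) :
    wordProd y (Fin.repeat p v) = wordProd y v ^ p := by
  unfold wordProd
  have h1 : (fun i => y (Fin.repeat p v i)) = Fin.repeat p (fun i => y (v i)) := by
    funext i
    rw [Fin.repeat_apply, Fin.repeat_apply]
  rw [h1, List.ofFn_fin_repeat, List.prod_flatten, List.map_replicate, List.prod_replicate]

lemma repeat_fixed {n p : ℕ} [NeZero (p * n)] (v : Fin n → T) :
    (rot T (p * n) ^ n) (Fin.repeat p v) = Fin.repeat p v := by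
  funext j
  rw [rot_pow_apply, Fin.repeat_apply, Fin.repeat_apply]
  congr 1
  apply Fin.ext
  change (((finRotate (p * n) ^ n) j : Fin (p * n)) : ℕ) % n = (j : ℕ) % n
  rw [val_finRotate_pow, Nat.mod_mod_of_dvd _ (Dvd.intro_left p rfl), Nat.add_mod_right]

lemma exists_repeat {n p : ℕ} (hp : 0 < p) [NeZero (p * n)] {w : Fin (p * n) → T}
    (hw : (rot T (p * n) ^ n) w = w) : ∃ v : Fin n → T, Fin.repeat p v = w := by
  have hle : n ≤ p * n := Nat.le_mul_of_pos_left n hp
  refine ⟨fun a => w (Fin.castLE hle a), ?_⟩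
  have key : ∀ (k : ℕ) (a : ℕ) (ha : a < n) (hk : k * n + a < p * n),
      w ⟨k * n + a, hk⟩ = w ⟨a, by omega⟩ := by
    intro k
    induction k with
    | zero => intro a ha hk; congr 2; omega
    | succ k ih =>
      intro a ha hk
      have hk' : k * n + a < p * n := by
        have : (k + 1) * n = k * n + n := by ring
        omega
      rw [← ih a ha hk']
      have h1 := congrFun hw ⟨k * n + a, hk'⟩
      rw [rot_pow_apply] at h1
      rw [← h1]
      congr 1
      apply Fin.ext
      rw [val_finRotate_pow]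
      have e : k * n + a + n = (k + 1) * n + a := by ring
      change (k + 1) * n + a = (k * n + a + n) % (p * n)
      rw [e, Nat.mod_eq_of_lt hk]
  funext j
  rw [Fin.repeat_apply]
  have hn : 0 < n := Nat.pos_of_ne_zero fun h0 => (NeZero.ne (p * n)) (by rw [h0, mul_zero])
  have h2 := key (j / n) (j % n) (Nat.mod_lt _ hn) (by
    rw [mul_comm, Nat.div_add_mod]; exact j.2)
  have h3 : (⟨(j : ℕ) / n * n + (j : ℕ) % n, by
    rw [mul_comm, Nat.div_add_mod]; exact j.2⟩ : Fin (p * n)) = j := by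
    apply Fin.ext
    change (j : ℕ) / n * n + (j : ℕ) % n = j
    rw [mul_comm, Nat.div_add_mod]
  rw [h3] at h2
  rw [h2]
  rfl

lemma repeat_injective {n p : ℕ} (hp : 0 < p) :
    Function.Injective (Fin.repeat p : (Fin n → T) → Fin (p * n) → T) := by
  intro v v' h
  funext a
  have hle : n ≤ p * n := Nat.le_mul_of_pos_left n hp
  have h1 := congrFun h (Fin.castLE hle a)
  rw [Fin.repeat_apply, Fin.repeat_apply] at h1
  have h2 : (Fin.castLE hle a).modNat = a := by
    apply Fin.ext
    exact Nat.mod_eq_of_lt a.2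
  rwa [h2] at h1

/-- The necklace congruence. -/
theorem necklace_ring (y : T → R) {p : ℕ} (hp : p.Prime) (i : ℕ) :
    ∃ l : R, ∀ (G : Type*) [AddCommGroup G] (τ : R →+ G), (∀ a b, τ (a * b) = τ (b * a)) →
      τ ((∑ t, y t) ^ (p ^ (i + 1))) =
        (∑ v : Fin (p ^ i) → T, τ (wordProd y v ^ p)) + p ^ (i + 1) • τ l := by
  have hne : NeZero (p * p ^ i) := ⟨(Nat.mul_pos hp.pos (pow_pos hp.pos i)).ne'⟩
  have hrot : rot T (p * p ^ i) ^ (p ^ (i + 1)) = 1 := by
    rw [pow_succ' p i]; exact rot_pow_card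
  obtain ⟨S0, S, hS0, hS⟩ := exists_rep (rot T (p * p ^ i)) hp hrot
  refine ⟨∑ w ∈ S, wordProd y w, fun G _ τ hτ => ?_⟩
  have h1 := hS G (fun w => τ (wordProd y w)) (fun w => trace_rot y τ hτ w)
  have e0 : τ ((∑ t, y t) ^ (p ^ (i + 1))) = ∑ w : Fin (p * p ^ i) → T, τ (wordProd y w) := by
    rw [pow_succ' p i, sum_pow_eq, map_sum]
  rw [e0, h1, map_sum]
  congr 1
  symm
  refine Finset.sum_bij (fun v _ => Fin.repeat p v) ?_ ?_ ?_ ?_
  · intro v _
    exact (hS0 _).mpr (repeat_fixed v)
  · intro v _ v' _ h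
    exact repeat_injective hp.pos h
  · intro w hw
    obtain ⟨v, hv⟩ := exists_repeat hp.pos ((hS0 w).mp hw)
    exact ⟨v, Finset.mem_univ _, hv⟩
  · intro v _
    rw [wordProd_repeat]

end words

end Pool.Agent.Lib.MP_8f66f0_al_Plus
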