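import Mathlib
import Pool.Agent.Lib.MP_8f66f0_al_FinQ.LemmaP
import Pool.Agent.Lib.MP_8f66f0_al_Plus.Spec

/-! The multiplicativity property when all nontrivial classes are detected. -/

set_option autoImplicit false
set_option linter.unusedSectionVars false

namespace Pool.Agent.Lib.MP_8f66f0_al_Plus

open Pool.Agent.Lib.MP_8f66f0_al_Dennis Pool.Agent.Lib.MP_8f66f0_al_FinQ

theorem mult_of_detected {Γ : Type*} [Group Γ]
    (hsep : ∀ H : Subgroup Γ, H.FG → PowerSeparated H) {n : ℕ}
    {A B : Matrix (Fin n) (Fin n) (MonoidAlgebra ℤ Γ)} (hAB : A * B = 1) (hBA : B * A = 1)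
    {O : Type*} [CommRing O] [IsDomain O] [CharZero O] {p : ℕ} (hp : p.Prime) (hO : PSep O p)
    {κ κ' : Type*} [Fintype κ] [DecidableEq κ] [Fintype κ'] [DecidableEq κ']
    (β β' : Γ →* Matrix κ κ O) (σ : Γ →* Matrix κ' κ' O)
    (hσ : ∀ c : Γ, ¬ Detected c → σ c = 1)
    (hnil : NilMod p (twist β' B * twist β A - 1)) :
    ∃ N : ℕ, 0 < N ∧
      ((mapRep (tens β σ) A).det * (mapRep β' A).det ^ Fintype.card κ') ^ N =
        ((mapRep (tens β' σ) A).det * (mapRep β A).det ^ Fintype.card κ') ^ N := by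
  obtain ⟨m, W0, hW0⟩ := hnil
  set X := twist β' B * twist β A with hX
  set X' := twist β B * twist β' A with hX'
  have hAB1 : ∀ σ : Γ →* Matrix κ κ O, twist σ A * twist σ B = 1 := fun σ => by
    rw [← map_mul, hAB, map_one]
  have hBA1 : ∀ σ : Γ →* Matrix κ κ O, twist σ B * twist σ A = 1 := fun σ => by
    rw [← map_mul, hBA, map_one]
  have hX'X : X' * X = 1 := by
    rw [hX, hX', mul_assoc, ← mul_assoc (twist β' A), hAB1, one_mul, hBA1]
  have hXX' : X * X' = 1 := by
    rw [hX, hX', mul_assoc, ← mul_assoc (twist β A), hAB1, one_mul, hBA1]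
  -- the pairings vanish
  have hpair : ∀ (c : Γ) (δ : Γ → Γ → ℤ), IsClassCocycle c δ → δ c c ≠ 0 →
      mbil (bil (psi O c δ)) X' X = 0 := by
    intro c δ hδ hne
    have hc1 : c ≠ 1 := by
      rintro rfl
      exact not_detected_one ⟨δ, hδ, hne⟩
    have hco := mbil_cocycle (ι := Fin n × κ) (b := bil (psi O c δ)) (bil_psi_cocycle hδ)
    rw [hX, hco]
    have e1 : X' * twist β' B = twist β B := by rw [hX', mul_assoc, hAB1, mul_one]
    have e2 : twist β A * X' = twist β' A := by rw [hX', ← mul_assoc, hAB1, one_mul]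
    rw [e1, e2, mbil_twist, mbil_twist, dennis_int hsep hAB hBA c hc1 δ hδ,
      dennis_int hsep hBA hAB c hc1 δ hδ]
    simp
  obtain ⟨M, hM, Z0, hZ0⟩ := exists_pow_eq hp hW0
  rw [add_sub_cancel] at hZ0
  have hXM : X' ^ M * X ^ M = 1 := pow_mul_pow_eq_one M hX'X
  have key := det_eq_of_pairings hp hO hZ0 hXM
    (fun c δ hδ hne => phi_pow_inv (fun x y z => mbil_cocycle (bil_psi_cocycle hδ) x y z)
      hX'X hXX' (hpair c δ hδ hne) M)
    σ hσ (1 : Γ →* Matrix Unit Unit O) (fun g _ => rfl)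
  rw [map_pow, map_pow, Matrix.det_pow, Matrix.det_pow, Fintype.card_unit, pow_one] at key
  have hUσ : (evalMat O σ X).det =
      (mapRep (tens β' σ) B).det * (mapRep (tens β σ) A).det := by
    rw [hX, map_mul, Matrix.det_mul, evalMat_twist, evalMat_twist]
    rfl
  have hU1 : (evalMat O (1 : Γ →* Matrix Unit Unit O) X).det =
      (mapRep β' B).det * (mapRep β A).det := by
    rw [hX, map_mul, Matrix.det_mul, evalMat_twist, evalMat_twist, det_tens_one, det_tens_one]
    rfl
  have hinv : ∀ {κ'' : Type _} [Fintype κ''] [DecidableEq κ''] (τ : Γ →* Matrix κ'' κ'' O),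
      (mapRep τ A).det * (mapRep τ B).det = 1 := by
    intro κ'' _ _ τ
    rw [← Matrix.det_mul, ← mapRep_mul, hAB, mapRep_one, Matrix.det_one]
  rw [hUσ, hU1] at key
  set a := (mapRep (tens β σ) A).det with ha
  set a' := (mapRep (tens β' σ) A).det with ha'
  set u := (mapRep β A).det with hu
  set u' := (mapRep β' A).det with hu'
  have h1 : a' * (mapRep (tens β' σ) B).det = 1 := hinv _
  have h2 : u' * (mapRep β' B).det = 1 := by
    rw [hu', ← Matrix.det_mul, ← mapRep_mul, hAB, mapRep_one, Matrix.det_one]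
  set b' := (mapRep (tens β' σ) B).det with hb'
  set v' := (mapRep β' B).det with hv'
  refine ⟨M, hM, ?_⟩
  have key' : (b' * a) ^ M = ((v' * u) ^ Fintype.card κ') ^ M := by
    rw [← pow_mul, mul_comm (Fintype.card κ') M, pow_mul]
    exact key
  calc (a * u' ^ Fintype.card κ') ^ M
      = (a' * b') ^ M * (a * u' ^ Fintype.card κ') ^ M := by rw [h1, one_pow, one_mul]
    _ = a' ^ M * (b' * a) ^ M * (u' ^ Fintype.card κ') ^ M := by
        simp only [mul_pow]; ring
    _ = a' ^ M * ((v' * u) ^ Fintype.card κ') ^ M * (u' ^ Fintype.card κ') ^ M := by rw [key']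
    _ = (a' * u ^ Fintype.card κ') ^ M * ((u' * v') ^ Fintype.card κ') ^ M := by
        simp only [mul_pow]; ring
    _ = _ := by rw [h2, one_pow, one_pow, mul_one]

theorem propM_of_detected {Γ : Type*} [Group Γ]
    (hsep : ∀ H : Subgroup Γ, H.FG → PowerSeparated H) (hdet : ∀ c : Γ, c ≠ 1 → Detected c)
    {n : ℕ} {A B : Matrix (Fin n) (Fin n) (MonoidAlgebra ℤ Γ)} (hAB : A * B = 1)
    (hBA : B * A = 1) {p : ℕ} (hp : p.Prime) : PropM p A B := by
  intro O _ _ _ hO k l β β' σ hnil
  have h := mult_of_detected hsep hAB hBA hp hO β β' σ (by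
    intro c hc
    by_cases h1 : c = 1
    · rw [h1, map_one]
    · exact absurd (hdet c h1) hc) hnil
  simpa only [Fintype.card_fin] using h

end Pool.Agent.Lib.MP_8f66f0_al_Plus
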