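import Mathlib
import Pool.Agent.Lib.MP_8f66f0_al_FinQ.CH
import Pool.Agent.Lib.MP_8f66f0_al_FinQ.TwistDefs

/-! Reindexed representations. -/

set_option autoImplicit false
set_option linter.unusedSectionVars false

namespace Pool.Agent.Lib.MP_8f66f0_al_Plus

open Pool.Agent.Lib.MP_8f66f0_al_Dennis Pool.Agent.Lib.MP_8f66f0_al_FinQ

section reindexing

variable {Γ : Type*} [Group Γ] {O : Type*} [CommRing O] {κ κ' κ₁ κ₂ : Type*} [Fintype κ]
  [DecidableEq κ] [Fintype κ'] [DecidableEq κ'] [Fintype κ₁] [DecidableEq κ₁] [Fintype κ₂]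
  [DecidableEq κ₂]

/-- Reindexed representation. -/
noncomputable def reRep (e : κ ≃ κ') (β : Γ →* Matrix κ κ O) : Γ →* Matrix κ' κ' O :=
  ((Matrix.reindexAlgEquiv O O e).toAlgHom.toRingHom.toMonoidHom).comp β

lemma reRep_apply (e : κ ≃ κ') (β : Γ →* Matrix κ κ O) (g : Γ) (i j : κ') :
    reRep e β g i j = β g (e.symm i) (e.symm j) := rfl

lemma trace_reRep (e : κ ≃ κ') (β : Γ →* Matrix κ κ O) (g : Γ) :
    (reRep e β g).trace = (β g).trace := trace_reindex_self e (β g)

lemma twHom_reRep (e : κ ≃ κ') (β : Γ →* Matrix κ κ O) (x : MonoidAlgebra ℤ Γ) (i j : κ') :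
    twHom (reRep e β) x i j = twHom β x (e.symm i) (e.symm j) := by
  induction x using MonoidAlgebra.induction_linear with
  | zero => simp
  | add x y hx hy => rw [map_add, map_add, Matrix.add_apply, Matrix.add_apply, hx, hy]
  | single g m =>
    rw [twHom_single, twHom_single, Matrix.smul_apply, Matrix.smul_apply, twMon_apply,
      twMon_apply, reRep_apply]

lemma twist_reRep {ι : Type*} [Fintype ι] [DecidableEq ι] (e : κ ≃ κ') (β : Γ →* Matrix κ κ O)
    (A : Matrix ι ι (MonoidAlgebra ℤ Γ)) :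
    twist (reRep e β) A = Matrix.reindexAlgEquiv ℤ (MonoidAlgebra O Γ)
      (Equiv.prodCongr (Equiv.refl ι) e) (twist β A) := by
  ext x y : 1
  rw [twist_apply, twHom_reRep]
  rfl

lemma det_reRep {ι : Type*} [Fintype ι] [DecidableEq ι] (e : κ ≃ κ') (β : Γ →* Matrix κ κ O)
    (A : Matrix ι ι (MonoidAlgebra ℤ Γ)) : (mapRep (reRep e β) A).det = (mapRep β A).det := by
  have h : mapRep (reRep e β) A = (mapRep β A).submatrix
      (Equiv.prodCongr (Equiv.refl ι) e.symm) (Equiv.prodCongr (Equiv.refl ι) e.symm) := by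
    ext x y
    rw [mapRep_apply, mapHom_apply, Matrix.submatrix_apply, mapRep_apply, mapHom_apply]
    rfl
  rw [h, Matrix.det_submatrix_equiv_self]

lemma tens_reRep (e : κ ≃ κ') (e₁ : κ₁ ≃ κ₂) (β : Γ →* Matrix κ κ O) (σ : Γ →* Matrix κ₁ κ₁ O) :
    tens (reRep e β) (reRep e₁ σ) = reRep (Equiv.prodCongr e e₁) (tens β σ) := by
  ext g x y
  rfl

end reindexing

end Pool.Agent.Lib.MP_8f66f0_al_Plus
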