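import Mathlib
import Pool.Agent.Lib.MP_8f66f0_al_FinQ.Monomial
import Pool.Agent.Lib.MP_8f66f0_al_Plus.ReRep
import Pool.Agent.Lib.MP_8f66f0_al_Plus.Spec

/-! Determinants in representations with finite image from the multiplicativity property over
rings which are finite over the integers. -/

set_option autoImplicit false
set_option linter.unusedSectionVars false

namespace Pool.Agent.Lib.MP_8f66f0_al_Plus

open Pool.Agent.Lib.MP_8f66f0_al_Dennis Pool.Agent.Lib.MP_8f66f0_al_FinQ

/-- The multiplicativity property of determinants at the prime `p`, for representations with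
finite image over domains which are finite over the integers. -/
def PropT {Γ : Type*} [Group Γ] {n : ℕ} (p : ℕ)
    (A B : Matrix (Fin n) (Fin n) (MonoidAlgebra ℤ Γ)) : Prop :=
  ∀ (O : Type) [CommRing O] [IsDomain O] [CharZero O] [Module.Finite ℤ O] (k l : ℕ)
    (β β' : Γ →* Matrix (Fin k) (Fin k) O) (σ : Γ →* Matrix (Fin l) (Fin l) O),
    (Set.range β).Finite → (Set.range β').Finite → (Set.range σ).Finite →
      NilMod p (twist β' B * twist β A - 1) →
      ∃ N : ℕ, 0 < N ∧ ((mapRep (tens β σ) A).det * (mapRep β' A).det ^ l) ^ N =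
        ((mapRep (tens β' σ) A).det * (mapRep β A).det ^ l) ^ N

lemma not_isUnit_of_finite {O : Type*} [CommRing O] [IsDomain O] [CharZero O]
    [Module.Finite ℤ O] {p : ℕ} (hp : p.Prime) : ¬ IsUnit ((p : ℕ) : O) := by
  intro h
  have h1 : IsUnit (algebraMap ℤ O (p : ℤ)) := by
    rw [eq_intCast, Int.cast_natCast]; exact h
  have h2 : IsUnit (p : ℤ) := isUnit_of_map_unit (algebraMap ℤ O) _ h1
  rw [Int.isUnit_iff_natAbs_eq] at h2
  simp only [Int.natAbs_natCast] at h2
  exact hp.one_lt.ne' h2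

lemma psep_of_finite {O : Type*} [CommRing O] [IsDomain O] [CharZero O]
    [Module.Finite ℤ O] {p : ℕ} (hp : p.Prime) : PSep O p := by
  have : IsNoetherianRing O := Algebra.FiniteType.isNoetherianRing ℤ O
  exact PSep.of_noetherian (not_isUnit_of_finite hp)

theorem PropM.propT {Γ : Type*} [Group Γ] {n p : ℕ} (hp : p.Prime)
    {A B : Matrix (Fin n) (Fin n) (MonoidAlgebra ℤ Γ)} (h : PropM p A B) : PropT p A B :=
  fun O _ _ _ _ k l β β' σ _ _ _ hn => h O (psep_of_finite hp) k l β β' σ hn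

/-- `PropT` for arbitrary index types. -/
theorem PropT.apply {Γ : Type*} [Group Γ] {n p : ℕ}
    {A B : Matrix (Fin n) (Fin n) (MonoidAlgebra ℤ Γ)} (hM : PropT p A B) {O : Type} [CommRing O]
    [IsDomain O] [CharZero O] [Module.Finite ℤ O] {κ κ' : Type*} [Fintype κ] [DecidableEq κ]
    [Fintype κ'] [DecidableEq κ'] (β β' : Γ →* Matrix κ κ O) (σ : Γ →* Matrix κ' κ' O)
    (hβ : (Set.range β).Finite) (hβ' : (Set.range β').Finite) (hσ : (Set.range σ).Finite)
    (h : NilMod p (twist β' B * twist β A - 1)) :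
    ∃ N : ℕ, 0 < N ∧
      ((mapRep (tens β σ) A).det * (mapRep β' A).det ^ Fintype.card κ') ^ N =
        ((mapRep (tens β' σ) A).det * (mapRep β A).det ^ Fintype.card κ') ^ N := by
  set e := Fintype.equivFin κ
  set e' := Fintype.equivFin κ'
  obtain ⟨N, hN0, hN⟩ := hM O (Fintype.card κ) (Fintype.card κ') (reRep e β) (reRep e β')
    (reRep e' σ) ((hβ.image (Matrix.reindexAlgEquiv O O e)).subset (by
      rintro _ ⟨g, rfl⟩
      exact ⟨β g, ⟨g, rfl⟩, rfl⟩)) ((hβ'.image (Matrix.reindexAlgEquiv O O e)).subset (by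
      rintro _ ⟨g, rfl⟩
      exact ⟨β' g, ⟨g, rfl⟩, rfl⟩)) ((hσ.image (Matrix.reindexAlgEquiv O O e')).subset (by
      rintro _ ⟨g, rfl⟩
      exact ⟨σ g, ⟨g, rfl⟩, rfl⟩)) (by
      obtain ⟨m, W0, hW0⟩ := h
      refine ⟨m, Matrix.reindexAlgEquiv ℤ (MonoidAlgebra O Γ)
        (Equiv.prodCongr (Equiv.refl (Fin n)) e) W0, ?_⟩
      rw [twist_reRep, twist_reRep, ← map_mul, ← map_one (Matrix.reindexAlgEquiv ℤ
        (MonoidAlgebra O Γ) (Equiv.prodCongr (Equiv.refl (Fin n)) e)), ← map_sub, ← map_pow, hW0,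
        map_nsmul])
  rw [tens_reRep, tens_reRep, det_reRep, det_reRep, det_reRep, det_reRep] at hN
  exact ⟨N, hN0, hN⟩

section main

variable {Γ : Type*} [Group Γ]

/-- Two congruent representations of a finite quotient. -/
theorem lemmaP_of_propT {n : ℕ}
    {A B : Matrix (Fin n) (Fin n) (MonoidAlgebra ℤ Γ)} (hAB : A * B = 1) (hBA : B * A = 1)
    {p : ℕ} (hp : p.Prime) (hT : PropT p A B) {Q : Type*} [Group Q] [Finite Q] (π : Γ →* Q)
    {O : Type} [CommRing O] [IsDomain O] [CharZero O] [Module.Finite ℤ O] {κ : Type*} [Fintype κ]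
    [DecidableEq κ] (β β' : Q →* Matrix κ κ O)
    (hcong : ∀ q a b, β q a b - β' q a b ∈ (Ideal.span {(p : O)}).radical) :
    ∃ N : ℕ, 0 < N ∧ (mapRep (β.comp π) A).det ^ N = (mapRep (β'.comp π) A).det ^ N := by
  classical
  have : Fintype Q := Fintype.ofFinite Q
  have hnoeth : IsNoetherianRing O := Algebra.FiniteType.isNoetherianRing ℤ O
  have hp0 : (p : O) ≠ 0 := Nat.cast_ne_zero.mpr hp.ne_zero
  set b := β.comp π with hb
  set b' := β'.comp π with hb'
  set X := twist b' B * twist b A with hX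
  have hBA1 : ∀ σ : Γ →* Matrix κ κ O, twist σ B * twist σ A = 1 := fun σ => by
    rw [← map_mul, hBA, map_one]
  -- `X` is congruent to one modulo the radical
  set J := (Ideal.span {(p : O)}).radical with hJ
  have hY : CoeffIn J (X - 1) := by
    have e1 : X - 1 = twist b' B * (twist b A - twist b' A) := by
      rw [mul_sub, hBA1, hX]
    rw [e1]
    have := (CoeffIn.top (twist b' B)).mul (coeffIn_twist_sub (J := J) (β := b) (β' := b')
      (fun g x y => hcong (π g) x y) A)
    rwa [Ideal.top_mul] at this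
  obtain ⟨m, hm⟩ := Ideal.exists_radical_pow_le_of_fg (Ideal.span {(p : O)})
    (IsNoetherian.noetherian _)
  obtain ⟨W0, hW0⟩ := ((hY.pow m).mono hm).exists_smul hp0
  obtain ⟨N, hN0, hN⟩ := hT.apply b b' ((regRep O Q).comp π)
    ((Set.finite_range β).subset (by rintro _ ⟨g, rfl⟩; exact ⟨π g, rfl⟩))
    ((Set.finite_range β').subset (by rintro _ ⟨g, rfl⟩; exact ⟨π g, rfl⟩))
    ((Set.finite_range (regRep O Q)).subset (by rintro _ ⟨g, rfl⟩; exact ⟨π g, rfl⟩))
    ⟨m, W0, hW0⟩
  have h1 : (mapRep (tens b ((regRep O Q).comp π)) A).det =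
      (mapRep (tens b' ((regRep O Q).comp π)) A).det := by
    refine det_eq_of_trace_eq _ _ (fun g => ?_) hAB
    rw [trace_tens, trace_tens]
    by_cases hg : π g = 1
    · simp only [hb, hb', MonoidHom.comp_apply, hg, map_one]
    · rw [MonoidHom.comp_apply (regRep O Q), trace_regRep Q (π g) hg, mul_zero, mul_zero]
  rw [h1, mul_pow, mul_pow] at hN
  have hu : (mapRep (tens b' ((regRep O Q).comp π)) A).det ^ N ≠ 0 :=
    pow_ne_zero _ (isUnit_det_mapRep _ hAB).ne_zero
  have h2 := mul_left_cancel₀ hu hN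
  refine ⟨Fintype.card Q * N, Nat.mul_pos Fintype.card_pos hN0, ?_⟩
  rw [pow_mul, pow_mul]
  exact h2.symm

lemma rootRing_finite {K : Type*} [Field K] [CharZero K] {m : ℕ} (hm : 0 < m) :
    Module.Finite ℤ (rootRing K m) := by
  refine Algebra.finite_adjoin_of_finite_of_isIntegral (finite_roots hm) ?_
  intro x hx
  exact rootRing_isIntegral hm ⟨x, mem_rootRing hx⟩

/-- Determinants of monomial representations are roots of unity. -/
theorem mon_root_of_propT {n : ℕ}
    {A B : Matrix (Fin n) (Fin n) (MonoidAlgebra ℤ Γ)} (hAB : A * B = 1) (hBA : B * A = 1)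
    (hT : ∀ p : ℕ, p.Prime → PropT p A B)
    {Q : Type*} [Group Q] [Finite Q] (π : Γ →* Q) {K : Type} [Field K] [CharZero K]
    {Ω : Type*} [MulAction Q Ω] [Fintype Ω] [DecidableEq Ω] (m : ℕ) (hm : 0 < m)
    {θ : Q → Ω → K} (hθ : IsMonCocycle θ) (hθm : ∀ g w, θ g w ^ m = 1) :
    ∃ N : ℕ, 0 < N ∧ (mapRep ((monRep hθ).comp π) A).det ^ N = 1 := by
  induction m using Nat.strong_induction_on generalizing θ with
  | _ m ih =>
  by_cases hm1 : m = 1
  · -- integer matrices
    subst hm1
    have h1 : IsMonCocycle (fun (_ : Q) (_ : Ω) => (1 : ℤ)) :=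
      ⟨fun _ => rfl, fun _ _ _ => (mul_one 1).symm⟩
    refine ⟨2, two_pos, ?_⟩
    have h2 : (monRep hθ).comp π =
        ((Int.castRingHom K).mapMatrix : Matrix Ω Ω ℤ →+* Matrix Ω Ω K).toMonoidHom.comp
          ((monRep h1).comp π) := by
      ext g w' w
      change (monRep hθ (π g)) w' w = ((monRep h1 (π g) w' w : ℤ) : K)
      rw [monRep_apply, monRep_apply]
      have h3 := hθm (π g) w
      rw [pow_one] at h3
      split_ifs
      · rw [h3, Int.cast_one]
      · rw [Int.cast_zero]
    rw [h2]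
    exact det_int_sq hAB _
  · set p := m.minFac with hp
    have hpp : p.Prime := Nat.minFac_prime hm1
    have : Fact p.Prime := ⟨hpp⟩
    obtain ⟨a, m', hpm', hmeq⟩ := Nat.exists_eq_pow_mul_and_not_dvd hm.ne' p hpp.ne_one
    have hcop : Nat.Coprime (p ^ a) m' :=
      Nat.Coprime.pow_left a ((Nat.Prime.coprime_iff_not_dvd hpp).mpr hpm')
    have ha : 0 < a := by
      rcases Nat.eq_zero_or_pos a with h0 | h0
      · exfalso
        apply hpm'
        have : m = m' := by rw [hmeq, h0, pow_zero, one_mul]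
        rw [← this]
        exact Nat.minFac_dvd m
      · exact h0
    have hm'0 : 0 < m' := by
      rcases Nat.eq_zero_or_pos m' with h0 | h0
      · rw [h0, mul_zero] at hmeq; omega
      · exact h0
    have hlt : m' < m := by
      rw [hmeq]
      have : 1 < p ^ a := Nat.one_lt_pow ha.ne' hpp.one_lt
      nlinarith
    obtain ⟨e, he0, he1⟩ := Nat.chineseRemainder hcop 0 1
    have hemod : e * p ^ a ≡ p ^ a [MOD p ^ a * m'] := by
      refine (Nat.modEq_and_modEq_iff_modEq_mul hcop).mp ⟨?_, ?_⟩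
      · exact ((Nat.modEq_zero_iff_dvd.mpr (Dvd.intro_left e rfl)).trans
          (Nat.modEq_zero_iff_dvd.mpr dvd_rfl).symm)
      · have := he1.mul_right (p ^ a)
        rwa [one_mul] at this
    have hedvd : p ^ a ∣ e := (Nat.modEq_zero_iff_dvd.mp he0)
    obtain ⟨N', hN'0, hN'⟩ := ih m' hlt hm'0 (hθ.pow e) (by
      intro g w
      obtain ⟨c, hc⟩ := hedvd
      rw [← pow_mul, hc]
      have : p ^ a * c * m' = m * c := by rw [hmeq]; ring
      rw [this, pow_mul, hθm, one_pow])
    -- the ring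
    have hfin : Module.Finite ℤ (rootRing K m) := rootRing_finite hm
    set θO : Q → Ω → rootRing K m := fun g w => ⟨θ g w, mem_rootRing (hθm g w)⟩ with hθO
    have hcoc : IsMonCocycle θO :=
      ⟨fun w => Subtype.ext (hθ.one w), fun g h w => Subtype.ext (hθ.mul g h w)⟩
    obtain ⟨N, hN0, hN⟩ := lemmaP_of_propT hAB hBA hpp (hT p hpp) π
      (monRep hcoc) (monRep (hcoc.pow e)) (by
        intro q w' w
        rw [monRep_apply, monRep_apply]
        split_ifs
        · refine sub_pow_mem_radical hpp ?_ hemod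
          apply Subtype.ext
          change θ q w ^ (p ^ a * m') = 1
          rw [← hmeq, hθm]
        · rw [sub_zero]; exact Ideal.zero_mem _)
    have hmap : ∀ {τ : Q → Ω → rootRing K m} (hτ : IsMonCocycle τ) {τK : Q → Ω → K}
        (hτK : IsMonCocycle τK), (∀ g w, (τ g w : K) = τK g w) →
        (mapRep ((monRep hτK).comp π) A).det =
          algebraMap (rootRing K m) K (mapRep ((monRep hτ).comp π) A).det := by
      intro τ hτ τK hτK hval
      rw [RingHom.map_det]
      change _ = ((mapRep ((monRep hτ).comp π) A).map (algebraMap (rootRing K m) K)).det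
      rw [mapRep_map]
      congr 2
      ext g w' w
      change monRep hτK (π g) w' w = (monRep hτ (π g) w' w : K)
      rw [monRep_apply, monRep_apply]
      split_ifs
      · rw [hval]
      · rfl
    refine ⟨N * N', Nat.mul_pos hN0 hN'0, ?_⟩
    rw [pow_mul, hmap hcoc hθ (fun _ _ => rfl), ← map_pow, hN, map_pow,
      ← hmap (hcoc.pow e) (hθ.pow e) (fun _ _ => rfl), ← pow_mul, mul_comm N N', pow_mul, hN',
      one_pow]

/-- Determinants of representations of finite quotients are roots of unity. -/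
theorem root_of_propT {n : ℕ}
    {A B : Matrix (Fin n) (Fin n) (MonoidAlgebra ℤ Γ)} (hAB : A * B = 1) (hBA : B * A = 1)
    (hT : ∀ p : ℕ, p.Prime → PropT p A B)
    {Q : Type*} [Group Q] [Finite Q] (π : Γ →* Q) {E : Type} [Field E] [CharZero E]
    {κ : Type*} [Fintype κ] [DecidableEq κ] (β : Q →* Matrix κ κ E) :
    ∃ N : ℕ, 0 < N ∧ (mapRep (β.comp π) A).det ^ N = 1 := by
  classical
  set s := algebraMap E (AlgebraicClosure E) with hs
  have hinj : Function.Injective s := FaithfulSMul.algebraMap_injective E (AlgebraicClosure E)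
  set βs : Q →* Matrix κ κ (AlgebraicClosure E) :=
    (s.mapMatrix : Matrix κ κ E →+* Matrix κ κ (AlgebraicClosure E)).toMonoidHom.comp β with hβs
  obtain ⟨N, hN0, hN⟩ := artin_reduction π βs hAB (by
    intro C _ ψ hψ
    exact mon_root_of_propT hAB hBA hT π (Nat.card Q) Nat.card_pos
      (indCocycle_isMonCocycle C ψ) (fun g w => indCocycle_pow C ψ hψ g w))
  refine ⟨N, hN0, hinj ?_⟩
  rw [map_pow, map_one, ← hN]
  congr 1
  rw [RingHom.map_det]
  change ((mapRep (β.comp π) A).map s).det = _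
  rw [mapRep_map]
  rfl

end main

end Pool.Agent.Lib.MP_8f66f0_al_Plus
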