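import Mathlib
import Pool.Agent.Lib.MP_8f66f0_al_FinQ.LemmaP
import Pool.Agent.Lib.MP_8f66f0_al_Plus.Spec

/-! Valuation rings of the field of algebraic numbers. -/

set_option autoImplicit false
set_option linter.unusedSectionVars false

namespace Pool.Agent.Lib.MP_8f66f0_al_Plus

open Pool.Agent.Lib.MP_8f66f0_al_Dennis Pool.Agent.Lib.MP_8f66f0_al_FinQ

variable (W : ValuationSubring Qbar) {p : ℕ}

/-- Elements which are integral over the valuation ring are in it. -/
theorem mem_of_isIntegral_val {x : Qbar} (hx : IsIntegral W x) : x ∈ W := by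
  obtain ⟨y, hy⟩ := (IsIntegrallyClosed.isIntegral_iff (R := W) (K := Qbar)).mp hx
  rw [← hy]
  exact y.2

/-- Algebraic integers are in every valuation ring. -/
theorem mem_of_isIntegral_int {x : Qbar} (hx : IsIntegral ℤ x) : x ∈ W :=
  mem_of_isIntegral_val W hx.tower_top

/-- Roots of unity are in every valuation ring. -/
theorem mem_of_pow_eq_one {m : ℕ} (hm : 0 < m) {x : Qbar} (hx : x ^ m = 1) : x ∈ W := by
  apply mem_of_isIntegral_int
  refine ⟨Polynomial.X ^ m - 1, Polynomial.monic_X_pow_sub_C 1 hm.ne', ?_⟩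
  simp [hx]

/-- Integers prime to `p` are units. -/
theorem isUnit_natCast_val (hp : p.Prime) (hpW : ¬ IsUnit ((p : ℕ) : W)) {r : ℕ} (hr : ¬ p ∣ r) :
    IsUnit ((r : ℕ) : W) := by
  by_contra h
  have h1 : ((p : ℕ) : W) ∈ IsLocalRing.maximalIdeal W := (IsLocalRing.mem_maximalIdeal _).mpr hpW
  have h2 : ((r : ℕ) : W) ∈ IsLocalRing.maximalIdeal W := (IsLocalRing.mem_maximalIdeal _).mpr h
  have hc : IsCoprime (p : ℤ) (r : ℤ) :=
    Nat.isCoprime_iff_coprime.mpr ((Nat.Prime.coprime_iff_not_dvd hp).mpr hr)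
  obtain ⟨a, b, hab⟩ := hc
  have h3 : (1 : W) = (a : W) * (p : W) + (b : W) * (r : W) := by exact_mod_cast hab.symm
  have h4 : (1 : W) ∈ IsLocalRing.maximalIdeal W := by
    rw [h3]
    exact Ideal.add_mem _ (Ideal.mul_mem_left _ _ h1) (Ideal.mul_mem_left _ _ h2)
  exact (Ideal.ne_top_iff_one _).mp (IsLocalRing.maximalIdeal.isMaximal W).ne_top h4

theorem charZero_val : CharZero W := by
  refine ⟨fun a b h => ?_⟩
  have h1 : ((a : W) : Qbar) = ((b : W) : Qbar) := by rw [h]
  push_cast at h1
  exact_mod_cast h1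

theorem isAlgebraic_int (x : Qbar) : IsAlgebraic ℤ x := by
  have h : IsAlgebraic ℚ x := (AlgebraicClosure.isAlgebraic ℚ).isAlgebraic x
  exact (IsFractionRing.isAlgebraic_iff ℤ ℚ Qbar).mpr h

/-- The ring is `p`-adically separated: for `x ≠ 0` some nonzero integer `N` is a multiple of `x`
(as `x⁻¹` is algebraic), and `N / p ^ k` is not in `W` for large `k`. -/
theorem psep_val (hp : p.Prime) (hpW : ¬ IsUnit ((p : ℕ) : W)) : PSep W p := by
  intro x hx
  by_contra hx0
  have := charZero_val W
  have hx1 : (x : Qbar) ≠ 0 := fun h => hx0 (Subtype.ext h)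
  obtain ⟨N, hN, hNi⟩ := (isAlgebraic_int ((x : Qbar)⁻¹)).exists_integral_multiple
  have hw := mem_of_isIntegral_int W hNi
  have h1 : ((N : ℤ) : W) = x * ⟨_, hw⟩ := by
    apply Subtype.ext
    push_cast
    rw [zsmul_eq_mul]
    field_simp
  have hN0 : N.natAbs ≠ 0 := Int.natAbs_ne_zero.mpr hN
  obtain ⟨v, r, hr, hvr⟩ := Nat.exists_eq_pow_mul_and_not_dvd hN0 p hp.ne_one
  have h2 : (p : W) ^ (v + 1) ∣ ((N.natAbs : ℕ) : W) := by
    have h3 : (p : W) ^ (v + 1) ∣ ((N : ℤ) : W) := by
      rw [h1]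
      exact (hx (v + 1)).mul_right _
    rw [← Int.cast_natCast (R := W) N.natAbs]
    rcases Int.natAbs_eq N with h | h
    · rw [← h]
      exact h3
    · have h4 : ((N.natAbs : ℕ) : ℤ) = -N := by omega
      rw [h4, Int.cast_neg, dvd_neg]
      exact h3
  rw [hvr] at h2
  push_cast at h2
  rw [pow_succ] at h2
  have hp0 : (p : W) ^ v ≠ 0 := pow_ne_zero _ (by exact_mod_cast hp.ne_zero)
  have h3 := (mul_dvd_mul_iff_left hp0).mp h2
  exact hpW (isUnit_of_dvd_unit h3 (isUnit_natCast_val W hp hpW hr))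

/-- Every algebraic number is a root of an integer polynomial not all of whose coefficients are
divisible by `p`. -/
theorem exists_poly_not_dvd (hp : p.Prime) (x : Qbar) :
    ∃ f : Polynomial ℤ, Polynomial.aeval x f = 0 ∧ ∃ j, ¬ (p : ℤ) ∣ f.coeff j := by
  obtain ⟨f, hf0, hf⟩ := isAlgebraic_int x
  refine ⟨f.primPart, Polynomial.aeval_primPart_eq_zero hf0 hf, ?_⟩
  by_contra h
  push Not at h
  have h1 : Polynomial.C (p : ℤ) ∣ f.primPart := Polynomial.C_dvd_iff_dvd_coeff _ _ |>.mpr h
  have h2 := (Polynomial.isPrimitive_primPart f) (p : ℤ) h1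
  have := Int.isUnit_iff.mp h2
  have h3 := hp.two_le
  omega

theorem aeval_val (x : W) (f : Polynomial ℤ) (hf : Polynomial.aeval (x : Qbar) f = 0) :
    Polynomial.aeval x f = 0 := by
  apply ValuationSubring.subtype_injective W
  rw [map_zero, ← hf]
  simp [Polynomial.aeval_eq_sum_range, Polynomial.aeval_eq_sum_range]

/-- Some power of an element of the maximal ideal is divisible by `p`. (`x` is algebraic: if `x`
is not zero then `v (x ^ r) = v (q)` up to roots; e.g. let `a_d x ^ d + ... + a_0 = 0` be a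
relation with integer coefficients which are not all divisible by `p`; look at the Newton polygon,
or use that `x ^ r / p` in `W` for some `r`, otherwise `p / x ^ r` is in `W` for all `r`, and
the relation divided by the power of `p` shows that it cannot be.) -/
theorem exists_dvd_pow (hp : p.Prime) (hpW : ¬ IsUnit ((p : ℕ) : W)) {x : W}
    (hx : x ∈ IsLocalRing.maximalIdeal W) : ∃ r : ℕ, (p : W) ∣ x ^ r := by
  by_contra hcon
  push Not at hcon
  have hdiv : ∀ r, x ^ r ∣ (p : W) := fun r =>
    (ValuationRing.dvd_total (x ^ r) (p : W)).resolve_right (hcon r)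
  have hx0 : x ≠ 0 := by
    rintro rfl
    exact hcon 1 (by rw [pow_one]; exact dvd_zero _)
  obtain ⟨f, hf, hj⟩ := exists_poly_not_dvd hp (x : Qbar)
  have hf1 := aeval_val W x f hf
  classical
  set j := Nat.find hj with hjdef
  have hj1 : ¬ (p : ℤ) ∣ f.coeff j := Nat.find_spec hj
  have hj2 : ∀ i < j, (p : ℤ) ∣ f.coeff i := fun i hi => by
    have := Nat.find_min hj hi
    exact not_not.mp this
  have hunit : IsUnit ((f.coeff j : ℤ) : W) := by
    have h1 : ¬ p ∣ (f.coeff j).natAbs := fun h => hj1 (Int.natCast_dvd.mpr h)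
    have h2 := isUnit_natCast_val W hp hpW h1
    rw [← Int.cast_natCast (R := W) (f.coeff j).natAbs] at h2
    rcases Int.natAbs_eq (f.coeff j) with h | h
    · rwa [← h] at h2
    · have h4 : (((f.coeff j).natAbs : ℕ) : ℤ) = -(f.coeff j) := by omega
      rwa [h4, Int.cast_neg, IsUnit.neg_iff] at h2
  have hjd : j ∈ Finset.range (f.natDegree + 1) := by
    rw [Finset.mem_range]
    by_contra h
    exact hj1 (by rw [Polynomial.coeff_eq_zero_of_natDegree_lt (by omega)]; exact dvd_zero _)
  rw [Polynomial.aeval_eq_sum_range, ← Finset.add_sum_erase _ _ hjd] at hf1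
  have h1 : x ^ (j + 1) ∣ f.coeff j • x ^ j := by
    rw [eq_neg_of_add_eq_zero_left hf1, dvd_neg]
    apply Finset.dvd_sum
    intro i hi
    rw [zsmul_eq_mul]
    rcases lt_trichotomy i j with h | h | h
    · apply Dvd.dvd.mul_right
      obtain ⟨c, hc⟩ := hj2 i h
      rw [hc]
      push_cast
      exact (hdiv _).mul_right _
    · exact absurd h (Finset.ne_of_mem_erase hi)
    · exact (pow_dvd_pow x (by omega)).mul_left _
  rw [zsmul_eq_mul, IsUnit.dvd_mul_left hunit, pow_succ] at h1
  have h2 : x ^ j * x ∣ x ^ j * 1 := by rwa [mul_one]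
  have h3 := (mul_dvd_mul_iff_left (pow_ne_zero j hx0)).mp h2
  exact (IsLocalRing.mem_maximalIdeal x).mp hx (isUnit_of_dvd_one h3)

/-- The residue field is algebraically closed (lift a monic polynomial, take a root in `Qbar`,
it is integral over `W`, hence in `W`). -/
theorem residue_algClosed : IsAlgClosed (IsLocalRing.ResidueField W) := by
  apply IsAlgClosed.of_exists_root
  intro g hg hirr
  have hl : g ∈ Polynomial.lifts (IsLocalRing.residue W) := by
    rw [Polynomial.mem_lifts]
    exact Polynomial.map_surjective _ IsLocalRing.residue_surjective g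
  obtain ⟨q, hq1, hq2, hq3⟩ := Polynomial.lifts_and_natDegree_eq_and_monic hl hg
  have hdeg : 0 < q.natDegree := by
    rw [hq2]
    exact hirr.natDegree_pos
  obtain ⟨z, hz⟩ := IsAlgClosed.exists_aeval_eq_zero Qbar q (by
    rw [Polynomial.degree_eq_natDegree hq3.ne_zero]
    exact_mod_cast hdeg.ne')
  have hzW : z ∈ W := mem_of_isIntegral_val W ⟨q, hq3, by rwa [← Polynomial.aeval_def]⟩
  refine ⟨IsLocalRing.residue W ⟨z, hzW⟩, ?_⟩
  rw [← hq1, Polynomial.eval_map, Polynomial.eval₂_hom]
  have h1 : q.eval (⟨z, hzW⟩ : W) = 0 := by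
    apply ValuationSubring.subtype_injective W
    rw [map_zero, ← hz, Polynomial.aeval_def, ← Polynomial.eval₂_hom, ]
    rfl
  rw [h1, map_zero]

/-- Roots of unity of the residue field lift (`X ^ m - 1` splits over `W`). -/
theorem exists_root_lift {m : ℕ} (hm : 0 < m) (μ : IsLocalRing.ResidueField W)
    (hμ : μ ^ m = 1) : ∃ ζ : W, ζ ^ m = 1 ∧ IsLocalRing.residue W ζ = μ := by
  classical
  have hq : (Polynomial.X ^ m - 1 : Polynomial Qbar).Monic := Polynomial.monic_X_pow_sub_C 1 hm.ne'
  have hs := IsAlgClosed.splits (Polynomial.X ^ m - 1 : Polynomial Qbar)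
  have hprod := hs.eq_prod_roots_of_monic hq
  have hroot : ∀ z ∈ (Polynomial.X ^ m - 1 : Polynomial Qbar).roots, z ^ m = 1 := by
    intro z hz
    have h1 := Polynomial.isRoot_of_mem_roots hz
    simp only [Polynomial.IsRoot.def, Polynomial.eval_sub, Polynomial.eval_pow,
      Polynomial.eval_X, Polynomial.eval_one] at h1
    exact sub_eq_zero.mp h1
  set s := (Polynomial.X ^ m - 1 : Polynomial Qbar).roots with hsdef
  set t : Multiset W := s.pmap (fun z hz => (⟨z, hz⟩ : W))
    (fun z hz => mem_of_pow_eq_one W hm (hroot z hz)) with ht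
  have h1 : (Polynomial.X ^ m - 1 : Polynomial W) =
      (t.map (fun a => Polynomial.X - Polynomial.C a)).prod := by
    apply Polynomial.map_injective (ValuationSubring.subtype W)
      (ValuationSubring.subtype_injective W)
    rw [Polynomial.map_multiset_prod, Multiset.map_map]
    simp only [Polynomial.map_sub, Polynomial.map_pow, Polynomial.map_X, Polynomial.map_one,
      Function.comp_def, Polynomial.map_C]
    rw [hprod, ht, Multiset.map_pmap]
    congr 1
    simp only [ValuationSubring.subtype_apply]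
    exact (Multiset.pmap_eq_map _ (fun a => Polynomial.X - Polynomial.C a) _ _).symm
  have h2 := congrArg (fun q => (q.map (IsLocalRing.residue W)).eval μ) h1
  simp only [Polynomial.map_sub, Polynomial.map_pow, Polynomial.map_X, Polynomial.map_one,
    Polynomial.map_multiset_prod, Multiset.map_map, Function.comp_def, Polynomial.map_C,
    Polynomial.eval_sub, Polynomial.eval_pow, Polynomial.eval_X, Polynomial.eval_one, hμ, sub_self,
    Polynomial.eval_multiset_prod, Polynomial.eval_C] at h2
  rw [eq_comm, Multiset.prod_eq_zero_iff, Multiset.mem_map] at h2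
  obtain ⟨a, ha, ha0⟩ := h2
  refine ⟨a, ?_, (sub_eq_zero.mp ha0).symm⟩
  rw [ht, Multiset.mem_pmap] at ha
  obtain ⟨z, hz, rfl⟩ := ha
  apply Subtype.ext
  exact hroot z hz

/-- Every unit has a power which is `1` modulo `p ^ 2`. (The residue field is algebraic over
`ZMod p`: every element of `Qbar` in `W` is a root of an integer polynomial not all of whose
coefficients are divisible by `p`; so some power is `1 + y`, `y` in the maximal ideal; then use
`exists_dvd_pow` and `exists_pow_eq` of FinQ/LemmaP.) -/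
theorem exists_pow_one_mod (hp : p.Prime) (hpW : ¬ IsUnit ((p : ℕ) : W)) {u : W}
    (hu : IsUnit u) : ∃ K : ℕ, 0 < K ∧ (p : W) ^ 2 ∣ u ^ K - 1 := by
  have : Fact p.Prime := ⟨hp⟩
  have hpm : ((p : ℕ) : W) ∈ IsLocalRing.maximalIdeal W := (IsLocalRing.mem_maximalIdeal _).mpr hpW
  have hp0 : ((p : ℕ) : IsLocalRing.ResidueField W) = 0 := by
    have := (IsLocalRing.residue_eq_zero_iff _).mpr hpm
    rwa [map_natCast] at this
  have hchar : CharP (IsLocalRing.ResidueField W) p := (CharP.charP_iff_prime_eq_zero hp).mpr hp0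
  let _ : Algebra (ZMod p) (IsLocalRing.ResidueField W) := ZMod.algebra _ p
  set v := IsLocalRing.residue W u with hv
  have hv0 : v ≠ 0 := by
    rw [hv, Ne, IsLocalRing.residue_eq_zero_iff, IsLocalRing.mem_maximalIdeal]
    exact fun h => h hu
  have halg : IsAlgebraic (ZMod p) v := by
    obtain ⟨f, hf, j, hj⟩ := exists_poly_not_dvd hp (u : Qbar)
    have hf1 := aeval_val W u f hf
    refine ⟨f.map (Int.castRingHom (ZMod p)), ?_, ?_⟩
    · intro h
      have h1 := congrArg (fun q => q.coeff j) h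
      simp only [Polynomial.coeff_map, Polynomial.coeff_zero, eq_intCast] at h1
      exact hj ((ZMod.intCast_zmod_eq_zero_iff_dvd _ _).mp h1)
    · have h1 := congrArg (IsLocalRing.residue W) hf1
      rw [map_zero] at h1
      rw [← h1, Polynomial.aeval_def, Polynomial.eval₂_map, Polynomial.aeval_def,
        Polynomial.hom_eval₂]
      congr 1
      exact RingHom.ext_int _ _
  obtain ⟨K, hK, hvK⟩ : ∃ K : ℕ, 0 < K ∧ v ^ K = 1 := by
    have hint : IsIntegral (ZMod p) v := halg.isIntegral
    have : FiniteDimensional (ZMod p) (IntermediateField.adjoin (ZMod p) {v}) :=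
      IntermediateField.adjoin.finiteDimensional hint
    have : Finite (IntermediateField.adjoin (ZMod p) {v}) := Module.finite_of_finite (ZMod p)
    have hg0 : IntermediateField.AdjoinSimple.gen (ZMod p) v ≠ 0 := by
      intro h
      have h1 := congrArg (algebraMap _ (IsLocalRing.ResidueField W)) h
      rw [IntermediateField.AdjoinSimple.algebraMap_gen, map_zero] at h1
      exact hv0 h1
    have h2 := isOfFinOrder_of_finite (Units.mk0 _ hg0)
    obtain ⟨K, hK, h3⟩ := isOfFinOrder_iff_pow_eq_one.mp h2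
    refine ⟨K, hK, ?_⟩
    have h4 := congrArg Units.val h3
    rw [Units.val_pow_eq_pow_val, Units.val_mk0, Units.val_one] at h4
    have h5 := congrArg (algebraMap _ (IsLocalRing.ResidueField W)) h4
    rwa [map_pow, IntermediateField.AdjoinSimple.algebraMap_gen, map_one] at h5
  have hy : u ^ K - 1 ∈ IsLocalRing.maximalIdeal W := by
    rw [← IsLocalRing.residue_eq_zero_iff, map_sub, map_pow, map_one, ← hv, hvK, sub_self]
  obtain ⟨r, c, hr⟩ := exists_dvd_pow W hp hpW hy
  obtain ⟨M, hM, Z, hZ⟩ := exists_pow_eq (R := W) hp (Y := u ^ K - 1) (W0 := c) (m := r)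
    (by rw [hr, nsmul_eq_mul])
  refine ⟨K * M, Nat.mul_pos hK hM, Z, ?_⟩
  rw [pow_mul]
  have : (1 : W) + (u ^ K - 1) = u ^ K := by ring
  rw [this] at hZ
  rw [hZ, nsmul_eq_mul]
  push_cast
  ring

/-- A valuation ring dominating a given local situation
(`Ideal.image_subset_nonunits_valuationSubring`). -/
theorem exists_dominating (R : Subalgebra ℤ Qbar) (J : Ideal R) (hJ : J ≠ ⊤) :
    ∃ V : ValuationSubring Qbar, (∀ x ∈ R, x ∈ V) ∧ ∀ x : R, x ∈ J → (x : Qbar) ∈ V.nonunits := by
  obtain ⟨B, h1, h2⟩ := Ideal.image_subset_nonunits_valuationSubring (A := R.toSubring) J hJ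
  exact ⟨B, fun x hx => h1 hx, fun x hx => h2 ⟨x, hx, rfl⟩⟩

end Pool.Agent.Lib.MP_8f66f0_al_Plus
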