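import Mathlib
import Pool.Agent.Lib.MP_8f66f0_al_Dennis.Cofinite
import Pool.Agent.Lib.MP_8f66f0_al_Dennis.Exact
import Pool.Agent.Lib.MP_8f66f0_al_Dennis.Linear
import Pool.Agent.Lib.MP_8f66f0_al_Plus.Val


/-! Reduction to representations over valuation rings of the algebraic numbers. -/

set_option autoImplicit false
set_option linter.unusedSectionVars false

namespace Pool.Agent.Lib.MP_8f66f0_al_Plus

open Pool.Agent.Lib.MP_8f66f0_al_Dennis Pool.Agent.Lib.MP_8f66f0_al_FinQ

/-- A representation of a finitely generated group over a field is defined over a finitely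
generated subring. -/
lemma exists_model {F : Type*} [Field F] {m : ℕ} {G : Type*} [Group G] [Group.FG G]
    (ρ : G →* Matrix.GeneralLinearGroup (Fin m) F) :
    ∃ (T : Finset F) (ρ' : G →* Matrix.GeneralLinearGroup (Fin m) (Algebra.adjoin ℤ (T : Set F))),
      (Matrix.GeneralLinearGroup.map (algebraMap (Algebra.adjoin ℤ (T : Set F)) F)).comp ρ' = ρ := by
  classical
  obtain ⟨S, hS⟩ := (Group.fg_def.mp ‹Group.FG G›)
  set T : Finset F := (S ×ˢ (Finset.univ : Finset (Fin m × Fin m))).biUnion fun x =>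
    {(ρ x.1 : Matrix (Fin m) (Fin m) F) x.2.1 x.2.2,
      ((ρ x.1)⁻¹ : Matrix.GeneralLinearGroup (Fin m) F) x.2.1 x.2.2} with hT
  set R : Subalgebra ℤ F := Algebra.adjoin ℤ (T : Set F) with hR
  set ι : R →+* F := algebraMap R F with hι
  have hιinj : Function.Injective ι := Subtype.val_injective
  set μ : Matrix.GeneralLinearGroup (Fin m) R →* Matrix.GeneralLinearGroup (Fin m) F :=
    Matrix.GeneralLinearGroup.map ι with hμ
  have hμinj : Function.Injective μ := by
    intro a b hab
    apply Units.ext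
    ext i j
    have h1 := congrArg (fun u : Matrix.GeneralLinearGroup (Fin m) F =>
      (u : Matrix (Fin m) (Fin m) F) i j) hab
    exact h1
  have hrange : ∀ g : G, ρ g ∈ μ.range := by
    have hle : Subgroup.closure (S : Set G) ≤ μ.range.comap ρ := by
      rw [Subgroup.closure_le]
      intro s hs
      have hmem : ∀ i j, (ρ s : Matrix (Fin m) (Fin m) F) i j ∈ R := by
        intro i j
        apply Algebra.subset_adjoin
        rw [hT, Finset.mem_coe, Finset.mem_biUnion]
        exact ⟨(s, (i, j)), Finset.mem_product.mpr ⟨hs, Finset.mem_univ _⟩, by simp⟩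
      have hmem' : ∀ i j, ((ρ s)⁻¹ : Matrix.GeneralLinearGroup (Fin m) F) i j ∈ R := by
        intro i j
        apply Algebra.subset_adjoin
        rw [hT, Finset.mem_coe, Finset.mem_biUnion]
        exact ⟨(s, (i, j)), Finset.mem_product.mpr ⟨hs, Finset.mem_univ _⟩, by simp⟩
      set M : Matrix (Fin m) (Fin m) R := Matrix.of fun i j => ⟨_, hmem i j⟩ with hM
      set M' : Matrix (Fin m) (Fin m) R := Matrix.of fun i j => ⟨_, hmem' i j⟩ with hM'
      have hMm : M.map ι = (ρ s : Matrix (Fin m) (Fin m) F) := rfl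
      have hMm' : M'.map ι = ((ρ s)⁻¹ : Matrix.GeneralLinearGroup (Fin m) F) := rfl
      have h1 : M * M' = 1 := by
        apply Matrix.map_injective hιinj
        change (M * M').map ι = (1 : Matrix (Fin m) (Fin m) R).map ι
        rw [Matrix.map_mul, hMm, hMm', Matrix.map_one _ (map_zero _) (map_one _), ← Units.val_mul,
          mul_inv_cancel, Units.val_one]
      have h2 : M' * M = 1 := by
        apply Matrix.map_injective hιinj
        change (M' * M).map ι = (1 : Matrix (Fin m) (Fin m) R).map ι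
        rw [Matrix.map_mul, hMm, hMm', Matrix.map_one _ (map_zero _) (map_one _), ← Units.val_mul,
          inv_mul_cancel, Units.val_one]
      refine ⟨⟨M, M', h1, h2⟩, ?_⟩
      apply Units.ext
      rfl
    intro g
    have : g ∈ Subgroup.closure (S : Set G) := by rw [hS]; trivial
    exact hle this
  refine ⟨T, ((MonoidHom.ofInjective hμinj).symm.toMonoidHom).comp
    (ρ.codRestrict μ.range hrange), ?_⟩
  ext g : 1
  have h1 := (MonoidHom.ofInjective hμinj).apply_symm_apply
    ((ρ.codRestrict μ.range hrange) g)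
  exact congrArg Subtype.val h1

/-- The valuation ring above a ring of algebraic numbers and its representations. -/
lemma exists_valuation_aux {Γ : Type*} [Group Γ] {k : ℕ} (R : Subalgebra ℤ Qbar)
    [IsNoetherianRing R] (ρ : Γ →* Matrix.GeneralLinearGroup (Fin k) R) {p : ℕ} (hp : p.Prime)
    (J : Ideal R) (hJ : J ≠ ⊤) (hpJ : ((p : ℕ) : R) ∈ J) (hfin : Finite (R ⧸ J)) :
    ∃ (V : ValuationSubring Qbar) (hV : ∀ x ∈ R, x ∈ V), ¬ IsUnit ((p : ℕ) : V) ∧
      ∀ t : ℕ, ∃ N : Subgroup Γ, N.Normal ∧ N.FiniteIndex ∧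
        ∀ x ∈ N, ∀ i j, (p : V) ^ t ∣
          (⟨(((ρ x : Matrix (Fin k) (Fin k) R) - 1) i j : Qbar),
            hV _ (((ρ x : Matrix (Fin k) (Fin k) R) - 1) i j).2⟩ : V) := by
  classical
  obtain ⟨V, hV, hJV⟩ := exists_dominating R J hJ
  -- the inclusion
  let inc : R →+* V :=
    { toFun := fun x => ⟨(x : Qbar), hV _ x.2⟩
      map_one' := rfl
      map_mul' := fun _ _ => rfl
      map_zero' := rfl
      map_add' := fun _ _ => rfl }
  have hmax : ∀ x ∈ J, inc x ∈ IsLocalRing.maximalIdeal V := by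
    intro x hx
    have h1 := hJV x hx
    rw [ValuationSubring.mem_nonunits_iff_exists_mem_maximalIdeal] at h1
    obtain ⟨_, h2⟩ := h1
    exact h2
  have hpnu : ¬ IsUnit ((p : ℕ) : V) := by
    have h1 := hmax _ hpJ
    rw [map_natCast] at h1
    exact (IsLocalRing.mem_maximalIdeal _).1 h1
  refine ⟨V, hV, hpnu, fun t => ?_⟩
  -- powers
  set I : Ideal R := (Ideal.span {(p : V)}).comap inc with hI
  have hrad : J ≤ I.radical := by
    intro x hx
    obtain ⟨r, hr⟩ := exists_dvd_pow V hp hpnu (hmax x hx)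
    refine ⟨r, ?_⟩
    rw [hI, Ideal.mem_comap, map_pow, Ideal.mem_span_singleton]
    exact hr
  obtain ⟨r, hr⟩ := Ideal.exists_pow_le_of_le_radical_of_fg hrad (IsNoetherian.noetherian J)
  have hJt : ∀ x ∈ J ^ (r * t), (p : V) ^ t ∣ inc x := by
    intro x hx
    have h1 : J ^ (r * t) ≤ (Ideal.span {(p : V) ^ t}).comap inc := by
      rw [pow_mul]
      refine (Ideal.pow_right_mono hr t).trans ?_
      rw [← Ideal.span_singleton_pow, hI]
      exact Ideal.le_comap_pow _ _
    have h2 := h1 hx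
    rwa [Ideal.mem_comap, Ideal.mem_span_singleton] at h2
  have hfinq : Finite (R ⧸ J ^ (r * t)) :=
    Ideal.finite_quotient_pow (IsNoetherian.noetherian J) _
  set F : Γ →* Matrix.GeneralLinearGroup (Fin k) (R ⧸ J ^ (r * t)) :=
    (Matrix.GeneralLinearGroup.map (Ideal.Quotient.mk (J ^ (r * t)))).comp ρ with hF
  have hGLfin : Finite (Matrix.GeneralLinearGroup (Fin k) (R ⧸ J ^ (r * t))) := by
    have : Finite (Matrix (Fin k) (Fin k) (R ⧸ J ^ (r * t))) := Pi.finite
    exact Finite.of_injective (fun u : Matrix.GeneralLinearGroup (Fin k) (R ⧸ J ^ (r * t)) =>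
      u.val) Units.val_injective
  refine ⟨F.ker, inferInstance, ?_, fun x hx i j => ?_⟩
  · infer_instance
  · have h1 : Matrix.GeneralLinearGroup.map (Ideal.Quotient.mk (J ^ (r * t))) (ρ x) = 1 := hx
    rw [Pool.Agent.Lib.MP_8f66f0_al_Dennis.map_eq_one_iff] at h1
    exact hJt _ (h1 i j)

/-- A finitely generated ring of algebraic numbers has a valuation ring of `Qbar` above it, such
that its representations are trivial modulo powers of `p` on subgroups of finite index. -/
lemma exists_valuation {Γ : Type*} [Group Γ] {k : ℕ} (T : Finset Qbar)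
    (ρ : Γ →* Matrix.GeneralLinearGroup (Fin k) (Algebra.adjoin ℤ (T : Set Qbar))) :
    ∃ (p : ℕ) (V : ValuationSubring Qbar) (hV : ∀ x ∈ Algebra.adjoin ℤ (T : Set Qbar), x ∈ V),
      p.Prime ∧ p ≠ 2 ∧ ¬ IsUnit ((p : ℕ) : V) ∧
      ∀ t : ℕ, ∃ N : Subgroup Γ, N.Normal ∧ N.FiniteIndex ∧
        ∀ x ∈ N, ∀ i j, (p : V) ^ t ∣
          (⟨(((ρ x : Matrix (Fin k) (Fin k) (Algebra.adjoin ℤ (T : Set Qbar))) - 1) i j : Qbar),
            hV _ (((ρ x : Matrix (Fin k) (Fin k) (Algebra.adjoin ℤ (T : Set Qbar))) - 1) i j).2⟩ :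
            V) := by
  obtain ⟨N₀, hN₀⟩ := residue_chars_cofinite T
  obtain ⟨p, hp1, hp⟩ := Nat.exists_infinite_primes (max N₀ 2 + 1)
  obtain ⟨J, hJ, hpJ, hfin⟩ := hN₀ p hp (by omega)
  have hft : Algebra.FiniteType ℤ (Algebra.adjoin ℤ (T : Set Qbar)) :=
    (Subalgebra.fg_iff_finiteType _).mp (Subalgebra.fg_adjoin_finset T)
  have hnoeth : IsNoetherianRing (Algebra.adjoin ℤ (T : Set Qbar)) :=
    Algebra.FiniteType.isNoetherianRing ℤ _
  obtain ⟨V, hV, h1, h2⟩ := exists_valuation_aux (Algebra.adjoin ℤ (T : Set Qbar)) ρ hp J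
    hJ.ne_top hpJ hfin
  exact ⟨p, V, hV, hp, by omega, h1, h2⟩

/-- From the specialized representation back to the generic one. -/
lemma descend.{u, v} {Γ : Type u} [Group Γ] {n : ℕ}
    {A : Matrix (Fin n) (Fin n) (MonoidAlgebra ℤ Γ)} {γ : Γ}
    (hγ : ∀ (E : Type v) [Field E] [CharZero E] (k : ℕ)
      (ρ : Γ →* Matrix.GeneralLinearGroup (Fin k) E),
      IsAlgebraic ℚ ((repMatrix ρ A).det / (ρ γ : Matrix (Fin k) (Fin k) E).det))
    {R : Type v} [CommRing R] [IsDomain R] [CharZero R] (s : R →+* Qbar) {k : ℕ}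
    (ρ' : Γ →* Matrix.GeneralLinearGroup (Fin k) R) (L : ℕ)
    (h3 : (repMatrix ((Matrix.GeneralLinearGroup.map s).comp ρ') A).det ^ L =
      (((Matrix.GeneralLinearGroup.map s).comp ρ') γ : Matrix (Fin k) (Fin k) Qbar).det ^ L) :
    (repMatrix ρ' A).det ^ L = (ρ' γ : Matrix (Fin k) (Fin k) R).det ^ L := by
  set δ : R := (ρ' γ : Matrix (Fin k) (Fin k) R).det with hδ
  set δ' : R := (ρ' γ⁻¹ : Matrix (Fin k) (Fin k) R).det with hδ'
  have hδδ' : δ * δ' = 1 := by
    rw [hδ, hδ', ← Matrix.det_mul, ← Units.val_mul, ← map_mul, mul_inv_cancel, map_one,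
      Units.val_one, Matrix.det_one]
  set u : R := (repMatrix ρ' A).det * δ' with hu
  have hsρ : s (repMatrix ρ' A).det =
      (repMatrix ((Matrix.GeneralLinearGroup.map s).comp ρ') A).det := by
    rw [← repMatrix_map, RingHom.map_det]
    rfl
  have hsδ : s δ = (((Matrix.GeneralLinearGroup.map s).comp ρ') γ :
      Matrix (Fin k) (Fin k) Qbar).det := by
    rw [hδ, RingHom.map_det]
    rfl
  have hsu : s (u ^ L) = ((1 : ℤ) : Qbar) := by
    have h4 : s δ * s δ' = 1 := by rw [← map_mul, hδδ', map_one]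
    rw [hu, map_pow, map_mul, mul_pow, hsρ, h3, ← hsδ, ← mul_pow, h4, one_pow, Int.cast_one]
  have hcharF : CharZero (FractionRing R) :=
    charZero_of_injective_algebraMap (IsFractionRing.injective R (FractionRing R))
  set j := algebraMap R (FractionRing R) with hj
  have halg : IsAlgebraic ℚ (j u) := by
    have halg0 := hγ (FractionRing R) k ((Matrix.GeneralLinearGroup.map j).comp ρ')
    have e1 : (repMatrix ((Matrix.GeneralLinearGroup.map j).comp ρ') A).det =
        j (repMatrix ρ' A).det := by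
      rw [← repMatrix_map, RingHom.map_det]; rfl
    have e2 : ((((Matrix.GeneralLinearGroup.map j).comp ρ') γ : Matrix.GeneralLinearGroup (Fin k)
        (FractionRing R)) : Matrix (Fin k) (Fin k) (FractionRing R)).det = j δ := by
      rw [hδ, RingHom.map_det]; rfl
    rw [e1, e2] at halg0
    have e3 : j (repMatrix ρ' A).det / j δ = j u := by
      have h0 : j δ * j δ' = 1 := by rw [← map_mul, hδδ', map_one]
      have hne : j δ ≠ 0 := left_ne_zero_of_mul_eq_one h0
      rw [hu, map_mul, div_eq_iff hne, mul_assoc, mul_comm (j δ'), h0, mul_one]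
    rwa [e3] at halg0
  have h5 : u ^ L = 1 := by
    have h6 := eq_of_specialize s 1 hsu (by rw [map_pow]; exact halg.pow L)
    rwa [Int.cast_one] at h6
  have h7 : (repMatrix ρ' A).det = u * δ := by
    rw [hu, mul_assoc, mul_comm δ', hδδ', mul_one]
  rw [h7, mul_pow, h5, one_mul]

/-- Reduction to valuation rings. Let `Γ` be finitely generated and let `ρ` be a representation
over a field of characteristic zero. `ρ` is defined over a finitely generated ring `R ⊆ E`
(`exists_fg_ring'` in Dennis/Separated.lean, applied to the image of `Γ`, or directly: adjoin the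
entries of the images of generators and their inverses). There is a ring homomorphism
`s : R → Qbar` (a maximal ideal of the finitely generated `ℚ`-algebra `R[1/ℤ]`, residue field
finite over `ℚ`). Let `R' = s(R)`, generated by a finite set; by `residue_chars_cofinite`
(Dennis/Cofinite.lean) there is an odd prime `p` and an ideal `J ≠ ⊤` of `R'` containing `p` with
finite quotient; take `V` from `exists_dominating`. For each `t` some power `J ^ r` is contained in
`p ^ t V` (`exists_dvd_pow` for generators of `J`), and `R' ⧸ J ^ r` is finite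
(`Ideal.finite_quotient_pow`), so the kernel of `Γ → GL_k(R' ⧸ J ^ r)` is the required subgroup.
If `det ρ_s(A) ^ K = det ρ_s(γ) ^ K` for the specialized representation then, as
`det ρ(A) / det ρ(γ)` is algebraic (`hγ`), `eq_of_specialize` (Dennis/Exact.lean) gives
`det ρ(A) ^ K = det ρ(γ) ^ K`. -/
theorem reduction.{u, v} {Γ : Type u} [Group Γ] [Group.FG Γ] {n : ℕ}
    {A B : Matrix (Fin n) (Fin n) (MonoidAlgebra ℤ Γ)} (hAB : A * B = 1) {γ : Γ}
    (hγ : ∀ (E : Type v) [Field E] [CharZero E] (k : ℕ)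
      (ρ : Γ →* Matrix.GeneralLinearGroup (Fin k) E),
      IsAlgebraic ℚ ((repMatrix ρ A).det / (ρ γ : Matrix (Fin k) (Fin k) E).det))
    (hloc : ∀ (p : ℕ) (V : ValuationSubring Qbar) (k : ℕ) (ρ : Γ →* Matrix (Fin k) (Fin k) V),
      p.Prime → p ≠ 2 → ¬ IsUnit ((p : ℕ) : V) →
      (∀ t : ℕ, ∃ N : Subgroup Γ, N.Normal ∧ N.FiniteIndex ∧ TrivMod ρ N ((p : V) ^ t)) →
      ∃ K : ℕ, 0 < K ∧ (mapRep ρ A).det ^ K = (ρ γ).det ^ K)
    (E : Type v) [Field E] [CharZero E] (k : ℕ)
    (ρ : Γ →* Matrix.GeneralLinearGroup (Fin k) E) :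
    ∃ K : ℕ, 0 < K ∧ (repMatrix ρ A).det ^ K = (ρ γ : Matrix (Fin k) (Fin k) E).det ^ K := by
  classical
  -- the finitely generated ring
  obtain ⟨T, ρ', hρ'⟩ := exists_model ρ
  have hchR : CharZero (Algebra.adjoin ℤ (T : Set E)) := by
    apply charZero_of_injective_algebraMap (R := ℤ)
    intro a b hab
    have h1 := congrArg (algebraMap (Algebra.adjoin ℤ (T : Set E)) E) hab
    simpa using h1
  -- specialization
  obtain ⟨K, fK, aK, finK, ⟨φ⟩⟩ := exists_number_field_point T
  have algK : Algebra.IsAlgebraic ℚ K := Algebra.IsAlgebraic.of_finite ℚ K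
  let s : Algebra.adjoin ℤ (T : Set E) →+* Qbar :=
    ((IsAlgClosed.lift (R := ℚ) (S := K) (M := Qbar)) : K →+* Qbar).comp φ
  obtain ⟨T₂, ρ₂, hρ₂⟩ := exists_model ((Matrix.GeneralLinearGroup.map s).comp ρ')
  obtain ⟨p, V, hV, hp, hp2, hpV, ht⟩ := exists_valuation T₂ ρ₂
  let inc : Algebra.adjoin ℤ (T₂ : Set Qbar) →+* V :=
    { toFun := fun x => ⟨(x : Qbar), hV _ x.2⟩
      map_one' := rfl
      map_mul' := fun _ _ => rfl
      map_zero' := rfl
      map_add' := fun _ _ => rfl }
  set ρV : Γ →* Matrix (Fin k) (Fin k) V :=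
    (Units.coeHom _).comp ((Matrix.GeneralLinearGroup.map inc).comp ρ₂) with hρV
  obtain ⟨L, hL0, hL⟩ := hloc p V k ρV hp hp2 hpV (by
    intro t
    obtain ⟨N, h1, h2, h3⟩ := ht t
    refine ⟨N, h1, h2, fun x hx i j => ?_⟩
    have h4 := h3 x hx i j
    convert h4 using 1
    apply Subtype.ext
    have e1 : ((1 : Matrix (Fin k) (Fin k) V) i j : Qbar) =
        ((1 : Matrix (Fin k) (Fin k) (Algebra.adjoin ℤ (T₂ : Set Qbar))) i j : Qbar) := by
      rw [Matrix.one_apply, Matrix.one_apply]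
      split_ifs <;> rfl
    change ((ρ₂ x i j : Algebra.adjoin ℤ (T₂ : Set Qbar)) : Qbar) -
        ((1 : Matrix (Fin k) (Fin k) V) i j : Qbar) =
      ((ρ₂ x i j : Algebra.adjoin ℤ (T₂ : Set Qbar)) : Qbar) -
        ((1 : Matrix (Fin k) (Fin k) (Algebra.adjoin ℤ (T₂ : Set Qbar))) i j : Qbar)
    rw [e1])
  refine ⟨L, hL0, ?_⟩
  -- back to `Qbar`
  have hcomp : (V.subtype.mapMatrix : Matrix (Fin k) (Fin k) V →+* Matrix (Fin k) (Fin k)
      Qbar).toMonoidHom.comp ρV =
      (Units.coeHom _).comp ((Matrix.GeneralLinearGroup.map s).comp ρ') := by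
    rw [← hρ₂]
    rfl
  have h1 : V.subtype (mapRep ρV A).det =
      (repMatrix ((Matrix.GeneralLinearGroup.map s).comp ρ') A).det := by
    rw [RingHom.map_det, repMatrix_eq_mapRep, ← hcomp, ← mapRep_map]
    rfl
  have h2 : V.subtype (ρV γ).det =
      (((Matrix.GeneralLinearGroup.map s).comp ρ') γ : Matrix (Fin k) (Fin k) Qbar).det := by
    rw [RingHom.map_det]
    congr 1
    exact DFunLike.congr_fun hcomp γ
  have h3 : (repMatrix ((Matrix.GeneralLinearGroup.map s).comp ρ') A).det ^ L =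
      (((Matrix.GeneralLinearGroup.map s).comp ρ') γ : Matrix (Fin k) (Fin k) Qbar).det ^ L := by
    rw [← h1, ← h2, ← map_pow, ← map_pow, hL]
  have h6 := descend hγ s ρ' L h3
  have h7 : algebraMap (Algebra.adjoin ℤ (T : Set E)) E (repMatrix ρ' A).det =
      (repMatrix ρ A).det := by
    rw [← hρ', ← repMatrix_map, RingHom.map_det]
    rfl
  have h8 : algebraMap (Algebra.adjoin ℤ (T : Set E)) E
      (ρ' γ : Matrix (Fin k) (Fin k) (Algebra.adjoin ℤ (T : Set E))).det =
      (ρ γ : Matrix (Fin k) (Fin k) E).det := by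
    rw [← hρ', RingHom.map_det]
    rfl
  rw [← h7, ← h8, ← map_pow, ← map_pow, h6]

end Pool.Agent.Lib.MP_8f66f0_al_Plus
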