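import Mathlib
import Pool.Agent.Lib.MP_8f66f0_al_Dennis.Exact
import Pool.Agent.Lib.MP_8f66f0_al_Plus.Spec


/-! One-dimensional representations. -/

set_option autoImplicit false
set_option linter.unusedSectionVars false

namespace Pool.Agent.Lib.MP_8f66f0_al_Plus

open Pool.Agent.Lib.MP_8f66f0_al_Dennis Pool.Agent.Lib.MP_8f66f0_al_FinQ

section scal

variable {Γ : Type*} [Group Γ] {S S' : Type*} [CommRing S] [CommRing S']

/-- The representation by matrices of size one given by a homomorphism to a ring. -/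
noncomputable def sc1 (φ : Γ →* S) : Γ →* Matrix (Fin 1) (Fin 1) S :=
  ((Matrix.scalar (Fin 1) : S →+* Matrix (Fin 1) (Fin 1) S) : S →* Matrix (Fin 1) (Fin 1) S).comp φ

lemma sc1_apply (φ : Γ →* S) (g : Γ) (i j : Fin 1) : sc1 φ g i j = φ g := by
  rw [Subsingleton.elim i j]
  simp [sc1]

lemma det_sc1 (φ : Γ →* S) (g : Γ) : (sc1 φ g).det = φ g := by
  rw [Matrix.det_fin_one, sc1_apply]

lemma map_det_sc1 {n : ℕ} (s : S →+* S') (φ : Γ →* S)
    (A : Matrix (Fin n) (Fin n) (MonoidAlgebra ℤ Γ)) :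
    s (mapRep (sc1 φ) A).det = (mapRep (sc1 ((s : S →* S').comp φ)) A).det := by
  rw [RingHom.map_det]
  change ((mapRep (sc1 φ) A).map s).det = _
  rw [mapRep_map]
  congr 2
  ext g i j
  rw [sc1_apply]
  change s (sc1 φ g i j) = s (φ g)
  rw [sc1_apply]

end scal

/-- The core: a homomorphism to a product of a free abelian group and a finite group. -/
theorem one_dim_core {Γ : Type*} [Group Γ] {n : ℕ}
    {A : Matrix (Fin n) (Fin n) (MonoidAlgebra ℤ Γ)} {γ : Γ}
    (hγ : ∀ (E : Type) [Field E] [CharZero E] (k : ℕ)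
      (ρ : Γ →* Matrix.GeneralLinearGroup (Fin k) E),
      IsAlgebraic ℚ ((repMatrix ρ A).det / (ρ γ : Matrix (Fin k) (Fin k) E).det))
    (hT : ∀ ψ : Γ →* Matrix (Fin 1) (Fin 1) Qbar, (Set.range ψ).Finite →
      ∃ K : ℕ, 0 < K ∧ (mapRep ψ A).det ^ K = 1)
    (j F : Type) [Fintype j] [CommGroup F] [Finite F] (v : Γ →* (j → Multiplicative ℤ))
    (τ : Γ →* F) (t : (j → Multiplicative ℤ) →* Qbar) (c : F →* Qbar) :
    ∃ K : ℕ, 0 < K ∧ (mapRep (sc1 ((t.comp v) * (c.comp τ))) A).det ^ K =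
      ((t.comp v) * (c.comp τ)) γ ^ K := by
  classical
  set R := MonoidAlgebra Qbar (j → Multiplicative ℤ) with hR
  have hinj : Function.Injective (algebraMap Qbar R) := (algebraMap Qbar R).injective
  have hcR : CharZero R := charZero_of_injective_algebraMap hinj
  have hcF : CharZero (FractionRing R) :=
    charZero_of_injective_algebraMap (IsFractionRing.injective R (FractionRing R))
  set ι : R →+* FractionRing R := algebraMap R (FractionRing R) with hι
  -- the universal homomorphism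
  let φ : Γ →* R :=
    { toFun := fun g => MonoidAlgebra.single (v g) (c (τ g))
      map_one' := by rw [map_one, map_one, map_one]; rfl
      map_mul' := fun g h => by
        rw [map_mul, map_mul, map_mul, MonoidAlgebra.single_mul_single] }
  -- specializations
  let sp : ((j → Multiplicative ℤ) →* Qbar) → (R →+* Qbar) := fun u =>
    ((MonoidAlgebra.lift Qbar Qbar (j → Multiplicative ℤ) u : R →ₐ[Qbar] Qbar) : R →+* Qbar)
  have hsp : ∀ u : (j → Multiplicative ℤ) →* Qbar,
      ((sp u : R →+* Qbar) : R →* Qbar).comp φ = (u.comp v) * (c.comp τ) := by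
    intro u
    ext g
    change (MonoidAlgebra.lift Qbar Qbar (j → Multiplicative ℤ) u)
      (MonoidAlgebra.single (v g) (c (τ g))) = u (v g) * c (τ g)
    rw [MonoidAlgebra.lift_single, smul_eq_mul, mul_comm]
  -- the ratio
  set w : R := (mapRep (sc1 φ) A).det * φ γ⁻¹ with hw
  have hφγ : φ γ * φ γ⁻¹ = 1 := by rw [← map_mul, mul_inv_cancel, map_one]
  have halg : IsAlgebraic ℚ (ι w) := by
    set φ' : Γ →* FractionRing R := (ι : R →* FractionRing R).comp φ with hφ'
    have h1 := hγ (FractionRing R) 1 ((sc1 φ').toHomUnits)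
    have h2 : ((Units.coeHom (Matrix (Fin 1) (Fin 1) (FractionRing R))).comp
        (sc1 φ').toHomUnits) = sc1 φ' := by
      ext g : 1
      rfl
    rw [repMatrix_eq_mapRep] at h1
    have h3 : (mapRep ((Units.coeHom (Matrix (Fin 1) (Fin 1) (FractionRing R))).comp
        (sc1 φ').toHomUnits) A).det = ι (mapRep (sc1 φ) A).det := by
      rw [h2, map_det_sc1]
    have h4 : (((sc1 φ').toHomUnits γ : Matrix.GeneralLinearGroup (Fin 1) (FractionRing R)) :
        Matrix (Fin 1) (Fin 1) (FractionRing R)).det = ι (φ γ) := by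
      change (sc1 φ' γ).det = _
      rw [det_sc1]
      rfl
    rw [h3, h4] at h1
    have h5 : ι (mapRep (sc1 φ) A).det / ι (φ γ) = ι w := by
      have h6 : ι (φ γ) * ι (φ γ⁻¹) = 1 := by rw [← map_mul, hφγ, map_one]
      have hne : ι (φ γ) ≠ 0 := left_ne_zero_of_mul_eq_one h6
      rw [hw, map_mul, div_eq_iff hne, mul_assoc, mul_comm (ι (φ γ⁻¹)), h6, mul_one]
    rwa [h5] at h1
  -- the value of the specializations
  have hval : ∀ u : (j → Multiplicative ℤ) →* Qbar,
      sp u w = (mapRep (sc1 ((u.comp v) * (c.comp τ))) A).det *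
        ((u.comp v) * (c.comp τ)) γ⁻¹ := by
    intro u
    rw [hw, map_mul, map_det_sc1, hsp u]
    congr 1
    exact DFunLike.congr_fun (hsp u) γ⁻¹
  -- the trivial specialization
  have hone : ((1 : (j → Multiplicative ℤ) →* Qbar).comp v) * (c.comp τ) = c.comp τ := by
    ext g
    simp
  have hfin : (Set.range (sc1 (c.comp τ))).Finite := by
    have h1 : (Set.range (fun x : F => (Matrix.scalar (Fin 1) (c x) : Matrix (Fin 1) (Fin 1) Qbar))).Finite :=
      Set.finite_range _
    refine h1.subset ?_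
    rintro _ ⟨g, rfl⟩
    exact ⟨τ g, rfl⟩
  obtain ⟨K0, hK0, hK0'⟩ := hT (sc1 (c.comp τ)) hfin
  have hcard : 0 < Nat.card F := Nat.card_pos
  have hcγ : (c.comp τ) γ⁻¹ ^ Nat.card F = 1 := by
    rw [MonoidHom.comp_apply, ← map_pow, pow_card_eq_one', map_one]
  set K := K0 * Nat.card F with hK
  have hKpos : 0 < K := Nat.mul_pos hK0 hcard
  have hs1 : sp 1 (w ^ K) = ((1 : ℤ) : Qbar) := by
    rw [map_pow, hval 1, hone, mul_pow, hK, pow_mul, hK0', one_pow, one_mul, mul_comm K0, pow_mul,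
      hcγ, one_pow, Int.cast_one]
  have halgK : IsAlgebraic ℚ (algebraMap R (FractionRing R) (w ^ K)) := by
    rw [map_pow]
    exact halg.pow K
  have hwK : w ^ K = ((1 : ℤ) : R) := eq_of_specialize (sp 1) 1 hs1 halgK
  refine ⟨K, hKpos, ?_⟩
  have h7 := congrArg (sp t) hwK
  rw [map_pow, hval t, mul_pow] at h7
  simp only [Int.cast_one, map_one] at h7
  have h8 : ((t.comp v) * (c.comp τ)) γ⁻¹ ^ K * ((t.comp v) * (c.comp τ)) γ ^ K = 1 := by
    rw [← mul_pow, ← map_mul, inv_mul_cancel, map_one, one_pow]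
  calc (mapRep (sc1 ((t.comp v) * (c.comp τ))) A).det ^ K
      = (mapRep (sc1 ((t.comp v) * (c.comp τ))) A).det ^ K *
        (((t.comp v) * (c.comp τ)) γ⁻¹ ^ K * ((t.comp v) * (c.comp τ)) γ ^ K) := by
          rw [h8, mul_one]
    _ = ((t.comp v) * (c.comp τ)) γ ^ K := by
          rw [← mul_assoc, h7, one_mul]

/-- One-dimensional representations. The image of `χ` is a finitely generated subgroup of the
units, so `χ g = ζ(g) ∏ t_i ^ (v_i g)` with `ζ : Γ →* Qbarˣ` of finite order, `t_i` units and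
`v_i : Γ → ℤ` homomorphisms. Over the group ring `R` of the free abelian group over `Qbar`
consider `χ_x g = ζ(g) [v g]`; the element
`w = χ_x(A) / χ_x(γ)` of `R` (`χ_x(A)` is the determinant of the matrix over `R`) is algebraic
over the rationals by `hγ` for the fraction field of `R`; at the trivial point some power of it
is `1` by `hT`; by `eq_of_specialize` (Dennis/Exact.lean) that power of `w` is `1`; now specialize
to `χ`. -/
theorem one_dim {Γ : Type*} [Group Γ] [Group.FG Γ] {n : ℕ}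
    {A B : Matrix (Fin n) (Fin n) (MonoidAlgebra ℤ Γ)} (hAB : A * B = 1) {γ : Γ}
    (hγ : ∀ (E : Type) [Field E] [CharZero E] (k : ℕ)
      (ρ : Γ →* Matrix.GeneralLinearGroup (Fin k) E),
      IsAlgebraic ℚ ((repMatrix ρ A).det / (ρ γ : Matrix (Fin k) (Fin k) E).det))
    (hT : ∀ ψ : Γ →* Matrix (Fin 1) (Fin 1) Qbar, (Set.range ψ).Finite →
      ∃ K : ℕ, 0 < K ∧ (mapRep ψ A).det ^ K = 1)
    (χ : Γ →* Matrix (Fin 1) (Fin 1) Qbar) :
    ∃ K : ℕ, 0 < K ∧ (mapRep χ A).det ^ K = (χ γ 0 0) ^ K := by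
  classical
  -- the homomorphism to the units
  let χ0 : Γ →* Qbar :=
    { toFun := fun g => χ g 0 0
      map_one' := by rw [map_one, Matrix.one_apply_eq]
      map_mul' := fun g h => by rw [map_mul, Matrix.mul_apply, Fin.sum_univ_one] }
  set χu : Γ →* Qbarˣ := χ0.toHomUnits with hχu
  have hval : ∀ g, (χu g : Qbar) = χ g 0 0 := fun g => rfl
  have : Group.FG χu.range := Group.fg_range χu
  obtain ⟨ι, j, _, _, p, hp, e, ⟨Φ⟩⟩ :=
    CommGroup.equiv_free_prod_prod_multiplicative_zmod (χu.range : Type)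
  have hfin : Finite ((i : ι) → Multiplicative (ZMod (p i ^ e i))) := by
    have : ∀ i, NeZero (p i ^ e i) := fun i => ⟨pow_ne_zero _ (hp i).ne_zero⟩
    have h2 : ∀ i, Finite (Multiplicative (ZMod (p i ^ e i))) := fun i =>
      inferInstanceAs (Finite (ZMod (p i ^ e i)))
    exact Pi.finite
  set G1 := j → Multiplicative ℤ with hG1
  set F := (i : ι) → Multiplicative (ZMod (p i ^ e i)) with hF
  let P : Γ →* G1 × F := (Φ : χu.range →* G1 × F).comp χu.rangeRestrict
  let v : Γ →* G1 := (MonoidHom.fst G1 F).comp P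
  let τ : Γ →* F := (MonoidHom.snd G1 F).comp P
  let back : G1 × F →* Qbar :=
    (Units.coeHom Qbar).comp ((χu.range.subtype).comp (Φ.symm : G1 × F →* χu.range))
  let t : G1 →* Qbar := back.comp (MonoidHom.inl G1 F)
  let c : F →* Qbar := back.comp (MonoidHom.inr G1 F)
  have hχ : χ = sc1 ((t.comp v) * (c.comp τ)) := by
    ext g a b
    rw [sc1_apply, Subsingleton.elim a 0, Subsingleton.elim b 0, ← hval g]
    change ((χu g : Qbarˣ) : Qbar) = back ((P g).1, 1) * back (1, (P g).2)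
    rw [← map_mul, Prod.mk_mul_mk, mul_one, one_mul]
    change ((χu g : Qbarˣ) : Qbar) = ((Φ.symm (Φ (χu.rangeRestrict g)) : χu.range) : Qbarˣ)
    rw [MulEquiv.symm_apply_apply]
    rfl
  obtain ⟨K, hK, h⟩ := one_dim_core hγ hT j F v τ t c
  refine ⟨K, hK, ?_⟩
  have h2 : χ γ 0 0 = ((t.comp v) * (c.comp τ)) γ := by
    rw [hχ, sc1_apply]
  rw [h2, ← h, ← hχ]

end Pool.Agent.Lib.MP_8f66f0_al_Plus
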