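import Mathlib
import Pool.Agent.Lib.MP_8f66f0_al_FinQ.LemmaP
import Pool.Agent.Lib.MP_8f66f0_al_Plus.ReRep
import Pool.Agent.Lib.MP_8f66f0_al_Plus.Spec0

/-! Auxiliary lemmas for the localization at the identity. -/

set_option autoImplicit false
set_option linter.unusedSectionVars false

namespace Pool.Agent.Lib.MP_8f66f0_al_Plus

open Pool.Agent.Lib.MP_8f66f0_al_Dennis Pool.Agent.Lib.MP_8f66f0_al_FinQ

section characters

/-- Relations between characters give relations between determinants. -/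
lemma det_zpow_eq {Γ : Type*} [Group Γ] {O : Type*} [CommRing O] [IsDomain O] [CharZero O]
    {κ : Type*} [Fintype κ] [DecidableEq κ] (τ : Γ →* Matrix κ κ O) (a₀ : ℕ) {J : Type*}
    [Fintype J] {κ' : J → Type*} [∀ j, Fintype (κ' j)] [∀ j, DecidableEq (κ' j)]
    (σ : ∀ j, Γ →* Matrix (κ' j) (κ' j) O) (a : J → ℤ)
    (h : ∀ g, (a₀ : O) * (τ g).trace = ∑ j, (a j : O) * (σ j g).trace) {ι : Type*} [Fintype ι]
    [DecidableEq ι] {A B : Matrix ι ι (MonoidAlgebra ℤ Γ)} (hAB : A * B = 1) :
    (algebraMap O (FractionRing O) (mapRep τ A).det) ^ a₀ =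
      ∏ j, (algebraMap O (FractionRing O) (mapRep (σ j) A).det) ^ (a j) := by
  have hchar : CharZero (FractionRing O) :=
    charZero_of_injective_algebraMap (IsFractionRing.injective O (FractionRing O))
  set s := algebraMap O (FractionRing O) with hs
  set k : Option J → ℕ := fun x => x.elim (Fintype.card κ) fun j => Fintype.card (κ' j) with hk
  set θ : ∀ x : Option J, Γ →* Matrix (Fin (k x)) (Fin (k x)) (FractionRing O) := fun x =>
    match x with
    | none => (s.mapMatrix : Matrix _ _ O →+* Matrix _ _ (FractionRing O)).toMonoidHom.comp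
        (reRep (Fintype.equivFin κ) τ)
    | some j => (s.mapMatrix : Matrix _ _ O →+* Matrix _ _ (FractionRing O)).toMonoidHom.comp
        (reRep (Fintype.equivFin (κ' j)) (σ j)) with hθ
  have e0 : ∀ g, (θ none g).trace = s (τ g).trace := fun g => by
    rw [← trace_reRep (Fintype.equivFin κ) τ g]
    exact (AddMonoidHom.map_trace s.toAddMonoidHom _).symm
  have e1 : ∀ j g, (θ (some j) g).trace = s (σ j g).trace := fun j g => by
    rw [← trace_reRep (Fintype.equivFin (κ' j)) (σ j) g]
    exact (AddMonoidHom.map_trace s.toAddMonoidHom _).symm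
  have d0 : (mapRep (θ none) A).det = s (mapRep τ A).det := by
    rw [← det_reRep (Fintype.equivFin κ) τ A, RingHom.map_det]
    change _ = ((mapRep (reRep (Fintype.equivFin κ) τ) A).map s).det
    rw [mapRep_map]
    rfl
  have d1 : ∀ j, (mapRep (θ (some j)) A).det = s (mapRep (σ j) A).det := fun j => by
    rw [← det_reRep (Fintype.equivFin (κ' j)) (σ j) A, RingHom.map_det]
    change _ = ((mapRep (reRep (Fintype.equivFin (κ' j)) (σ j)) A).map s).det
    rw [mapRep_map]
    rfl
  have key := prod_det_mapRep θ (fun x => x.elim (-(a₀ : ℤ)) a) (by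
    intro g
    rw [Fintype.sum_option, e0, Finset.sum_congr rfl fun j _ => by rw [e1 j g]]
    have h1 := congrArg s (h g)
    rw [map_mul, map_natCast, map_sum] at h1
    change ((-(a₀ : ℤ) : ℤ) : FractionRing O) * _ + ∑ j, ((a j : ℤ) : FractionRing O) * _ = 0
    push_cast
    rw [neg_mul, h1, neg_add_eq_zero]
    refine Finset.sum_congr rfl fun j _ => ?_
    rw [map_mul, map_intCast]) hAB
  rw [Fintype.prod_option, d0, Finset.prod_congr rfl fun j _ => by rw [d1 j]] at key
  have hne : s (mapRep τ A).det ≠ 0 := ((isUnit_det_mapRep τ hAB).map s).ne_zero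
  change s (mapRep τ A).det ^ (-(a₀ : ℤ)) * ∏ j, s (mapRep (σ j) A).det ^ (a j) = 1 at key
  rw [zpow_neg, zpow_natCast, inv_mul_eq_one₀ (pow_ne_zero _ hne)] at key
  exact key

/-- Sums of characters give products of determinants. -/
lemma det_eq_prod {Γ : Type*} [Group Γ] {O : Type*} [CommRing O] [IsDomain O] [CharZero O]
    {κ : Type*} [Fintype κ] [DecidableEq κ] (τ : Γ →* Matrix κ κ O) {J : Type*}
    [Fintype J] {κ' : J → Type*} [∀ j, Fintype (κ' j)] [∀ j, DecidableEq (κ' j)]
    (σ : ∀ j, Γ →* Matrix (κ' j) (κ' j) O)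
    (h : ∀ g, (τ g).trace = ∑ j, (σ j g).trace) {ι : Type*} [Fintype ι]
    [DecidableEq ι] {A B : Matrix ι ι (MonoidAlgebra ℤ Γ)} (hAB : A * B = 1) :
    (mapRep τ A).det = ∏ j, (mapRep (σ j) A).det := by
  have h1 := det_zpow_eq τ 1 σ (fun _ => 1) (by
    intro g
    rw [Nat.cast_one, one_mul, h g]
    refine Finset.sum_congr rfl fun j _ => ?_
    rw [Int.cast_one, one_mul]) hAB
  simp only [pow_one, zpow_one] at h1
  rw [← map_prod] at h1
  exact IsFractionRing.injective O (FractionRing O) h1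

end characters

section upper

variable {Γ : Type*} [Group Γ] {O : Type*} [CommRing O] {ι : Type*} [Fintype ι] [DecidableEq ι]

/-- Upper triangular modulo `I`, by `d` steps. -/
def Up (I : Ideal O) (lev : ι → ℕ) (d : ℕ) (Y : Matrix ι ι (MonoidAlgebra O Γ)) : Prop :=
  ∀ i j g, (Y i j).coeff g ∉ I → lev i + d ≤ lev j

lemma Up.mul {I : Ideal O} {lev : ι → ℕ} {d e : ℕ} {Y Z : Matrix ι ι (MonoidAlgebra O Γ)}
    (hY : Up I lev d Y) (hZ : Up I lev e Z) : Up I lev (d + e) (Y * Z) := by
  intro i j g hg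
  by_contra hlt
  apply hg
  rw [Matrix.mul_apply, MonoidAlgebra.coeff_sum, Finsupp.finsetSum_apply]
  refine Ideal.sum_mem _ fun k _ => ?_
  rw [MonoidAlgebra.coeff_mul_apply_left, Finsupp.sum]
  refine Ideal.sum_mem _ fun h _ => ?_
  by_cases h1 : (Y i k).coeff h ∈ I
  · exact I.mul_mem_right _ h1
  · have h2 := hY i k h h1
    refine I.mul_mem_left _ ?_
    by_contra h3
    have h4 := hZ k j _ h3
    omega

lemma Up.one {I : Ideal O} {lev : ι → ℕ} : Up I lev 0 (1 : Matrix ι ι (MonoidAlgebra O Γ)) := by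
  intro i j g hg
  rw [Matrix.one_apply] at hg
  by_cases hij : i = j
  · rw [hij]; omega
  · rw [if_neg hij] at hg
    exact absurd I.zero_mem hg

lemma Up.pow {I : Ideal O} {lev : ι → ℕ} {Y : Matrix ι ι (MonoidAlgebra O Γ)}
    (hY : Up I lev 1 Y) (m : ℕ) : Up I lev m (Y ^ m) := by
  induction m with
  | zero => rw [pow_zero]; exact Up.one
  | succ m ih => rw [pow_succ]; exact ih.mul hY

lemma coeff_twHom {κ : Type*} [Fintype κ] [DecidableEq κ] (β : Γ →* Matrix κ κ O)
    (x : MonoidAlgebra ℤ Γ) (a b : κ) (g : Γ) :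
    (twHom β x a b).coeff g = (x.coeff g : O) * β g a b := by
  classical
  induction x using MonoidAlgebra.induction_linear with
  | zero => simp
  | add x y hx hy =>
    rw [map_add, Matrix.add_apply, MonoidAlgebra.coeff_add, Finsupp.add_apply, hx, hy,
      MonoidAlgebra.coeff_add, Finsupp.add_apply, Int.cast_add, add_mul]
  | single k m =>
    rw [twHom_single, Matrix.smul_apply, twMon_apply, MonoidAlgebra.coeff_smul,
      Finsupp.smul_apply, MonoidAlgebra.coeff_single, MonoidAlgebra.coeff_single,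
      Finsupp.single_apply, Finsupp.single_apply]
    by_cases h : k = g
    · rw [if_pos h, if_pos h, zsmul_eq_mul, h]
    · rw [if_neg h, if_neg h, smul_zero, Int.cast_zero, zero_mul]

/-- Matrices with coefficients in an ideal of elements which are nilpotent modulo `p`. -/
lemma nilMod_of_coeffIn [IsDomain O] {p : ℕ} (hp0 : (p : O) ≠ 0) {I : Ideal O}
    (hI : ∀ x ∈ I, ∃ r : ℕ, (p : O) ∣ x ^ r) {Y : Matrix ι ι (MonoidAlgebra O Γ)} {m : ℕ}
    (hY : CoeffIn I (Y ^ m)) : NilMod p Y := by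
  classical
  set S : Finset O := Finset.univ.biUnion fun i : ι => Finset.univ.biUnion fun j : ι =>
    (((Y ^ m) i j).coeff.support.image ((Y ^ m) i j).coeff) with hS
  have h1 : CoeffIn (Ideal.span (S : Set O)) (Y ^ m) := by
    intro i j g
    by_cases hg : ((Y ^ m) i j).coeff g = 0
    · rw [hg]; exact Ideal.zero_mem _
    · apply Ideal.subset_span
      rw [Finset.mem_coe, hS, Finset.mem_biUnion]
      refine ⟨i, Finset.mem_univ _, ?_⟩
      rw [Finset.mem_biUnion]
      exact ⟨j, Finset.mem_univ _, Finset.mem_image_of_mem _ (Finsupp.mem_support_iff.mpr hg)⟩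
  have h2 : Ideal.span (S : Set O) ≤ (Ideal.span {(p : O)}).radical := by
    rw [Ideal.span_le]
    intro x hx
    rw [Finset.mem_coe, hS, Finset.mem_biUnion] at hx
    obtain ⟨i, -, hx⟩ := hx
    rw [Finset.mem_biUnion] at hx
    obtain ⟨j, -, hx⟩ := hx
    obtain ⟨g, -, rfl⟩ := Finset.mem_image.mp hx
    obtain ⟨r, hr⟩ := hI _ (hY i j g)
    exact ⟨r, Ideal.mem_span_singleton.mpr hr⟩
  obtain ⟨r, hr⟩ := Ideal.exists_pow_le_of_le_radical_of_fg h2 ⟨S, rfl⟩
  obtain ⟨W0, hW0⟩ := ((h1.pow r).mono hr).exists_smul hp0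
  exact ⟨m * r, W0, by rw [pow_mul, hW0]⟩

end upper

end Pool.Agent.Lib.MP_8f66f0_al_Plus
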