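import Mathlib
import Pool.Agent.Lib.MP_8f66f0_al_Plus.Spec
import Pool.Agent.Lib.MP_8f66f0_al_Plus.LocAux

/-! The final Artin induction step of the localization theorem. -/

set_option autoImplicit false
set_option linter.unusedSectionVars false

namespace Pool.Agent.Lib.MP_8f66f0_al_Plus

open Pool.Agent.Lib.MP_8f66f0_al_Dennis Pool.Agent.Lib.MP_8f66f0_al_FinQ

lemma prod_zpow_eq_zpow_sum' {F J : Type*} [Field F] {x : F} (hx : x ≠ 0) (s : Finset J)
    (m : J → ℤ) : ∏ j ∈ s, x ^ m j = x ^ ∑ j ∈ s, m j := by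
  classical
  induction s using Finset.induction_on with
  | empty => simp
  | insert a s ha ih =>
    rw [Finset.prod_insert ha, Finset.sum_insert ha, ih, zpow_add₀ hx]

lemma smul_eq_self_iff' {Q : Type*} [Group Q] (C : Subgroup Q) (x : Q) (w : Q ⧸ C) :
    w = x • w ↔ w.out⁻¹ * x * w.out ∈ C := by
  have h1 : x • w = ((x * w.out : Q) : Q ⧸ C) := by
    conv_lhs => rw [← QuotientGroup.out_eq' w]
    rfl
  have h2 : w = ((w.out : Q) : Q ⧸ C) := (QuotientGroup.out_eq' w).symm
  rw [h1]
  constructor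
  · intro h
    rw [mul_assoc]
    exact QuotientGroup.eq.mp (h2.symm.trans h)
  · intro h
    rw [mul_assoc] at h
    exact h2.trans (QuotientGroup.eq.mpr h)

open Classical in
/-- Artin induction of the trivial character: if for every cyclic subgroup `C` of `Q` the
determinant of a representation `β` with the character of `ρ ⊗ [Q ⧸ C]` satisfies
`U(β) ^ |C| ~ u`, then `U(ρ) ^ |Q| ~ u`.
(As in `artin_reduction`: `exists_artin`, `card_conj'`; `det_zpow_eq` of Localize.lean.) -/
theorem artin_step {Γ Q : Type*} [Group Γ] [Group Q] [Fintype Q] {R : Type*} [CommRing R]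
    [IsDomain R] [CharZero R] (π : Γ →* Q) {κ : Type*} [Fintype κ] [DecidableEq κ]
    (ρ : Γ →* Matrix κ κ R) {ι : Type*} [Fintype ι] [DecidableEq ι]
    {A B : Matrix ι ι (MonoidAlgebra ℤ Γ)} (hAB : A * B = 1) (u : R)
    (hC : ∀ C : Subgroup Q, IsCyclic C →
      ∃ (β : Γ →* Matrix ((Q ⧸ C) × κ) ((Q ⧸ C) × κ) R) (K : ℕ), 0 < K ∧
        (∀ g, (β g).trace = (∑ w : Q ⧸ C, if w = π g • w then (1 : R) else 0) * (ρ g).trace) ∧
        (mapRep β A).det ^ (Nat.card C * K) = u ^ K) :
    ∃ K : ℕ, 0 < K ∧ (mapRep ρ A).det ^ (Fintype.card Q * K) = u ^ K := by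
  set S := {C : Subgroup Q // IsCyclic C} with hS
  obtain ⟨m, hm⟩ := exists_artin Q
  have hm1 : ∑ C : S, m C = 1 := by
    have h := hm 1
    rw [← h]
    refine Finset.sum_congr rfl fun C _ => ?_
    rw [if_pos C.1.one_mem]
  have hC' := fun C : S => hC C.1 C.2
  choose β N hN0 htr hN using hC'
  set P := ∏ C : S, N C with hP
  have hP0 : 0 < P := Finset.prod_pos fun C _ => hN0 C
  set s := algebraMap R (FractionRing R) with hs
  have hinj : Function.Injective s := IsFractionRing.injective R (FractionRing R)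
  -- the identity of characters
  have hsum : ∀ x : Q, ∑ C : S, ((m C : R) * (Nat.card C.1 : R)) *
      (∑ w : Q ⧸ C.1, if w = x • w then (1 : R) else 0) = (Fintype.card Q : R) := by
    intro x
    have h1 : ∀ C : S, ((m C : R) * (Nat.card C.1 : R)) *
        (∑ w : Q ⧸ C.1, if w = x • w then (1 : R) else 0) =
        ∑ y : Q, ((if y⁻¹ * x * y ∈ C.1 then m C else 0 : ℤ) : R) := by
      intro C
      have h2 := congrArg (Int.cast : ℤ → R) (card_conj' C.1 x)
      push_cast at h2
      have h3 : (∑ w : Q ⧸ C.1, if w = x • w then (1 : R) else 0) =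
          ∑ w : Q ⧸ C.1, if w.out⁻¹ * x * w.out ∈ C.1 then (1 : R) else 0 := by
        refine Finset.sum_congr rfl fun w _ => ?_
        exact if_congr (smul_eq_self_iff' C.1 x w) rfl rfl
      rw [h3, mul_assoc, ← h2, Finset.mul_sum]
      refine Finset.sum_congr rfl fun y _ => ?_
      split_ifs <;> simp
    rw [Finset.sum_congr rfl fun C _ => h1 C, Finset.sum_comm]
    have h3 : ∀ y : Q, ∑ C : S, ((if y⁻¹ * x * y ∈ C.1 then m C else 0 : ℤ) : R) = 1 := by
      intro y
      rw [← Int.cast_sum, hm (y⁻¹ * x * y), Int.cast_one]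
    rw [Finset.sum_congr rfl fun y _ => h3 y]
    simp
  have key := det_zpow_eq ρ (Fintype.card Q) β (fun C : S => m C * (Nat.card C.1 : ℤ)) (by
    intro g
    rw [← hsum (π g), Finset.sum_mul]
    refine Finset.sum_congr rfl fun C _ => ?_
    rw [htr]
    push_cast
    ring) hAB
  -- all powers agree
  have hNP : ∀ C : S, (mapRep (β C) A).det ^ (Nat.card C.1 * P) = u ^ P := by
    intro C
    obtain ⟨c, hc⟩ := Finset.dvd_prod_of_mem (fun C : S => N C) (Finset.mem_univ C)
    have hc' : P = N C * c := hc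
    rw [hc', ← mul_assoc, pow_mul, hN C, ← pow_mul]
  have hu : s u ≠ 0 := by
    have C0 : S := ⟨⊥, inferInstance⟩
    have h1 : IsUnit (u ^ P) := by
      rw [← hNP C0]
      exact (isUnit_det_mapRep (β C0) hAB).pow _
    have h2 : IsUnit u := (isUnit_pow_iff hP0.ne').mp h1
    exact (h2.map s).ne_zero
  refine ⟨P, hP0, hinj ?_⟩
  rw [map_pow, map_pow, pow_mul, key, ← Finset.prod_pow]
  have h7 : ∀ C ∈ (Finset.univ : Finset S),
      ((s (mapRep (β C) A).det) ^ (m C * (Nat.card C.1 : ℤ))) ^ P = ((s u) ^ P) ^ m C := by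
    intro C _
    have h8 : (s (mapRep (β C) A).det) ^ (Nat.card C.1 * P) = (s u) ^ P := by
      rw [← map_pow, hNP C, map_pow]
    rw [← h8, ← zpow_natCast, ← zpow_natCast, ← zpow_mul, ← zpow_mul]
    congr 1
    push_cast
    ring
  rw [Finset.prod_congr rfl h7, prod_zpow_eq_zpow_sum' (pow_ne_zero _ hu), hm1, zpow_one]

end Pool.Agent.Lib.MP_8f66f0_al_Plus
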