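import Mathlib
import Pool.Agent.Lib.MP_8f66f0_al_Plus.Spec

/-! Class functions on finite groups are combinations of monomial characters. -/

set_option autoImplicit false
set_option linter.unusedSectionVars false

namespace Pool.Agent.Lib.MP_8f66f0_al_Plus

open Pool.Agent.Lib.MP_8f66f0_al_Dennis Pool.Agent.Lib.MP_8f66f0_al_FinQ

section roots

variable {W : Type*} [CommRing W] [IsDomain W]

lemma sum_root_pow {z : W} {m : ℕ} (h1 : z ^ m = 1) (h2 : z ≠ 1) :
    ∑ j ∈ Finset.range m, z ^ j = 0 := by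
  have h := geom_sum_mul z m
  rw [h1, sub_self] at h
  exact (mul_eq_zero.mp h).resolve_right (sub_ne_zero.mpr h2)

/-- Orthogonality of the characters of a cyclic group. -/
lemma sum_root {ζ : W} {m : ℕ} (hm : 0 < m) (hζ : IsPrimitiveRoot ζ m) (a : ℕ) :
    ∑ j ∈ Finset.range m, ζ ^ ((m - 1) * j) * ζ ^ (a * j) =
      if a ≡ 1 [MOD m] then (m : W) else 0 := by
  have h1 : ∀ j ∈ Finset.range m, ζ ^ ((m - 1) * j) * ζ ^ (a * j) =
      (ζ ^ (m - 1 + a)) ^ j := by
    intro j _
    rw [← pow_add, ← pow_mul, ← Nat.add_mul]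
  rw [Finset.sum_congr rfl h1]
  have h2 : ζ ^ (m - 1 + a) = 1 ↔ a ≡ 1 [MOD m] := by
    rw [hζ.pow_eq_one_iff_dvd]
    constructor
    · intro h
      have h3 : m - 1 + a ≡ 0 [MOD m] := (Nat.modEq_zero_iff_dvd).mpr h
      have h4 := h3.add_right 1
      have e : m - 1 + a + 1 = a + m := by omega
      rw [e, zero_add] at h4
      exact (Nat.ModEq.symm (Nat.add_modEq_right (a := a) (n := m))).trans h4
    · intro h
      have h3 := h.add_left (m - 1)
      have e : m - 1 + 1 = m := by omega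
      rw [e] at h3
      exact (Nat.modEq_zero_iff_dvd).mp (h3.trans (Nat.modEq_zero_iff_dvd.mpr dvd_rfl))
  split_ifs with h
  · rw [h2.mpr h]
    simp
  · refine sum_root_pow ?_ (fun h' => h (h2.mp h'))
    rw [← pow_mul, mul_comm, pow_mul, hζ.pow_eq_one, one_pow]

end roots

section psi

variable {Q : Type*} [Group Q] [Finite Q] {W : Type*} [CommRing W]

lemma exists_cyclic_char (q : Q) {ζ : W} (hζ : ζ ^ orderOf q = 1) :
    ∃ ψ : Subgroup.zpowers q →* W, ∀ a : ℕ,
      ψ ⟨q ^ a, Subgroup.npow_mem_zpowers q a⟩ = ζ ^ a := by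
  have hpos : 0 < orderOf q := orderOf_pos q
  set u : Wˣ := Units.mkOfMulEqOne ζ (ζ ^ (orderOf q - 1)) (by
    rw [← pow_succ', Nat.sub_add_cancel hpos, hζ]) with hu
  set q' : Subgroup.zpowers q := ⟨q, Subgroup.mem_zpowers q⟩ with hq'
  have hgen : ∀ x : Subgroup.zpowers q, x ∈ Subgroup.zpowers q' := by
    rintro ⟨x, hx⟩
    obtain ⟨k, rfl⟩ := Subgroup.mem_zpowers_iff.mp hx
    exact Subgroup.mem_zpowers_iff.mpr ⟨k, Subtype.ext (by simp [hq'])⟩
  have horder : orderOf q' = orderOf q := Subgroup.orderOf_mk q _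
  have hdvd : orderOf u ∣ orderOf q' := by
    rw [horder]
    refine orderOf_dvd_of_pow_eq_one (Units.ext ?_)
    rw [Units.val_pow_eq_pow_val, Units.val_one]
    exact hζ
  refine ⟨(Units.coeHom W).comp (monoidHomOfForallMemZpowers hgen hdvd), fun a => ?_⟩
  have h1 : (⟨q ^ a, Subgroup.npow_mem_zpowers q a⟩ : Subgroup.zpowers q) = q' ^ a :=
    Subtype.ext rfl
  rw [h1, map_pow]
  congr 1
  change ((monoidHomOfForallMemZpowers hgen hdvd q' : Wˣ) : W) = ζ
  rw [monoidHomOfForallMemZpowers_apply_gen]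
  rfl

end psi

section main

variable {Q : Type*} [Group Q] [Finite Q]

lemma out_conj_eq (q x y : Q) :
    ((y : Q ⧸ Subgroup.zpowers q).out⁻¹ * x * (y : Q ⧸ Subgroup.zpowers q).out = q) ↔
      y⁻¹ * x * y = q := by
  obtain ⟨⟨b, hb⟩, hb'⟩ := QuotientGroup.mk_out_eq_mul (Subgroup.zpowers q) y
  rw [hb']
  have hc : Commute b q := by
    obtain ⟨k, rfl⟩ := Subgroup.mem_zpowers_iff.mp hb
    exact (Commute.refl q).zpow_left k
  have e : (y * b)⁻¹ * x * (y * b) = b⁻¹ * (y⁻¹ * x * y) * b := by group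
  change (y * b)⁻¹ * x * (y * b) = q ↔ _
  rw [e]
  constructor
  · intro h
    have h2 : y⁻¹ * x * y = b * q * b⁻¹ := by rw [← h]; group
    rw [h2, hc.eq, mul_inv_cancel_right]
  · intro h
    rw [h, mul_assoc, ← hc.eq, inv_mul_cancel_left]

open Classical in
lemma card_conj_eq [Fintype Q] (q x : Q) [Fintype (Q ⧸ Subgroup.zpowers q)] :
    (∑ y : Q, if y⁻¹ * x * y = q then (1 : ℕ) else 0) =
      orderOf q * ∑ w : Q ⧸ Subgroup.zpowers q, if w.out⁻¹ * x * w.out = q then (1 : ℕ) else 0 := by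
  have h1 : ∀ {α : Type _} [Fintype α] (P : α → Prop),
      (∑ y : α, if P y then (1 : ℕ) else 0) = Nat.card {y : α | P y} := by
    intro α _ P
    rw [Finset.sum_boole, Nat.card_eq_card_toFinset, Nat.cast_id]
    congr 1
    ext y
    simp
  rw [h1, h1]
  have h2 : {y : Q | y⁻¹ * x * y = q} = QuotientGroup.mk ⁻¹'
      {w : Q ⧸ Subgroup.zpowers q | w.out⁻¹ * x * w.out = q} := by
    ext y
    simp only [Set.mem_ofPred_eq, Set.mem_preimage]
    exact (out_conj_eq q x y).symm
  rw [h2, QuotientGroup.card_preimage_mk, Nat.card_zpowers]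

open Classical in
/-- Class functions are combinations of monomial characters. -/
theorem exists_char_identity.{u, v} {Q : Type u} [Group Q] [Finite Q] {W : Type v} [CommRing W]
    [IsDomain W] (hroots : ∀ m : ℕ, 0 < m → ∃ ζ : W, IsPrimitiveRoot ζ m) (h : Q → W)
    (hh : IsClassFn h) [∀ C : Subgroup Q, Fintype (Q ⧸ C)] :
    ∃ (J : Type u) (_ : Fintype J) (C : J → Subgroup Q) (ψ : ∀ t, C t →* W) (c : J → W),
      ∀ x : Q, (Nat.card Q : W) * h x =
        ∑ t, c t * (monRep (indCocycle_isMonCocycle (C t) (ψ t)) x).trace := by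
  have : Fintype Q := Fintype.ofFinite Q
  choose ζ hζ using fun q : Q => hroots (orderOf q) (orderOf_pos q)
  choose ψ hψ using fun (q : Q) (j : ℕ) => exists_cyclic_char q (ζ := ζ q ^ j) (by
    rw [← pow_mul, mul_comm, pow_mul, (hζ q).pow_eq_one, one_pow])
  refine ⟨Σ q : Q, Fin (orderOf q), inferInstance, fun t => Subgroup.zpowers t.1,
    fun t => ψ t.1 t.2, fun t => h t.1 * ζ t.1 ^ ((orderOf t.1 - 1) * (t.2 : ℕ)), fun x => ?_⟩
  rw [Fintype.sum_sigma]
  have key : ∀ q : Q, ∑ j : Fin (orderOf q), h q * ζ q ^ ((orderOf q - 1) * (j : ℕ)) *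
      (monRep (indCocycle_isMonCocycle (Subgroup.zpowers q) (ψ q j)) x).trace =
      ∑ y : Q, if y⁻¹ * x * y = q then h x else 0 := by
    intro q
    have h1 : ∀ j : ℕ, (monRep (indCocycle_isMonCocycle (Subgroup.zpowers q) (ψ q j)) x).trace =
        ∑ w : Q ⧸ Subgroup.zpowers q, if hw : w.out⁻¹ * x * w.out ∈ Subgroup.zpowers q then
          ψ q j ⟨_, hw⟩ else 0 := fun j => trace_ind _ _ x
    rw [Finset.sum_congr rfl fun (j : Fin (orderOf q)) _ => by rw [h1 j]]
    rw [Fin.sum_univ_eq_sum_range (fun j => h q * ζ q ^ ((orderOf q - 1) * j) *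
      ∑ w : Q ⧸ Subgroup.zpowers q, if hw : w.out⁻¹ * x * w.out ∈ Subgroup.zpowers q then
          ψ q j ⟨_, hw⟩ else 0) (orderOf q)]
    have h2 : ∀ j ∈ Finset.range (orderOf q), h q * ζ q ^ ((orderOf q - 1) * j) *
        (∑ w : Q ⧸ Subgroup.zpowers q, if hw : w.out⁻¹ * x * w.out ∈ Subgroup.zpowers q then
          ψ q j ⟨_, hw⟩ else 0) =
        ∑ w : Q ⧸ Subgroup.zpowers q, h q * (ζ q ^ ((orderOf q - 1) * j) *
          if hw : w.out⁻¹ * x * w.out ∈ Subgroup.zpowers q then ψ q j ⟨_, hw⟩ else 0) := by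
      intro j _
      rw [mul_assoc, Finset.mul_sum, Finset.mul_sum]
    rw [Finset.sum_congr rfl h2, Finset.sum_comm]
    have h3 : ∀ w ∈ Finset.univ, ∑ j ∈ Finset.range (orderOf q),
        h q * (ζ q ^ ((orderOf q - 1) * j) *
          if hw : w.out⁻¹ * x * w.out ∈ Subgroup.zpowers q then ψ q j ⟨_, hw⟩ else 0) =
        if (w : Q ⧸ Subgroup.zpowers q).out⁻¹ * x * w.out = q then (orderOf q : W) * h x
          else 0 := by
      intro w _
      rw [← Finset.mul_sum]
      by_cases hw : w.out⁻¹ * x * w.out ∈ Subgroup.zpowers q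
      · obtain ⟨a, ha⟩ := (mem_powers_iff_mem_zpowers.mpr hw :
          w.out⁻¹ * x * w.out ∈ Submonoid.powers q)
        have ha' : q ^ a = w.out⁻¹ * x * w.out := ha
        have h4 : ∀ j ∈ Finset.range (orderOf q), (ζ q ^ ((orderOf q - 1) * j) *
            if hw : w.out⁻¹ * x * w.out ∈ Subgroup.zpowers q then ψ q j ⟨_, hw⟩ else 0) =
            ζ q ^ ((orderOf q - 1) * j) * ζ q ^ (a * j) := by
          intro j _
          rw [dif_pos hw]
          congr 1
          have h5 : (⟨w.out⁻¹ * x * w.out, hw⟩ : Subgroup.zpowers q) =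
              ⟨q ^ a, Subgroup.npow_mem_zpowers q a⟩ := Subtype.ext ha'.symm
          rw [h5, hψ, ← pow_mul, mul_comm]
        rw [Finset.sum_congr rfl h4, sum_root (orderOf_pos q) (hζ q)]
        have h6 : a ≡ 1 [MOD orderOf q] ↔ w.out⁻¹ * x * w.out = q := by
          rw [← ha', ← pow_eq_pow_iff_modEq, pow_one]
        by_cases h7 : w.out⁻¹ * x * w.out = q
        · rw [if_pos (h6.mpr h7), if_pos h7]
          have h8 : h q = h x := by
            rw [← h7, hh, ← mul_assoc, mul_inv_cancel, one_mul]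
          rw [h8, mul_comm]
        · rw [if_neg (fun h' => h7 (h6.mp h')), if_neg h7, mul_zero]
      · have h4 : ∀ j ∈ Finset.range (orderOf q), (ζ q ^ ((orderOf q - 1) * j) *
            if hw : w.out⁻¹ * x * w.out ∈ Subgroup.zpowers q then ψ q j ⟨_, hw⟩ else 0) = 0 := by
          intro j _
          rw [dif_neg hw, mul_zero]
        rw [Finset.sum_congr rfl h4, Finset.sum_const_zero, mul_zero, if_neg]
        intro h7
        exact hw (by rw [h7]; exact Subgroup.mem_zpowers q)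
    rw [Finset.sum_congr rfl h3]
    have h5 := card_conj_eq q x
    have h6 : (∑ y : Q, if y⁻¹ * x * y = q then h x else 0) =
        ((∑ y : Q, if y⁻¹ * x * y = q then (1 : ℕ) else 0 : ℕ) : W) * h x := by
      rw [Nat.cast_sum, Finset.sum_mul]
      refine Finset.sum_congr rfl fun y _ => ?_
      split_ifs <;> simp
    rw [h6, h5, Nat.cast_mul, Nat.cast_sum, mul_assoc, Finset.sum_mul, Finset.mul_sum]
    refine Finset.sum_congr rfl fun w _ => ?_
    split_ifs <;> simp
  rw [Finset.sum_congr rfl fun q _ => key q, Finset.sum_comm]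
  have h7 : ∀ y ∈ (Finset.univ : Finset Q), ∑ q : Q, (if y⁻¹ * x * y = q then h x else 0) =
      h x := by
    intro y _
    rw [Finset.sum_ite_eq, if_pos (Finset.mem_univ _)]
  rw [Finset.sum_congr rfl h7, Finset.sum_const, Finset.card_univ, nsmul_eq_mul,
    Nat.card_eq_fintype_card]

end main

end Pool.Agent.Lib.MP_8f66f0_al_Plus
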