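import Mathlib
import Pool.Agent.Lib.MP_8f66f0_al_FinQ.Trace
import Pool.Agent.Lib.MP_8f66f0_al_Plus.Words

/-! Class functions applied to traces of powers of matrices over integral group rings. -/

set_option autoImplicit false
set_option linter.unusedSectionVars false

namespace Pool.Agent.Lib.MP_8f66f0_al_Plus

open Pool.Agent.Lib.MP_8f66f0_al_FinQ

section defs

variable {Γ O : Type*} [Group Γ] [CommRing O] {ι : Type*} [Fintype ι] [DecidableEq ι]

/-- Class functions. -/
def IsClassFun (f : Γ → O) : Prop := ∀ g h, f (g * h) = f (h * g)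

/-- The additive functional on the integral group ring with value `a * f g` on `a g`. -/
noncomputable def zl (f : Γ → O) : MonoidAlgebra ℤ Γ →+ O :=
  (Finsupp.liftAddHom fun g => (AddMonoidHom.mulRight (f g)).comp (Int.castAddHom O)).comp
    (MonoidAlgebra.coeffAddEquiv (R := ℤ) (M := Γ)).toAddMonoidHom

lemma zl_apply (f : Γ → O) (x : MonoidAlgebra ℤ Γ) :
    zl f x = x.coeff.sum fun g a => (a : O) * f g := rfl

lemma zl_single (f : Γ → O) (g : Γ) (a : ℤ) : zl f (MonoidAlgebra.single g a) = (a : O) * f g := by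
  rw [zl_apply, MonoidAlgebra.coeff_single, Finsupp.sum_single_index]
  rw [Int.cast_zero, zero_mul]

lemma zl_mul_comm {f : Γ → O} (hf : IsClassFun f) (x y : MonoidAlgebra ℤ Γ) :
    zl f (x * y) = zl f (y * x) := by
  induction x using MonoidAlgebra.induction_linear with
  | zero => rw [zero_mul, mul_zero]
  | add x x' hx hx' => rw [add_mul, mul_add, map_add, map_add, hx, hx']
  | single g a =>
    induction y using MonoidAlgebra.induction_linear with
    | zero => rw [zero_mul, mul_zero]
    | add y y' hy hy' => rw [add_mul, mul_add, map_add, map_add, hy, hy']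
    | single h b =>
      rw [MonoidAlgebra.single_mul_single, MonoidAlgebra.single_mul_single, zl_single, zl_single,
        hf g h, mul_comm a b]

/-- The functional on matrices given by the functional applied to the trace. -/
noncomputable def ztr (f : Γ → O) : Matrix ι ι (MonoidAlgebra ℤ Γ) →+ O :=
  (zl f).comp (Matrix.traceAddMonoidHom ι (MonoidAlgebra ℤ Γ))

lemma ztr_apply (f : Γ → O) (X : Matrix ι ι (MonoidAlgebra ℤ Γ)) :
    ztr f X = zl f (Matrix.trace X) := rfl

lemma ztr_mul_comm {f : Γ → O} (hf : IsClassFun f) (X Y : Matrix ι ι (MonoidAlgebra ℤ Γ)) :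
    ztr f (X * Y) = ztr f (Y * X) := by
  have h1 : ∀ X Y : Matrix ι ι (MonoidAlgebra ℤ Γ),
      ztr f (X * Y) = ∑ i, ∑ j, zl f (X i j * Y j i) := by
    intro X Y
    rw [ztr_apply, Matrix.trace, map_sum]
    refine Finset.sum_congr rfl fun i _ => ?_
    rw [Matrix.diag_apply, Matrix.mul_apply, map_sum]
  rw [h1, h1, Finset.sum_comm]
  refine Finset.sum_congr rfl fun i _ => Finset.sum_congr rfl fun j _ => ?_
  rw [zl_mul_comm hf]

lemma ztr_single (f : Γ → O) (a b : ι) (x : MonoidAlgebra ℤ Γ) :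
    ztr f (Matrix.single a b x) = if a = b then zl f x else 0 := by
  rw [ztr_apply]
  by_cases h : a = b
  · subst h
    rw [Matrix.trace_single_eq_same, if_pos rfl]
  · rw [Matrix.trace_single_eq_of_ne _ _ _ h, if_neg h, map_zero]

lemma zl_sum {J : Type*} (s : Finset J) (f : J → Γ → O) (c : J → O) (x : MonoidAlgebra ℤ Γ) :
    zl (fun g => ∑ j ∈ s, c j * f j g) x = ∑ j ∈ s, c j * zl (f j) x := by
  rw [zl_apply, Finsupp.sum]
  have h1 : ∀ g ∈ x.coeff.support, ((x.coeff g : ℤ) : O) * ∑ j ∈ s, c j * f j g =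
      ∑ j ∈ s, c j * (((x.coeff g : ℤ) : O) * f j g) := by
    intro g _
    rw [Finset.mul_sum]
    refine Finset.sum_congr rfl fun j _ => ?_
    ring
  rw [Finset.sum_congr rfl h1, Finset.sum_comm]
  refine Finset.sum_congr rfl fun j _ => ?_
  rw [← Finset.mul_sum]
  rfl

lemma zl_add (f f' : Γ → O) (x : MonoidAlgebra ℤ Γ) :
    zl (fun g => f g + f' g) x = zl f x + zl f' x := by
  rw [zl_apply, zl_apply, zl_apply, Finsupp.sum, Finsupp.sum, Finsupp.sum,
    ← Finset.sum_add_distrib]
  refine Finset.sum_congr rfl fun g _ => ?_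
  ring

lemma zl_mul (c : O) (f : Γ → O) (x : MonoidAlgebra ℤ Γ) :
    zl (fun g => c * f g) x = c * zl f x := by
  rw [zl_apply, zl_apply, Finsupp.sum, Finsupp.sum, Finset.mul_sum]
  refine Finset.sum_congr rfl fun g _ => ?_
  ring

/-- Traces of representations. -/
lemma trace_mapRep_eq {κ : Type*} [Fintype κ] [DecidableEq κ] (σ : Γ →* Matrix κ κ O)
    (X : Matrix ι ι (MonoidAlgebra ℤ Γ)) :
    (mapRep σ X).trace = ztr (fun g => (σ g).trace) X := trace_mapRep σ X

lemma isClassFun_trace {κ : Type*} [Fintype κ] [DecidableEq κ] (σ : Γ →* Matrix κ κ O) :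
    IsClassFun fun g => (σ g).trace := by
  intro g h
  beta_reduce
  rw [map_mul, map_mul, Matrix.trace_mul_comm]

end defs

section necklace

variable {Γ : Type*} [Group Γ] {ι : Type*} [Fintype ι] [DecidableEq ι]

/-- Elementary matrices times `0`, `g` or `-g` with `g` in the group. -/
def IsMonom (y : Matrix ι ι (MonoidAlgebra ℤ Γ)) : Prop :=
  ∃ (a b : ι) (g : Γ) (s : ℤ), (s = 0 ∨ s = 1 ∨ s = -1) ∧
    y = Matrix.single a b (MonoidAlgebra.single g s)

lemma IsMonom.mul {y z : Matrix ι ι (MonoidAlgebra ℤ Γ)} (hy : IsMonom y) (hz : IsMonom z) :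
    IsMonom (y * z) := by
  obtain ⟨a, b, g, s, hs, rfl⟩ := hy
  obtain ⟨c, d, h, t, ht, rfl⟩ := hz
  by_cases hbc : b = c
  · subst hbc
    refine ⟨a, d, g * h, s * t, ?_, ?_⟩
    · rcases hs with rfl | rfl | rfl <;> rcases ht with rfl | rfl | rfl <;> simp
    · rw [Matrix.single_mul_single_same, MonoidAlgebra.single_mul_single]
  · refine ⟨a, d, g * h, 0, Or.inl rfl, ?_⟩
    rw [Matrix.single_mul_single_of_ne _ _ _ _ hbc, MonoidAlgebra.single_zero, Matrix.single_zero]

lemma exists_monoms (x : Matrix ι ι (MonoidAlgebra ℤ Γ)) :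
    ∃ (T : Type) (_ : Fintype T) (y : T → Matrix ι ι (MonoidAlgebra ℤ Γ)),
      (∀ t, IsMonom (y t)) ∧ ∑ t, y t = x := by
  have hadd : ∀ x x' : Matrix ι ι (MonoidAlgebra ℤ Γ),
      (∃ (T : Type) (_ : Fintype T) (y : T → Matrix ι ι (MonoidAlgebra ℤ Γ)),
        (∀ t, IsMonom (y t)) ∧ ∑ t, y t = x) →
      (∃ (T : Type) (_ : Fintype T) (y : T → Matrix ι ι (MonoidAlgebra ℤ Γ)),
        (∀ t, IsMonom (y t)) ∧ ∑ t, y t = x') →
      ∃ (T : Type) (_ : Fintype T) (y : T → Matrix ι ι (MonoidAlgebra ℤ Γ)),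
        (∀ t, IsMonom (y t)) ∧ ∑ t, y t = x + x' := by
    rintro x x' ⟨T, _, y, hy, rfl⟩ ⟨T', _, y', hy', rfl⟩
    refine ⟨T ⊕ T', inferInstance, Sum.elim y y', ?_, ?_⟩
    · rintro (t | t)
      · exact hy t
      · exact hy' t
    · rw [Fintype.sum_sum_type]; rfl
  have hzero : ∃ (T : Type) (_ : Fintype T) (y : T → Matrix ι ι (MonoidAlgebra ℤ Γ)),
        (∀ t, IsMonom (y t)) ∧ ∑ t, y t = 0 :=
    ⟨Empty, inferInstance, Empty.elim, fun t => t.elim, by simp⟩
  induction x using Matrix.induction_on' with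
  | h_zero => exact hzero
  | h_add x x' hx hx' => exact hadd x x' hx hx'
  | h_std_basis i j x =>
    induction x using MonoidAlgebra.induction_linear with
    | zero => rw [Matrix.single_zero]; exact hzero
    | add x x' hx hx' => rw [Matrix.single_add]; exact hadd _ _ hx hx'
    | single g a =>
      refine ⟨Fin a.natAbs, inferInstance, fun _ => Matrix.single i j
        (MonoidAlgebra.single g a.sign), fun _ => ⟨i, j, g, a.sign, ?_, rfl⟩, ?_⟩
      · rcases lt_trichotomy a 0 with h | h | h
        · exact Or.inr (Or.inr (Int.sign_eq_neg_one_of_neg h))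
        · exact Or.inl (by rw [h, Int.sign_zero])
        · exact Or.inr (Or.inl (Int.sign_eq_one_of_pos h))
      · rw [Finset.sum_const, Finset.card_univ, Fintype.card_fin, Matrix.smul_single,
          MonoidAlgebra.smul_single]
        congr 2
        rw [nsmul_eq_mul, mul_comm]
        exact Int.sign_mul_natAbs a

lemma IsMonom.pow_trace {O : Type*} [CommRing O] {y : Matrix ι ι (MonoidAlgebra ℤ Γ)}
    (hy : IsMonom y) {p : ℕ} (hp : p.Prime) (hodd : p ≠ 2) (f : Γ → O) :
    ztr f (y ^ p) = ztr (fun g => f (g ^ p)) y := by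
  obtain ⟨a, b, g, s, hs, rfl⟩ := hy
  by_cases hab : a = b
  · subst hab
    have h1 : ∀ m : ℕ, 0 < m → (Matrix.single a a (MonoidAlgebra.single g s) :
        Matrix ι ι (MonoidAlgebra ℤ Γ)) ^ m =
        Matrix.single a a (MonoidAlgebra.single (g ^ m) (s ^ m)) := by
      intro m hm
      induction m with
      | zero => omega
      | succ m ih =>
        rcases Nat.eq_zero_or_pos m with rfl | hm'
        · simp
        · rw [pow_succ, ih hm', Matrix.single_mul_single_same, MonoidAlgebra.single_mul_single,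
            ← pow_succ, ← pow_succ]
    have hsp : s ^ p = s := by
      rcases hs with rfl | rfl | rfl
      · exact zero_pow hp.ne_zero
      · exact one_pow p
      · exact Odd.neg_one_pow (hp.odd_of_ne_two hodd)
    rw [h1 p hp.pos, hsp, ztr_single, ztr_single, zl_single, zl_single]
  · have h1 : (Matrix.single a b (MonoidAlgebra.single g s) :
        Matrix ι ι (MonoidAlgebra ℤ Γ)) ^ p = 0 := by
      obtain ⟨m, rfl⟩ : ∃ m, p = m + 2 := ⟨p - 2, by have := hp.two_le; omega⟩
      rw [pow_add, pow_two, Matrix.single_mul_single_of_ne _ _ _ _ (Ne.symm hab), mul_zero]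
    rw [h1, map_zero, ztr_single, if_neg hab]

/-- The necklace congruence for class functions. -/
theorem ztr_necklace {p : ℕ} (hp : p.Prime) (hodd : p ≠ 2) (x : Matrix ι ι (MonoidAlgebra ℤ Γ))
    (i : ℕ) : ∃ l : Matrix ι ι (MonoidAlgebra ℤ Γ), ∀ (O : Type*) [CommRing O] (f : Γ → O),
      IsClassFun f → ztr f (x ^ (p ^ (i + 1))) = ztr (fun g => f (g ^ p)) (x ^ (p ^ i)) +
        (p : O) ^ (i + 1) * ztr f l := by
  obtain ⟨T, _, y, hy, rfl⟩ := exists_monoms x
  obtain ⟨l, hl⟩ := necklace_ring y hp i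
  refine ⟨l, fun O _ f hf => ?_⟩
  rw [hl O (ztr f) (fun a b => ztr_mul_comm hf a b), nsmul_eq_mul, Nat.cast_pow, sum_pow_eq,
    map_sum]
  congr 1
  refine Finset.sum_congr rfl fun v _ => ?_
  have h1 : IsMonom (wordProd y v) := by
    unfold wordProd
    have h2 : ∀ L : List (Matrix ι ι (MonoidAlgebra ℤ Γ)), L ≠ [] → (∀ z ∈ L, IsMonom z) →
        IsMonom L.prod := by
      intro L
      induction L with
      | nil => intro h; exact absurd rfl h
      | cons z L ih =>
        intro _ h
        rw [List.prod_cons]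
        by_cases hL : L = []
        · rw [hL, List.prod_nil, mul_one]
          exact h z (by simp)
        · exact (h z (by simp)).mul (ih hL fun z' hz' => h z' (by simp [hz']))
    refine h2 _ ?_ ?_
    · intro h
      have := congrArg List.length h
      rw [List.length_ofFn, List.length_nil] at this
      exact (pow_pos hp.pos i).ne' this
    · intro z hz
      obtain ⟨j, rfl⟩ := List.mem_ofFn' _ _ |>.mp hz
      exact hy _
  exact h1.pow_trace hp hodd f

end necklace

end Pool.Agent.Lib.MP_8f66f0_al_Plus
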