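import Mathlib
import Pool.Agent.Lib.MP_8f66f0_al_Plus.Spec

import Pool.Agent.Lib.MP_8f66f0_al_Plus.Val

/-! Determinants and traces of powers; equality up to roots of unity from congruences. -/

set_option autoImplicit false
set_option linter.unusedSectionVars false

namespace Pool.Agent.Lib.MP_8f66f0_al_Plus

open Pool.Agent.Lib.MP_8f66f0_al_Dennis Pool.Agent.Lib.MP_8f66f0_al_FinQ

section close_aux

variable {Γ : Type*} {O : Type*} [CommRing O]

/-- The additive functional on the integral group ring with value `a * t g` on `a g`. -/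
noncomputable def closeLin (t : Γ → O) : MonoidAlgebra ℤ Γ →+ O :=
  (Finsupp.liftAddHom fun g => (AddMonoidHom.mulRight (t g)).comp (Int.castAddHom O)).comp
    (MonoidAlgebra.coeffAddEquiv (R := ℤ) (M := Γ)).toAddMonoidHom

lemma closeLin_apply (t : Γ → O) (x : MonoidAlgebra ℤ Γ) :
    closeLin t x = x.coeff.sum fun g a => (a : O) * t g := rfl

lemma closeLin_single (t : Γ → O) (g : Γ) (a : ℤ) :
    closeLin t (MonoidAlgebra.single g a) = (a : O) * t g := by
  rw [closeLin_apply, MonoidAlgebra.coeff_single, Finsupp.sum_single_index]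
  rw [Int.cast_zero, zero_mul]

lemma closeLin_mapDomain [Group Γ] {Q : Type*} [Group Q] (π : Γ →* Q) (t : Q → O)
    (x : MonoidAlgebra ℤ Γ) :
    closeLin t (MonoidAlgebra.mapDomainRingHom ℤ π x) = closeLin (fun g => t (π g)) x := by
  have h : (closeLin t).comp (MonoidAlgebra.mapDomainRingHom ℤ π).toAddMonoidHom =
      closeLin (fun g => t (π g)) := by
    refine MonoidAlgebra.addMonoidHom_ext fun g a => ?_
    rw [closeLin_single]
    have h1 : (MonoidAlgebra.mapDomainRingHom ℤ π) (MonoidAlgebra.single g a) =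
        MonoidAlgebra.single (π g) a := by
      simp
    change closeLin t ((MonoidAlgebra.mapDomainRingHom ℤ π) (MonoidAlgebra.single g a)) = _
    rw [h1, closeLin_single]
  exact DFunLike.congr_fun h x

/-- Termwise congruence. -/
lemma closeLin_congr {q : O} {t t' : Γ → O} (h : ∀ g, q ∣ t g - t' g) (x : MonoidAlgebra ℤ Γ) :
    q ∣ closeLin t x - closeLin t' x := by
  rw [closeLin_apply, closeLin_apply, Finsupp.sum, Finsupp.sum, ← Finset.sum_sub_distrib]
  refine Finset.dvd_sum fun g _ => ?_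
  rw [← mul_sub]
  exact Dvd.dvd.mul_left (h g) _

variable [Group Γ]

/-- If the image of `x` in the group ring of the quotient is divisible by `p ^ 2` so is the image
under a representation trivial modulo `p ^ 2` on the kernel. -/
lemma close_dvd {κ : Type*} [Fintype κ] [DecidableEq κ] (τ : Γ →* Matrix κ κ O)
    (N : Subgroup Γ) [N.Normal] {p : ℕ} (hτ : TrivMod τ N ((p : O) ^ 2))
    {x : MonoidAlgebra ℤ Γ} {y : MonoidAlgebra ℤ (Γ ⧸ N)}
    (hxy : MonoidAlgebra.mapDomainRingHom ℤ (QuotientGroup.mk' N) x = (p ^ 2) • y) (a b : κ) :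
    (p : O) ^ 2 ∣ mapHom τ x a b := by
  have h1 : mapHom τ x a b = closeLin (fun g => τ g a b) x := by
    rw [mapHom_apply, closeLin_apply]
  have h2 := closeLin_mapDomain (QuotientGroup.mk' N) (fun q : Γ ⧸ N => τ q.out a b) x
  rw [hxy, map_nsmul] at h2
  have h3 : (p : O) ^ 2 ∣ closeLin (fun g => τ g a b) x -
      closeLin (fun g => τ ((QuotientGroup.mk' N g).out) a b) x := by
    refine closeLin_congr (fun g => ?_) x
    -- `g = s * n`
    obtain ⟨n, hn⟩ := QuotientGroup.mk_out_eq_mul N g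
    have e1 : (QuotientGroup.mk' N g).out = g * n := hn
    rw [e1, map_mul, Matrix.mul_apply]
    have e2 : τ g a b = ∑ l, τ g a l * (1 : Matrix κ κ O) l b := by
      rw [← Matrix.mul_apply, mul_one]
    rw [e2, ← Finset.sum_sub_distrib]
    refine Finset.dvd_sum fun l _ => ?_
    rw [← mul_sub]
    have e3 : (1 : Matrix κ κ O) l b - τ n l b = -((τ n - 1) l b) := by
      rw [Matrix.sub_apply]; ring
    rw [e3]
    exact Dvd.dvd.mul_left ((dvd_neg).mpr (hτ n n.2 l b)) _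
  rw [← h2] at h3
  have h4 : (p : O) ^ 2 ∣ (p ^ 2) • closeLin (fun q : Γ ⧸ N => τ q.out a b) y := by
    rw [nsmul_eq_mul, Nat.cast_pow]
    exact dvd_mul_right _ _
  rw [h1]
  exact (dvd_sub_left h4).mp h3

end close_aux

/-- Determinants and traces. The matrix `mapRep τ (A ^ (M p ^ j))` is `1` modulo `p ^ 2`, because
`τ` modulo `p ^ 2` factors through `Γ ⧸ N` (lift `Y` to a matrix `Y'` over `MonoidAlgebra ℤ Γ`;
`A ^ (M p ^ j) - 1 - p ^ 2 Y'` is in the kernel of `mapMat`, i.e. its coefficients have sum zero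
over the cosets of `N`); then `exists_seq` and `det_one_add_nsmul` (FinQ/Abs.lean). -/
theorem det_trace_estimate {Γ : Type*} [Group Γ] {n : ℕ}
    {A : Matrix (Fin n) (Fin n) (MonoidAlgebra ℤ Γ)} {p : ℕ}
    {O : Type*} [CommRing O] {κ : Type*} [Fintype κ] [DecidableEq κ] (τ : Γ →* Matrix κ κ O)
    (N : Subgroup Γ) [N.Normal] (hτ : TrivMod τ N ((p : O) ^ 2)) {M j : ℕ}
    {Y : Matrix (Fin n) (Fin n) (MonoidAlgebra ℤ (Γ ⧸ N))}
    (hY : mapMat (QuotientGroup.mk' N) (A ^ (M * p ^ j)) = 1 + (p ^ 2) • Y) (m : ℕ)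
    (hm : j ≤ m) :
    ∃ c : O, (mapRep τ A).det ^ (M * p ^ m) =
      1 + (trf (fun g => (τ g).trace) (A ^ (M * p ^ m)) - (n : O) * (Fintype.card κ : O)) +
        (p : O) ^ (2 * (m - j) + 4) * c := by
  set C := A ^ (M * p ^ j) with hC
  have h1 : mapMat (QuotientGroup.mk' N) (C - 1) = (p ^ 2) • Y := by
    rw [map_sub, map_one, hY]
    abel
  have h2 : ∀ x y : Fin n × κ, (p : O) ^ 2 ∣ (mapRep τ C - 1) x y := by
    intro x y
    have e1 : (mapRep τ C - 1) x y = mapHom τ ((C - 1) x.1 y.1) x.2 y.2 := by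
      rw [Matrix.sub_apply, ← mapRep_one (ι := Fin n) τ, mapRep_apply, mapRep_apply,
        Matrix.sub_apply C 1, map_sub, Matrix.sub_apply]
    rw [e1]
    refine close_dvd τ N hτ (y := Y x.1 y.1) ?_ x.2 y.2
    have e2 := congrFun (congrFun h1 x.1) y.1
    exact e2
  choose X0 hX0 using h2
  have h3 : mapRep τ C = 1 + (p ^ 2) • (Matrix.of X0) := by
    ext x y
    have e1 := hX0 x y
    rw [Matrix.sub_apply] at e1
    rw [Matrix.add_apply, Matrix.smul_apply, Matrix.of_apply, nsmul_eq_mul, Nat.cast_pow, ← e1]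
    ring
  obtain ⟨Z, -, hZ, -⟩ := exists_seq p h3
  obtain ⟨r, rfl⟩ : ∃ r, m = j + r := ⟨m - j, by omega⟩
  have hr : j + r - j = r := by omega
  have h4 : mapRep τ (A ^ (M * p ^ (j + r))) = 1 + (p ^ (r + 2)) • Z r := by
    have e1 : A ^ (M * p ^ (j + r)) = C ^ (p ^ r) := by
      rw [hC, ← pow_mul, pow_add, mul_assoc]
    rw [e1, mapRep_pow, hZ]
  obtain ⟨c, hc⟩ := det_one_add_nsmul (p ^ (r + 2)) (Z r)
  refine ⟨c, ?_⟩
  have h5 : trf (fun g => (τ g).trace) (A ^ (M * p ^ (j + r))) =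
      (n : O) * (Fintype.card κ : O) + (p : O) ^ (r + 2) * (Z r).trace := by
    have e1 : trf (fun g => (τ g).trace) (A ^ (M * p ^ (j + r))) =
        (mapRep τ (A ^ (M * p ^ (j + r)))).trace := by
      rw [trace_mapRep, trf]
    rw [e1, h4, Matrix.trace_add, Matrix.trace_one, Matrix.trace_smul, Fintype.card_prod,
      Fintype.card_fin, nsmul_eq_mul]
    push_cast
    ring
  rw [← Matrix.det_pow, ← mapRep_pow, h4, hc, h5, hr]
  push_cast
  ring

section powers

variable {O : Type*} [CommRing O]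

lemma close_sum {p : ℕ} {u v : O} (hu : (p : O) ^ 2 ∣ u - 1) (hv : (p : O) ^ 2 ∣ v - 1)
    (M : ℕ) : ∃ w : O, u ^ M - v ^ M = (u - v) * ((M : O) + (p : O) ^ 2 * w) := by
  have hone : ∀ u : O, (p : O) ^ 2 ∣ u - 1 → ∀ m : ℕ, (p : O) ^ 2 ∣ u ^ m - 1 := by
    intro u hu m
    exact hu.trans (by simpa using sub_dvd_pow_sub_pow u 1 m)
  have h1 : (p : O) ^ 2 ∣ (∑ i ∈ Finset.range M, u ^ i * v ^ (M - 1 - i)) - (M : O) := by
    have e : (∑ i ∈ Finset.range M, u ^ i * v ^ (M - 1 - i)) - (M : O) =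
        ∑ i ∈ Finset.range M, (u ^ i * v ^ (M - 1 - i) - 1) := by
      rw [Finset.sum_sub_distrib]
      simp
    rw [e]
    refine Finset.dvd_sum fun i _ => ?_
    have e2 : u ^ i * v ^ (M - 1 - i) - 1 =
        (u ^ i - 1) * v ^ (M - 1 - i) + (v ^ (M - 1 - i) - 1) := by ring
    rw [e2]
    exact dvd_add (Dvd.dvd.mul_right (hone u hu i) _) (hone v hv _)
  obtain ⟨w, hw⟩ := h1
  refine ⟨w, ?_⟩
  rw [← hw, ← (Commute.all u v).geom_sum₂_mul M]
  ring

lemma close_pow {p : ℕ} {u v : O} (hu : (p : O) ^ 2 ∣ u - 1) (hv : (p : O) ^ 2 ∣ v - 1)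
    (r : ℕ) : ∃ w : O, u ^ (p ^ r) - v ^ (p ^ r) = (p : O) ^ r * (u - v) * (1 + (p : O) * w) := by
  have hone : ∀ u : O, (p : O) ^ 2 ∣ u - 1 → ∀ m : ℕ, (p : O) ^ 2 ∣ u ^ m - 1 := by
    intro u hu m
    exact hu.trans (by simpa using sub_dvd_pow_sub_pow u 1 m)
  induction r with
  | zero => exact ⟨0, by simp⟩
  | succ r ih =>
    obtain ⟨w, hw⟩ := ih
    obtain ⟨w', hw'⟩ := close_sum (hone u hu (p ^ r)) (hone v hv (p ^ r)) p
    refine ⟨w + w' + p * w * w', ?_⟩
    rw [pow_succ p r, pow_mul, pow_mul, hw', hw]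
    ring

end powers

/-- Units of `W` whose suitable powers are close are equal up to a root of unity. Proof: by
`exists_pow_one_mod` there is `K` with `a ^ K` and `b ^ K` both `1` modulo `p ^ 2`; put
`u = a ^ K`, `v = b ^ K`; `(u ^ M) ^ (p ^ m) - (v ^ M) ^ (p ^ m) = p ^ m (u ^ M - v ^ M) (1 + p w)`
(see the proof of `eq_of_close`), so `p ^ s` divides `u ^ M - v ^ M = (u - v) (M + p w')`, so
it divides `u - v`, for all `s`; by `psep_val` `u = v`. -/
theorem eq_of_close_powers {p : ℕ} (hp : p.Prime) (W : ValuationSubring Qbar)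
    (hpW : ¬ IsUnit ((p : ℕ) : W)) {a b : W} (ha : IsUnit a) (hb : IsUnit b)
    (h : ∀ s : ℕ, ∃ M : ℕ, ¬ p ∣ M ∧ ∃ m : ℕ,
      (p : W) ^ (m + s) ∣ a ^ (M * p ^ m) - b ^ (M * p ^ m)) :
    ∃ K : ℕ, 0 < K ∧ a ^ K = b ^ K := by
  obtain ⟨Ka, hKa, hKa'⟩ := exists_pow_one_mod W hp hpW ha
  obtain ⟨Kb, hKb, hKb'⟩ := exists_pow_one_mod W hp hpW hb
  have hone : ∀ u : W, (p : W) ^ 2 ∣ u - 1 → ∀ m : ℕ, (p : W) ^ 2 ∣ u ^ m - 1 := by
    intro u hu m
    exact hu.trans (by simpa using sub_dvd_pow_sub_pow u 1 m)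
  refine ⟨Ka * Kb, Nat.mul_pos hKa hKb, ?_⟩
  set u := a ^ (Ka * Kb) with hu
  set v := b ^ (Ka * Kb) with hv
  have hu1 : (p : W) ^ 2 ∣ u - 1 := by
    rw [hu, pow_mul]; exact hone _ hKa' Kb
  have hv1 : (p : W) ^ 2 ∣ v - 1 := by
    rw [hv, mul_comm Ka, pow_mul]; exact hone _ hKb' Ka
  have hp0 : (p : W) ≠ 0 := by
    intro h0
    have h1 : ((p : W) : Qbar) = ((0 : W) : Qbar) := by rw [h0]
    have h2 : ((p : ℕ) : Qbar) = 0 := by simpa using h1
    exact hp.ne_zero (Nat.cast_eq_zero.mp h2)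
  have hadd : ∀ x y : W, IsUnit x → ¬ IsUnit y → IsUnit (x + y) := by
    intro x y hx hy
    by_contra hxy
    have h1 : x ∈ nonunits W := by
      have h2 := IsLocalRing.nonunits_add (a := x + y) (b := -y) hxy
        (fun h => hy (by simpa using h.neg))
      simpa using h2
    exact h1 hx
  have hpmul : ∀ w : W, ¬ IsUnit ((p : W) * w) := fun w hw => hpW (isUnit_of_mul_isUnit_left hw)
  have hdiff : u - v = 0 := by
    apply psep_val W hp hpW
    intro s
    obtain ⟨M, hM, m, hdvd⟩ := h s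
    have h1 : (p : W) ^ (m + s) ∣ u ^ (M * p ^ m) - v ^ (M * p ^ m) := by
      have e1 : u ^ (M * p ^ m) - v ^ (M * p ^ m) =
          (a ^ (M * p ^ m)) ^ (Ka * Kb) - (b ^ (M * p ^ m)) ^ (Ka * Kb) := by
        rw [hu, hv, ← pow_mul, ← pow_mul, ← pow_mul, ← pow_mul, mul_comm (Ka * Kb)]
      rw [e1]
      exact hdvd.trans (sub_dvd_pow_sub_pow _ _ _)
    obtain ⟨w, hw⟩ := close_pow (hone u hu1 M) (hone v hv1 M) m
    obtain ⟨w', hw'⟩ := close_sum hu1 hv1 M
    rw [pow_mul, pow_mul, hw, hw', pow_add] at h1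
    have e2 : (p : W) ^ m * ((u - v) * ((M : W) + (p : W) ^ 2 * w')) * (1 + (p : W) * w) =
        (p : W) ^ m * ((u - v) * (((M : W) + (p : W) ^ 2 * w') * (1 + (p : W) * w))) := by ring
    rw [e2] at h1
    have h2 := (mul_dvd_mul_iff_left (pow_ne_zero m hp0)).mp h1
    have hU : IsUnit (((M : W) + (p : W) ^ 2 * w') * (1 + (p : W) * w)) := by
      refine IsUnit.mul (hadd _ _ (isUnit_natCast_val W hp hpW hM) ?_)
        (hadd _ _ isUnit_one (hpmul w))
      have e3 : (p : W) ^ 2 * w' = (p : W) * ((p : W) * w') := by ring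
      rw [e3]
      exact hpmul _
    exact (hU.dvd_mul_right).mp h2
  exact sub_eq_zero.mp hdiff

end Pool.Agent.Lib.MP_8f66f0_al_Plus
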