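import Mathlib
import Pool.Agent.Lib.MP_8f66f0_al_Plus.Spec

/-! Exponents. -/

set_option autoImplicit false
set_option linter.unusedSectionVars false

namespace Pool.Agent.Lib.MP_8f66f0_al_Plus

open Pool.Agent.Lib.MP_8f66f0_al_Dennis Pool.Agent.Lib.MP_8f66f0_al_FinQ

/-- An element of the integral group ring vanishing modulo `q` is divisible by `q`. -/
theorem expo_ker {Q : Type*} [Group Q] (q : ℕ) (x : MonoidAlgebra ℤ Q)
    (hx : MonoidAlgebra.mapRingHom Q (Int.castRingHom (ZMod q)) x = 0) :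
    ∃ y : MonoidAlgebra ℤ Q, x = q • y := by
  have hc : ∀ g, (q : ℤ) ∣ x.coeff g := by
    intro g
    have h1 := congrArg (fun z : MonoidAlgebra (ZMod q) Q => z.coeff g) hx
    simp only [MonoidAlgebra.coeff_mapRingHom, MonoidAlgebra.coeff_zero, Finsupp.coe_zero,
      Pi.zero_apply, eq_intCast] at h1
    exact (ZMod.intCast_zmod_eq_zero_iff_dvd (x.coeff g) q).mp h1
  refine ⟨MonoidAlgebra.ofCoeff (x.coeff.mapRange (fun a : ℤ => a / (q : ℤ)) (by simp)), ?_⟩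
  apply MonoidAlgebra.ext
  ext g
  have h2 : x.coeff g = (q : ℤ) * (x.coeff g / (q : ℤ)) := (Int.mul_ediv_cancel' (hc g)).symm
  rw [MonoidAlgebra.coeff_smul, Finsupp.smul_apply, MonoidAlgebra.coeff_ofCoeff,
    Finsupp.mapRange_apply, nsmul_eq_mul]
  exact h2

/-- Over a finite quotient some power of `A` is `1` modulo `p ^ 2`; its exponent is `M * p ^ j`
with `M` prime to `p`. (Units of the finite ring of matrices over `(ZMod (p ^ 2))[Γ ⧸ N]`.) -/
theorem exists_exponent {Γ : Type*} [Group Γ] {n : ℕ}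
    {A B : Matrix (Fin n) (Fin n) (MonoidAlgebra ℤ Γ)} (hAB : A * B = 1) (hBA : B * A = 1)
    {p : ℕ} (hp : p.Prime) (N : Subgroup Γ) [N.Normal] [N.FiniteIndex] :
    ∃ M j : ℕ, 0 < M ∧ ¬ p ∣ M ∧ ∃ Y : Matrix (Fin n) (Fin n) (MonoidAlgebra ℤ (Γ ⧸ N)),
      mapMat (QuotientGroup.mk' N) (A ^ (M * p ^ j)) = 1 + (p ^ 2) • Y := by
  have : NeZero (p ^ 2) := ⟨pow_ne_zero _ hp.ne_zero⟩
  have : Finite (Γ ⧸ N) := inferInstance
  have : Finite (MonoidAlgebra (ZMod (p ^ 2)) (Γ ⧸ N)) :=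
    Finite.of_injective (fun x : MonoidAlgebra (ZMod (p ^ 2)) (Γ ⧸ N) =>
      (fun g => x.coeff g : (Γ ⧸ N) → ZMod (p ^ 2)))
      (fun x y h => MonoidAlgebra.ext (Finsupp.ext fun g => congrFun h g))
  have : Finite (Matrix (Fin n) (Fin n) (MonoidAlgebra (ZMod (p ^ 2)) (Γ ⧸ N))) :=
    inferInstanceAs (Finite (Fin n → Fin n → MonoidAlgebra (ZMod (p ^ 2)) (Γ ⧸ N)))
  set φ : Matrix (Fin n) (Fin n) (MonoidAlgebra ℤ Γ) →+*
      Matrix (Fin n) (Fin n) (MonoidAlgebra (ZMod (p ^ 2)) (Γ ⧸ N)) :=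
    ((MonoidAlgebra.mapRingHom (Γ ⧸ N) (Int.castRingHom (ZMod (p ^ 2)))).mapMatrix).comp
      (mapMat (QuotientGroup.mk' N)) with hφ
  let u : (Matrix (Fin n) (Fin n) (MonoidAlgebra (ZMod (p ^ 2)) (Γ ⧸ N)))ˣ :=
    ⟨φ A, φ B, by rw [← map_mul, hAB, map_one], by rw [← map_mul, hBA, map_one]⟩
  have he : 0 < orderOf u := orderOf_pos u
  obtain ⟨j, M, hM, hjM⟩ := Nat.exists_eq_pow_mul_and_not_dvd he.ne' p hp.ne_one
  have hM0 : 0 < M := by
    rcases Nat.eq_zero_or_pos M with h | h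
    · exact absurd (h ▸ dvd_zero p) hM
    · exact h
  refine ⟨M, j, hM0, hM, ?_⟩
  have h1 : φ (A ^ (M * p ^ j)) = 1 := by
    have h2 : u ^ (M * p ^ j) = 1 := by
      rw [mul_comm, ← hjM]; exact pow_orderOf_eq_one u
    have h3 := congrArg (Units.val) h2
    rw [Units.val_pow_eq_pow_val, Units.val_one] at h3
    rw [map_pow]
    exact h3
  set X := mapMat (QuotientGroup.mk' N) (A ^ (M * p ^ j)) with hX
  have h4 : ∀ i k, ∃ y : MonoidAlgebra ℤ (Γ ⧸ N), (X - 1) i k = (p ^ 2) • y := by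
    intro i k
    apply expo_ker
    have h5 : (MonoidAlgebra.mapRingHom (Γ ⧸ N) (Int.castRingHom (ZMod (p ^ 2)))).mapMatrix
        (X - 1) = 0 := by
      rw [map_sub, map_one, sub_eq_zero]
      exact h1
    have h6 := congrFun (congrFun h5 i) k
    simpa [RingHom.mapMatrix_apply, Matrix.map_apply] using h6
  choose Y hY using h4
  refine ⟨Matrix.of Y, ?_⟩
  have h7 : X - 1 = (p ^ 2) • Matrix.of Y := by
    ext1 i k
    rw [hY, Matrix.smul_apply, Matrix.of_apply]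
  rw [← h7]; abel

end Pool.Agent.Lib.MP_8f66f0_al_Plus
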