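import Mathlib
import Pool.Agent.Lib.MP_8f66f0_al_FinQ.Abs

/-! Powers of matrices and of units congruent to one modulo `p ^ 2`. -/

set_option autoImplicit false
set_option linter.unusedSectionVars false

namespace Pool.Agent.Lib.MP_8f66f0_al_Plus

open Pool.Agent.Lib.MP_8f66f0_al_FinQ

section trace

variable {O : Type*} [CommRing O] {κ : Type*} [Fintype κ] [DecidableEq κ]

/-- Traces and determinants of `p`-power powers. -/
lemma trace_pow_eq_det {p : ℕ} {X Z0 : Matrix κ κ O} (hX : X = 1 + (p ^ 2) • Z0) (m : ℕ) :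
    ∃ c : O, (X ^ (p ^ m)).trace =
      (Fintype.card κ : O) - 1 + X.det ^ (p ^ m) + (p : O) ^ (2 * m + 4) * c := by
  obtain ⟨Z, -, hZ, -⟩ := exists_seq p hX
  obtain ⟨c, hc⟩ := det_one_add_nsmul (p ^ (m + 2)) (Z m)
  refine ⟨-c, ?_⟩
  rw [← Matrix.det_pow, hZ m, hc, Matrix.trace_add, Matrix.trace_one, Matrix.trace_smul,
    nsmul_eq_mul]
  push_cast
  ring

end trace

section units

variable {O : Type*} [CommRing O]

lemma pow_prime_pow_sub_one {p : ℕ} (hJ : ∀ t : O, IsUnit (1 + (p : O) * t)) {w : O}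
    (hw : (p : O) ^ 2 ∣ w - 1) (m : ℕ) :
    ∃ u : O, IsUnit u ∧ w ^ (p ^ m) - 1 = (w - 1) * (p : O) ^ m * u := by
  induction m with
  | zero => exact ⟨1, isUnit_one, by ring⟩
  | succ m ih =>
    obtain ⟨u, hu, h⟩ := ih
    obtain ⟨z, hz⟩ := hw
    obtain ⟨W, hW⟩ := one_add_pow_expand ((w - 1) * (p : O) ^ m * u) p
    refine ⟨u * (1 + (p : O) * (z * (p : O) ^ m * u * W)), hu.mul (hJ _), ?_⟩
    have h1 : w ^ (p ^ m) = 1 + (w - 1) * (p : O) ^ m * u := by rw [← h]; ring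
    have h2 : w - 1 = (p : O) ^ 2 * z := hz
    have h3 : w ^ (p ^ (m + 1)) = (w ^ (p ^ m)) ^ p := by rw [pow_succ, pow_mul]
    rw [h3, h1, hW, nsmul_eq_mul]
    have h4 : (w - 1) * (p : O) ^ m * u * ((w - 1) * (p : O) ^ m * u) * W =
        (w - 1) * (p : O) ^ m * u * ((p : O) ^ 2 * z * (p : O) ^ m * u * W) := by
      conv_lhs => rw [mul_assoc ((w - 1) * (p : O) ^ m * u)]
      congr 1
      rw [h2]
    rw [h4]
    ring

lemma pow_coprime_sub_one {p : ℕ} (hJ : ∀ t : O, IsUnit (1 + (p : O) * t)) {w : O}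
    (hw : (p : O) ∣ w - 1) {M : ℕ} (hM : Nat.Coprime M p) :
    ∃ u : O, IsUnit u ∧ w ^ M - 1 = (w - 1) * u := by
  obtain ⟨z, hz⟩ := hw
  obtain ⟨W, hW⟩ := one_add_pow_expand (w - 1) M
  refine ⟨(M : O) + (w - 1) * W, ?_, ?_⟩
  · obtain ⟨a, b, hab⟩ : ∃ a b : ℤ, (M : ℤ) * a + p * b = 1 := by
      have h := Nat.isCoprime_iff_coprime.mpr hM
      obtain ⟨a, b, hab⟩ := h
      exact ⟨a, b, by linarith⟩
    have h1 : ((M : O) + (w - 1) * W) * a = 1 + (p : O) * (z * W * a - b) := by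
      have h2 : (M : O) * a + p * b = 1 := by exact_mod_cast congrArg (Int.cast : ℤ → O) hab
      rw [hz]
      linear_combination h2
    have h3 := hJ (z * W * a - b)
    rw [← h1] at h3
    exact isUnit_of_mul_isUnit_left h3
  · have h1 : (1 + (w - 1)) ^ M = w ^ M := by congr 1; ring
    rw [h1] at hW
    rw [hW, nsmul_eq_mul]
    ring

/-- If a power of `w` is close to one then so is `w`. -/
lemma dvd_of_pow_close [IsDomain O] [CharZero O] {p : ℕ} (hp : p.Prime)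
    (hJ : ∀ t : O, IsUnit (1 + (p : O) * t)) {w : O} (hw : (p : O) ^ 2 ∣ w - 1) {M : ℕ}
    (hM : Nat.Coprime M p) {m J : ℕ} (h : (p : O) ^ (m + J) ∣ w ^ (M * p ^ m) - 1) :
    (p : O) ^ J ∣ w - 1 := by
  have hp0 : (p : O) ≠ 0 := Nat.cast_ne_zero.mpr hp.ne_zero
  have hw1 : (p : O) ^ 2 ∣ w ^ M - 1 := hw.trans (by simpa using sub_dvd_pow_sub_pow w 1 M)
  obtain ⟨u, hu, h1⟩ := pow_prime_pow_sub_one hJ hw1 m
  obtain ⟨u', hu', h2⟩ := pow_coprime_sub_one hJ ((dvd_pow_self _ two_ne_zero).trans hw) hM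
  rw [pow_mul, h1, h2, pow_add] at h
  have h3 : (p : O) ^ m * (p : O) ^ J ∣ (p : O) ^ m * ((w - 1) * (u' * u)) := by
    have e : (p : O) ^ m * ((w - 1) * (u' * u)) = (w - 1) * u' * (p : O) ^ m * u := by ring
    rwa [e]
  have h4 := (mul_dvd_mul_iff_left (pow_ne_zero m hp0)).mp h3
  exact (hu'.mul hu).dvd_mul_right.mp h4

/-- The group of elements congruent to one modulo `p ^ 2` has no torsion. -/
lemma eq_one_of_pow_eq_one [IsDomain O] [CharZero O] {p : ℕ} (hp : p.Prime)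
    (hJ : ∀ t : O, IsUnit (1 + (p : O) * t)) {w : O} (hw : (p : O) ^ 2 ∣ w - 1) {N : ℕ}
    (hN : 0 < N) (h : w ^ N = 1) : w = 1 := by
  have hp0 : (p : O) ≠ 0 := Nat.cast_ne_zero.mpr hp.ne_zero
  obtain ⟨m, M, hM, hNM⟩ := Nat.exists_eq_pow_mul_and_not_dvd hN.ne' p hp.ne_one
  have hcop : Nat.Coprime M p := ((Nat.Prime.coprime_iff_not_dvd hp).mpr hM).symm
  have hw1 : (p : O) ^ 2 ∣ w ^ M - 1 := hw.trans (by simpa using sub_dvd_pow_sub_pow w 1 M)
  obtain ⟨u, hu, h1⟩ := pow_prime_pow_sub_one hJ hw1 m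
  obtain ⟨u', hu', h2⟩ := pow_coprime_sub_one hJ ((dvd_pow_self _ two_ne_zero).trans hw) hcop
  rw [← pow_mul, mul_comm M, ← hNM, h, h2, sub_self] at h1
  rcases mul_eq_zero.mp h1.symm with h3 | h3
  · rcases mul_eq_zero.mp h3 with h4 | h4
    · rcases mul_eq_zero.mp h4 with h5 | h5
      · exact sub_eq_zero.mp h5
      · exact absurd h5 hu'.ne_zero
    · exact absurd h4 (pow_ne_zero m hp0)
  · exact absurd h3 hu.ne_zero

end units

section integral

variable {O : Type*} [CommRing O] {κ : Type*} [Fintype κ] [DecidableEq κ]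

lemma finite_quotient_of_finite {S : Type*} [CommRing S] [Module.Finite ℤ S] {q : ℕ}
    (hq : 0 < q) : Finite (S ⧸ Ideal.span {(q : S)}) := by
  have h1 : Module.Finite ℤ (S ⧸ Ideal.span {(q : S)}) := by
    refine Module.Finite.of_surjective
      ((Ideal.Quotient.mk (Ideal.span {(q : S)})).toIntAlgHom.toLinearMap) ?_
    exact Ideal.Quotient.mk_surjective
  refine Module.finite_of_fg_torsion (S ⧸ Ideal.span {(q : S)}) ?_
  intro x
  refine ⟨⟨(q : ℤ), ?_⟩, ?_⟩
  · exact mem_nonZeroDivisors_of_ne_zero (by exact_mod_cast hq.ne')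
  · obtain ⟨y, rfl⟩ := Ideal.Quotient.mk_surjective x
    change (q : ℤ) • (Ideal.Quotient.mk (Ideal.span {(q : S)})) y = 0
    rw [zsmul_eq_mul, Int.cast_natCast, ← map_natCast (Ideal.Quotient.mk _) q, ← map_mul,
      Ideal.Quotient.eq_zero_iff_mem]
    exact Ideal.mul_mem_right _ _ (Ideal.mem_span_singleton_self _)

/-- An invertible matrix with integral entries has some power congruent to one modulo `q`. -/
lemma exists_pow_cong {Y Y' : Matrix κ κ O} (hY : ∀ i j, IsIntegral ℤ (Y i j))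
    (hYY : Y' * Y = 1) {q : ℕ} (hq : 0 < q) : ∃ E : ℕ, 0 < E ∧ ∃ Z, Y ^ E = 1 + q • Z := by
  classical
  set T : Finset O := Finset.univ.image fun x : κ × κ => Y x.1 x.2 with hT
  set S : Subalgebra ℤ O := Algebra.adjoin ℤ (T : Set O) with hS
  have hfin : Module.Finite ℤ S := by
    refine Algebra.finite_adjoin_of_finite_of_isIntegral (Finset.finite_toSet T) ?_
    intro x hx
    obtain ⟨y, -, rfl⟩ := Finset.mem_image.mp (Finset.mem_coe.mp hx)
    exact hY _ _
  have hmem : ∀ i j, Y i j ∈ S := fun i j => Algebra.subset_adjoin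
    (Finset.mem_coe.mpr (Finset.mem_image.mpr ⟨(i, j), Finset.mem_univ _, rfl⟩))
  set YS : Matrix κ κ S := Matrix.of fun i j => ⟨Y i j, hmem i j⟩ with hYS
  have hfq : Finite (S ⧸ Ideal.span {(q : S)}) := finite_quotient_of_finite hq
  obtain ⟨a, b, hab, h⟩ := Finite.exists_ne_map_eq_of_infinite
    (fun m : ℕ => (YS ^ m).map (Ideal.Quotient.mk (Ideal.span {(q : S)})))
  have key : ∀ a b : ℕ, a < b → (YS ^ a).map (Ideal.Quotient.mk (Ideal.span {(q : S)})) =
      (YS ^ b).map (Ideal.Quotient.mk (Ideal.span {(q : S)})) →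
      ∃ E : ℕ, 0 < E ∧ ∃ Z, Y ^ E = 1 + q • Z := by
    intro a b hab h
    have h1 : ∀ i j, ∃ z : S, (YS ^ b) i j = (YS ^ a) i j + (q : S) * z := by
      intro i j
      have h2 := congrFun (congrFun h i) j
      rw [Matrix.map_apply, Matrix.map_apply, Eq.comm, Ideal.Quotient.eq,
        Ideal.mem_span_singleton] at h2
      obtain ⟨z, hz⟩ := h2
      exact ⟨z, by rw [← hz]; ring⟩
    choose z hz using h1
    have hYmap : ∀ m : ℕ, (YS ^ m).map S.val = Y ^ m := by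
      intro m
      have h3 : (S.val.mapMatrix : Matrix κ κ S →ₐ[ℤ] Matrix κ κ O) (YS ^ m) =
          ((S.val.mapMatrix : Matrix κ κ S →ₐ[ℤ] Matrix κ κ O) YS) ^ m := map_pow _ _ _
      exact h3
    have h4 : Y ^ b = Y ^ a + q • Matrix.of fun i j => (z i j : O) := by
      rw [← hYmap, ← hYmap]
      ext i j
      rw [Matrix.map_apply, Matrix.add_apply, Matrix.map_apply, Matrix.smul_apply, Matrix.of_apply,
        hz i j, nsmul_eq_mul]
      simp
    refine ⟨b - a, by omega, Y' ^ a * Matrix.of fun i j => (z i j : O), ?_⟩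
    have h5 : Y' ^ a * Y ^ a = 1 := by
      have hc : Commute Y' Y := hYY.trans (mul_eq_one_comm.mp hYY).symm
      rw [← hc.mul_pow, hYY, one_pow]
    have h6 : Y ^ b = Y ^ a * Y ^ (b - a) := by rw [← pow_add]; congr 1; omega
    calc Y ^ (b - a) = Y' ^ a * Y ^ a * Y ^ (b - a) := by rw [h5, one_mul]
      _ = Y' ^ a * Y ^ b := by rw [mul_assoc, ← h6]
      _ = _ := by rw [h4, mul_add, h5, mul_smul_comm]
  rcases lt_or_gt_of_ne hab with h1 | h1
  · exact key a b h1 h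
  · exact key b a h1 h.symm

end integral

end Pool.Agent.Lib.MP_8f66f0_al_Plus
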