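import Mathlib
import Pool.Agent.Lib.MP_8f66f0_al_Plus.Spec
import Pool.Agent.Lib.MP_8f66f0_al_Plus.ClassFun
import Pool.Agent.Lib.MP_8f66f0_al_Plus.Powers
import Pool.Agent.Lib.MP_8f66f0_al_Plus.CharId

/-! The estimate at a finite level. -/

set_option autoImplicit false
set_option linter.unusedSectionVars false

namespace Pool.Agent.Lib.MP_8f66f0_al_Plus

open Pool.Agent.Lib.MP_8f66f0_al_Dennis Pool.Agent.Lib.MP_8f66f0_al_FinQ

section comp

variable {Γ Q O : Type*} [Group Γ] [Group Q] [CommRing O] {ι κ : Type*} [Fintype ι]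
  [DecidableEq ι] [Fintype κ] [DecidableEq κ]

/-- A representation of a quotient, applied to the image of a matrix. -/
lemma mapRep_mapMat (π : Γ →* Q) (σ : Q →* Matrix κ κ O) (X : Matrix ι ι (MonoidAlgebra ℤ Γ)) :
    mapRep σ (mapMat π X) = mapRep (σ.comp π) X := by
  ext x y
  rw [mapRep_apply, mapRep_apply]
  have h1 : ∀ z : MonoidAlgebra ℤ Γ, mapHom σ (MonoidAlgebra.mapDomainRingHom ℤ π z) =
      mapHom (σ.comp π) z := by
    intro z
    induction z using MonoidAlgebra.induction_linear with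
    | zero => rw [map_zero, map_zero, map_zero]
    | add z z' hz hz' => rw [map_add, map_add, map_add, hz, hz']
    | single g a =>
      rw [MonoidAlgebra.mapDomainRingHom_apply, MonoidAlgebra.mapDomain_single, mapHom, mapHom,
        MonoidAlgebra.lift_single, MonoidAlgebra.lift_single]
      rfl
  exact congrFun (congrFun (h1 (X x.1 y.1)) x.2) y.2

lemma mapRep_add (σ : Γ →* Matrix κ κ O) (X Y : Matrix ι ι (MonoidAlgebra ℤ Γ)) :
    mapRep σ (X + Y) = mapRep σ X + mapRep σ Y := by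
  ext x y
  rw [Matrix.add_apply, mapRep_apply, mapRep_apply, mapRep_apply, Matrix.add_apply, map_add]
  rfl

lemma mapRep_nsmul (σ : Γ →* Matrix κ κ O) (m : ℕ) (X : Matrix ι ι (MonoidAlgebra ℤ Γ)) :
    mapRep σ (m • X) = m • mapRep σ X := by
  ext x y
  rw [Matrix.smul_apply, mapRep_apply, mapRep_apply, Matrix.smul_apply, map_nsmul]
  rfl

end comp

section val

lemma isUnit_one_add_mul (W : ValuationSubring Qbar) {p : ℕ} (hpW : ¬ IsUnit ((p : ℕ) : W))
    (t : W) : IsUnit (1 + ((p : ℕ) : W) * t) := by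
  have h1 : ((p : ℕ) : W) * t ∈ IsLocalRing.maximalIdeal W :=
    Ideal.mul_mem_right _ _ ((IsLocalRing.mem_maximalIdeal _).mpr hpW)
  by_contra h2
  have h3 : 1 + ((p : ℕ) : W) * t ∈ IsLocalRing.maximalIdeal W :=
    (IsLocalRing.mem_maximalIdeal _).mpr h2
  have h4 := (IsLocalRing.maximalIdeal W).sub_mem h3 h1
  rw [add_sub_cancel_right] at h4
  exact (IsLocalRing.mem_maximalIdeal _).mp h4 isUnit_one

lemma charZero_val (W : ValuationSubring Qbar) : CharZero W :=
  ⟨fun a b h => by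
    have := congrArg (Subtype.val) h
    simpa using this⟩

lemma exists_primitive_val (W : ValuationSubring Qbar) (m : ℕ) (hm : 0 < m) :
    ∃ ζ : W, IsPrimitiveRoot ζ m := by
  have : NeZero m := ⟨hm.ne'⟩
  obtain ⟨z, hz⟩ := HasEnoughRootsOfUnity.exists_primitiveRoot Qbar m
  have hzW : z ∈ W := by
    rw [← ValuationSubring.valuation_le_one_iff]
    have h1 : W.valuation z ^ m = 1 := by
      rw [← map_pow, hz.pow_eq_one, map_one]
    exact (pow_le_one_iff_of_nonneg zero_le hm.ne').mp h1.le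
  refine ⟨⟨z, hzW⟩, ?_⟩
  exact IsPrimitiveRoot.of_map_of_injective (f := W.subtype) hz Subtype.val_injective

end val

/-- Let `V = A ^ M` be such that `V ^ (p ^ j)` is `1` modulo `p ^ 2` over the finite quotient
`Γ ⧸ N`, and let `h` be a class function on `Γ ⧸ N`. Then `p ^ (2 (m - j) + 4)` divides
`|Γ ⧸ N| (tr_h (V ^ (p ^ m)) - n h(1))`. Proof: `|Γ ⧸ N| h` is a combination of the characters of
monomial representations `β` (`exists_char_identity`). For such `β` we have
`β (V ^ (p ^ j)) = 1 + p ^ 2 Y'`, and `det β(V) ^ (p ^ j)` is a root of unity (`hT`) congruent to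
`1` modulo `p ^ 2`, hence `1`; so `tr β (V ^ (p ^ m)) = n dim β + p ^ (2 (m - j) + 4) c`. -/
theorem fin_level {Γ : Type*} [Group Γ] {n : ℕ}
    {A B : Matrix (Fin n) (Fin n) (MonoidAlgebra ℤ Γ)} (_hAB : A * B = 1) {p : ℕ} (hp : p.Prime)
    (W : ValuationSubring Qbar) (hpW : ¬ IsUnit ((p : ℕ) : W)) (N : Subgroup Γ) [N.Normal]
    [N.FiniteIndex] (hT : MonT W A) {M j : ℕ}
    {Y : Matrix (Fin n) (Fin n) (MonoidAlgebra ℤ (Γ ⧸ N))}
    (hY : mapMat (QuotientGroup.mk' N) (A ^ (M * p ^ j)) = 1 + (p ^ 2) • Y)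
    (h : Γ ⧸ N → W) (hh : IsClassFn h) (m : ℕ) (hm : j ≤ m) :
    (p : W) ^ (2 * (m - j) + 4) ∣ (Nat.card (Γ ⧸ N) : W) *
      (trf (fun g => h (QuotientGroup.mk' N g)) (A ^ (M * p ^ m)) - (n : W) * h 1) := by
  classical
  have hfin : Finite (Γ ⧸ N) := inferInstance
  have hft : ∀ C : Subgroup (Γ ⧸ N), Fintype ((Γ ⧸ N) ⧸ C) := fun C => Fintype.ofFinite _
  have hchar : CharZero W := charZero_val W
  obtain ⟨J, _, C, ψ, c, hJ⟩ := exists_char_identity (exists_primitive_val W) h hh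
  -- the estimate for monomial representations
  have key : ∀ t : J, ∃ e : W,
      trf (fun g => (monRep (indCocycle_isMonCocycle (C t) (ψ t)) (QuotientGroup.mk' N g)).trace)
        (A ^ (M * p ^ m)) =
      (n : W) * (monRep (indCocycle_isMonCocycle (C t) (ψ t)) 1).trace +
        (p : W) ^ (2 * (m - j) + 4) * e := by
    intro t
    set β := monRep (indCocycle_isMonCocycle (C t) (ψ t)) with hβ
    set σ := β.comp (QuotientGroup.mk' N) with hσ
    have h1 : mapRep σ (A ^ (M * p ^ j)) = 1 + (p ^ 2) • mapRep β Y := by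
      rw [hσ, ← mapRep_mapMat, hY, mapRep_add, mapRep_one, mapRep_nsmul]
    have h2 : mapRep σ (A ^ (M * p ^ m)) = (mapRep σ (A ^ (M * p ^ j))) ^ (p ^ (m - j)) := by
      rw [← mapRep_pow, ← pow_mul, mul_assoc, ← pow_add]
      congr 4
      omega
    obtain ⟨e, he⟩ := trace_pow_eq_det h1 (m - j)
    -- the determinant is one
    have h3 : (mapRep σ (A ^ (M * p ^ j))).det = 1 := by
      obtain ⟨K, hK0, hK⟩ := hT N (C t) (ψ t)
      have h4 : (p : W) ^ 2 ∣ (mapRep σ (A ^ (M * p ^ j))).det - 1 := by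
        obtain ⟨d, hd⟩ := det_one_add_nsmul (p ^ 2) (mapRep β Y)
        rw [h1, hd]
        refine ⟨(mapRep β Y).trace + (p : W) ^ 2 * d, ?_⟩
        push_cast
        ring
      refine eq_one_of_pow_eq_one hp (isUnit_one_add_mul W hpW) h4 hK0 ?_
      rw [mapRep_pow, Matrix.det_pow, ← pow_mul, mul_comm, pow_mul, hK, one_pow]
    refine ⟨e, ?_⟩
    have h5 : trf (fun g => (β (QuotientGroup.mk' N g)).trace) (A ^ (M * p ^ m)) =
        (mapRep σ (A ^ (M * p ^ m))).trace := (trace_mapRep σ _).symm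
    rw [h5, h2, he, h3, one_pow, map_one, Matrix.trace_one, Fintype.card_prod, Fintype.card_fin]
    push_cast
    ring
  choose e he using key
  -- summation
  have h1 : (Nat.card (Γ ⧸ N) : W) *
      trf (fun g => h (QuotientGroup.mk' N g)) (A ^ (M * p ^ m)) =
      ∑ t, c t * trf (fun g => (monRep (indCocycle_isMonCocycle (C t) (ψ t))
        (QuotientGroup.mk' N g)).trace) (A ^ (M * p ^ m)) := by
    change _ * zl _ _ = ∑ t, c t * zl _ _
    rw [← zl_mul, ← zl_sum]
    congr 2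
    funext g
    exact hJ _
  have h2 := hJ 1
  rw [mul_sub, h1]
  have h3 : (Nat.card (Γ ⧸ N) : W) * ((n : W) * h 1) = ∑ t, c t * ((n : W) *
      (monRep (indCocycle_isMonCocycle (C t) (ψ t)) 1).trace) := by
    calc (Nat.card (Γ ⧸ N) : W) * ((n : W) * h 1) = (n : W) * ((Nat.card (Γ ⧸ N) : W) * h 1) := by
          ring
      _ = _ := by
        rw [h2, Finset.mul_sum]
        refine Finset.sum_congr rfl fun t _ => ?_
        ring
  rw [h3, ← Finset.sum_sub_distrib]
  refine Finset.dvd_sum fun t _ => ?_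
  rw [← mul_sub, he t, add_sub_cancel_left]
  exact Dvd.dvd.mul_left (Dvd.intro _ rfl) _

end Pool.Agent.Lib.MP_8f66f0_al_Plus
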