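import Mathlib
import Pool.Agent.Lib.MP_8f66f0_al_Plus.Spec
import Pool.Agent.Lib.MP_8f66f0_al_Plus.LocAux

/-! Induced representations and their triangular form modulo the maximal ideal. -/

set_option autoImplicit false
set_option linter.unusedSectionVars false

namespace Pool.Agent.Lib.MP_8f66f0_al_Plus

open Pool.Agent.Lib.MP_8f66f0_al_Dennis Pool.Agent.Lib.MP_8f66f0_al_FinQ

section indrep

variable {Γ Q : Type*} [Group Γ] [Group Q] {O : Type*} [CommRing O] {κ : Type*} [Fintype κ]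
  [DecidableEq κ]

/-- The conjugate of a representation. -/
noncomputable def conjRep (T T' : Matrix κ κ O) (hT : T * T' = 1) (ρ : Γ →* Matrix κ κ O) :
    Γ →* Matrix κ κ O where
  toFun g := T' * ρ g * T
  map_one' := by rw [map_one, mul_one, mul_eq_one_comm.mp hT]
  map_mul' g h := by
    rw [map_mul]
    calc T' * (ρ g * ρ h) * T = T' * ρ g * 1 * (ρ h) * T := by simp only [mul_assoc, one_mul]
      _ = T' * ρ g * T * (T' * ρ h * T) := by rw [← hT]; simp only [mul_assoc]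

lemma conjRep_apply (T T' : Matrix κ κ O) (hT : T * T' = 1) (ρ : Γ →* Matrix κ κ O) (g : Γ) :
    conjRep T T' hT ρ g = T' * ρ g * T := rfl

lemma trace_conjRep (T T' : Matrix κ κ O) (hT : T * T' = 1) (ρ : Γ →* Matrix κ κ O) (g : Γ) :
    (conjRep T T' hT ρ g).trace = (ρ g).trace := by
  rw [conjRep_apply, Matrix.trace_mul_comm, ← mul_assoc, hT, one_mul]

/-- The representation induced from the preimage of `C` of the restriction of `τ`. -/
noncomputable def indRep (π : Γ →* Q) (C : Subgroup Q) [Fintype (Q ⧸ C)] [DecidableEq (Q ⧸ C)]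
    (s : Q ⧸ C → Γ) (τ : Γ →* Matrix κ κ O) :
    Γ →* Matrix ((Q ⧸ C) × κ) ((Q ⧸ C) × κ) O where
  toFun g := Matrix.of fun x y =>
    if x.1 = π g • y.1 then τ ((s x.1)⁻¹ * g * s y.1) x.2 y.2 else 0
  map_one' := by
    ext x y
    rw [Matrix.of_apply, map_one, one_smul, Matrix.one_apply]
    by_cases h : x.1 = y.1
    · rw [if_pos h, h, mul_one, inv_mul_cancel, map_one, Matrix.one_apply]
      by_cases h2 : x.2 = y.2
      · rw [if_pos h2, if_pos (Prod.ext h h2)]
      · rw [if_neg h2, if_neg fun h3 => h2 (by rw [h3])]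
    · rw [if_neg h, if_neg fun h3 => h (by rw [h3])]
  map_mul' g h := by
    ext x y
    rw [Matrix.mul_apply, Fintype.sum_prod_type, Finset.sum_eq_single (π h • y.1)]
    · simp only [Matrix.of_apply, if_true]
      rw [map_mul, mul_smul]
      by_cases h1 : x.1 = π g • π h • y.1
      · simp only [if_pos h1]
        rw [← Matrix.mul_apply, ← map_mul]
        group
      · simp only [if_neg h1, zero_mul, Finset.sum_const_zero]
    · intro z _ hz
      refine Finset.sum_eq_zero fun b _ => ?_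
      simp only [Matrix.of_apply]
      rw [if_neg hz, mul_zero]
    · intro h'
      exact absurd (Finset.mem_univ _) h'

lemma indRep_apply (π : Γ →* Q) (C : Subgroup Q) [Fintype (Q ⧸ C)] [DecidableEq (Q ⧸ C)]
    (s : Q ⧸ C → Γ) (τ : Γ →* Matrix κ κ O) (g : Γ) (x y : (Q ⧸ C) × κ) :
    indRep π C s τ g x y =
      if x.1 = π g • y.1 then τ ((s x.1)⁻¹ * g * s y.1) x.2 y.2 else 0 := rfl

lemma trace_indRep (π : Γ →* Q) (C : Subgroup Q) [Fintype (Q ⧸ C)] [DecidableEq (Q ⧸ C)]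
    (s : Q ⧸ C → Γ) (τ : Γ →* Matrix κ κ O) (g : Γ) :
    (indRep π C s τ g).trace =
      (∑ w : Q ⧸ C, if w = π g • w then (1 : O) else 0) * (τ g).trace := by
  rw [Matrix.trace, Fintype.sum_prod_type, Finset.sum_mul]
  refine Finset.sum_congr rfl fun w _ => ?_
  simp only [Matrix.diag_apply, indRep_apply]
  by_cases h : w = π g • w
  · simp only [if_pos h, one_mul]
    have e : (s w)⁻¹ * g * s w = (s w)⁻¹ * g * ((s w)⁻¹)⁻¹ := by rw [inv_inv]
    exact (trace_isConj τ (isConj_iff.mpr ⟨(s w)⁻¹, e.symm⟩)).symm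
  · simp only [if_neg h, zero_mul, Finset.sum_const_zero]

/-- The direct sum of monomial representations. -/
noncomputable def diagMon (C : Subgroup Q) [Fintype (Q ⧸ C)] [DecidableEq (Q ⧸ C)]
    (χ : κ → (C →* O)) : Q →* Matrix ((Q ⧸ C) × κ) ((Q ⧸ C) × κ) O where
  toFun g := Matrix.blockDiagonal fun a => monRep (indCocycle_isMonCocycle C (χ a)) g
  map_one' := by
    simp only [map_one]
    exact Matrix.blockDiagonal_one
  map_mul' g h := by
    simp only [map_mul]
    exact Matrix.blockDiagonal_mul _ _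

lemma diagMon_apply (C : Subgroup Q) [Fintype (Q ⧸ C)] [DecidableEq (Q ⧸ C)]
    (χ : κ → (C →* O)) (g : Q) (x y : (Q ⧸ C) × κ) :
    diagMon C χ g x y = if x.2 = y.2 then (if x.1 = g • y.1 then indCocycle C (χ x.2) g y.1 else 0)
      else 0 := rfl

lemma trace_diagMon (C : Subgroup Q) [Fintype (Q ⧸ C)] [DecidableEq (Q ⧸ C)]
    (χ : κ → (C →* O)) (g : Q) :
    (diagMon C χ g).trace = ∑ a, (monRep (indCocycle_isMonCocycle C (χ a)) g).trace := by
  change (Matrix.blockDiagonal fun a => monRep (indCocycle_isMonCocycle C (χ a)) g).trace = _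
  exact Matrix.trace_blockDiagonal _

lemma trace_regMon [Fintype Q] [DecidableEq Q] (q : Q) (hq : q ≠ 1) :
    (regMon O Q q).trace = 0 := by
  rw [Matrix.trace]
  refine Finset.sum_eq_zero fun x _ => ?_
  change (if x = q * x then (1 : O) else 0) = 0
  rw [if_neg]
  intro h
  exact hq (mul_eq_right.mp h.symm)

end indrep

section triangular

variable {k : Type*} [CommRing k] {n : ℕ}

lemma tri_mul {M N : Matrix (Fin n) (Fin n) k} (hM : ∀ i j, j < i → M i j = 0)
    (hN : ∀ i j, j < i → N i j = 0) : ∀ i j, j < i → (M * N) i j = 0 := by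
  intro i j hij
  rw [Matrix.mul_apply]
  refine Finset.sum_eq_zero fun c _ => ?_
  by_cases h : c < i
  · rw [hM i c h, zero_mul]
  · rw [hN c j (lt_of_lt_of_le hij (not_lt.mp h)), mul_zero]

lemma tri_mul_diag {M N : Matrix (Fin n) (Fin n) k} (hM : ∀ i j, j < i → M i j = 0)
    (hN : ∀ i j, j < i → N i j = 0) (i : Fin n) : (M * N) i i = M i i * N i i := by
  rw [Matrix.mul_apply, Finset.sum_eq_single i]
  · intro c _ hc
    rcases lt_or_gt_of_ne hc with h | h
    · rw [hM i c h, zero_mul]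
    · rw [hN c i h, mul_zero]
  · intro h; exact absurd (Finset.mem_univ _) h

lemma tri_pow {M : Matrix (Fin n) (Fin n) k} (hM : ∀ i j, j < i → M i j = 0) (r : ℕ) :
    (∀ i j, j < i → (M ^ r) i j = 0) ∧ ∀ i, (M ^ r) i i = M i i ^ r := by
  induction r with
  | zero =>
    refine ⟨fun i j h => ?_, fun i => ?_⟩
    · rw [pow_zero, Matrix.one_apply_ne h.ne']
    · rw [pow_zero, Matrix.one_apply_eq, pow_zero]
  | succ r ih =>
    refine ⟨?_, fun i => ?_⟩
    · rw [pow_succ]; exact tri_mul ih.1 hM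
    · rw [pow_succ, tri_mul_diag ih.1 hM, ih.2, pow_succ]

end triangular

section updown

variable {Γ : Type*} [Group Γ] {O : Type*} [CommRing O] {κ : Type*} [Fintype κ] [DecidableEq κ]
  {ι : Type*} [Fintype ι] [DecidableEq ι]

lemma up_twist {I : Ideal O} (β : Γ →* Matrix κ κ O) (lev : κ → ℕ) {d : ℕ}
    (h : ∀ g x y, β g x y ∉ I → lev x + d ≤ lev y) (A : Matrix ι ι (MonoidAlgebra ℤ Γ)) :
    Up I (fun x : ι × κ => lev x.2) d (twist β A) := by
  intro x y g hg
  rw [twist_apply, coeff_twHom] at hg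
  exact h g _ _ fun h' => hg (I.mul_mem_left _ h')

lemma up_twist_sub {I : Ideal O} (β β' : Γ →* Matrix κ κ O) (lev : κ → ℕ) {d : ℕ}
    (h : ∀ g x y, β g x y - β' g x y ∉ I → lev x + d ≤ lev y)
    (A : Matrix ι ι (MonoidAlgebra ℤ Γ)) :
    Up I (fun x : ι × κ => lev x.2) d (twist β A - twist β' A) := by
  intro x y g hg
  rw [Matrix.sub_apply, MonoidAlgebra.coeff_sub, Finsupp.sub_apply, twist_apply, twist_apply,
    coeff_twHom, coeff_twHom, ← mul_sub] at hg
  exact h g _ _ fun h' => hg (I.mul_mem_left _ h')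

lemma nilMod_twist [IsDomain O] {p : ℕ} (hp0 : (p : O) ≠ 0) {I : Ideal O}
    (hI : ∀ x ∈ I, ∃ r : ℕ, (p : O) ∣ x ^ r) (β β' : Γ →* Matrix κ κ O) (lev : κ → ℕ) (L : ℕ)
    (hL : ∀ x, lev x < L) (h0 : ∀ g x y, β' g x y ∉ I → lev x ≤ lev y)
    (h1 : ∀ g x y, β g x y - β' g x y ∉ I → lev x + 1 ≤ lev y)
    {A B : Matrix ι ι (MonoidAlgebra ℤ Γ)} (hBA : B * A = 1) :
    NilMod p (twist β' B * twist β A - 1) := by
  have e : twist β' B * twist β A - 1 = twist β' B * (twist β A - twist β' A) := by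
    rw [mul_sub, ← map_mul (twist β'), hBA, map_one]
  have hY : Up I (fun x : ι × κ => lev x.2) 1 (twist β' B * twist β A - 1) := by
    rw [e]
    have h2 := (up_twist β' lev (d := 0) h0 B).mul (up_twist_sub β β' lev h1 A)
    rwa [zero_add] at h2
  refine nilMod_of_coeffIn hp0 hI (m := L) fun x y g => ?_
  by_contra hg
  have h3 := hY.pow L x y g hg
  have h4 := hL y.2
  change lev x.2 + L ≤ lev y.2 at h3
  omega

end updown

section residue

open IsLocalRing

/-- Triangular form of the restriction to a cyclic subgroup, modulo the maximal ideal. -/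
lemma exists_cyclic_characters {Γ Q : Type*} [Group Γ] [Group Q] [Finite Q] {R : Type*}
    [CommRing R] [IsLocalRing R]
    (htri : ∀ {k : ℕ} (M : Matrix (Fin k) (Fin k) R), ∃ T T' : Matrix (Fin k) (Fin k) R,
      T * T' = 1 ∧ T' * T = 1 ∧ ∀ i j, j < i → (T' * M * T) i j ∈ maximalIdeal R)
    (hroot : ∀ {m : ℕ}, 0 < m → ∀ μ : ResidueField R, μ ^ m = 1 →
      ∃ ζ : R, ζ ^ m = 1 ∧ residue R ζ = μ) {k : ℕ} (ρ : Γ →* Matrix (Fin k) (Fin k) R)
    (π : Γ →* Q) (hπ : Function.Surjective π)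
    (hN : ∀ x, π x = 1 → ∀ i j, (ρ x - 1) i j ∈ maximalIdeal R) (C : Subgroup Q) [IsCyclic C] :
    ∃ (T T' : Matrix (Fin k) (Fin k) R) (hT : T * T' = 1) (χ : Fin k → (C →* R)),
      ∀ y (hy : π y ∈ C), (∀ i j, j < i → conjRep T T' hT ρ y i j ∈ maximalIdeal R) ∧
        ∀ i, conjRep T T' hT ρ y i i - χ i ⟨π y, hy⟩ ∈ maximalIdeal R := by
  obtain ⟨b0, hb0⟩ := IsCyclic.exists_generator (α := C)
  obtain ⟨b', hb'⟩ := hπ (b0 : Q)
  obtain ⟨T, T', hT, hT', htr⟩ := htri (ρ b')
  set τ := conjRep T T' hT ρ with hτ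
  set φ : Matrix (Fin k) (Fin k) R →+* Matrix (Fin k) (Fin k) (ResidueField R) :=
    (residue R).mapMatrix with hφ
  have hφa : ∀ M i j, φ M i j = residue R (M i j) := fun M i j => rfl
  have hres : ∀ x : R, x ∈ maximalIdeal R ↔ residue R x = 0 := fun x =>
    (residue_eq_zero_iff x).symm
  have hφN : ∀ x, π x = 1 → φ (ρ x) = 1 := by
    intro x hx
    rw [← sub_eq_zero, ← map_one φ, ← map_sub]
    ext i j
    rw [hφa, (hres _).mp (hN x hx i j)]
    rfl
  have hφN' : ∀ x, π x = 1 → φ (τ x) = 1 := by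
    intro x hx
    rw [hτ, conjRep_apply, map_mul, map_mul, hφN x hx, mul_one, ← map_mul, hT', map_one]
  set D := φ (τ b') with hD
  have hDtri : ∀ i j, j < i → D i j = 0 := by
    intro i j hij
    rw [hD, hφa]
    exact (hres _).mp (htr i j hij)
  have hpos : 0 < orderOf b0 := orderOf_pos b0
  have hDpow : D ^ orderOf b0 = 1 := by
    rw [hD, ← map_pow, ← map_pow]
    apply hφN'
    rw [map_pow, hb', ← Subgroup.coe_pow, pow_orderOf_eq_one, Subgroup.coe_one]
  have hDdiag : ∀ i, D i i ^ orderOf b0 = 1 := by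
    intro i
    rw [← (tri_pow hDtri (orderOf b0)).2 i, hDpow, Matrix.one_apply_eq]
  choose ζ hζ1 hζ2 using fun i => hroot hpos (D i i) (hDdiag i)
  have hU : ∀ i, ∃ u : Rˣ, (u : R) = ζ i := fun i =>
    ⟨⟨ζ i, ζ i ^ (orderOf b0 - 1), by rw [← pow_succ', Nat.sub_add_cancel hpos, hζ1],
      by rw [← pow_succ, Nat.sub_add_cancel hpos, hζ1]⟩, rfl⟩
  choose u hu using hU
  have hdvd : ∀ i, orderOf (u i) ∣ orderOf b0 := by
    intro i
    refine orderOf_dvd_of_pow_eq_one (Units.ext ?_)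
    rw [Units.val_pow_eq_pow_val, hu, hζ1, Units.val_one]
  set χ : Fin k → (C →* R) := fun i =>
    (Units.coeHom R).comp (monoidHomOfForallMemZpowers hb0 (hdvd i)) with hχ
  have hχ0 : ∀ i, χ i b0 = ζ i := by
    intro i
    rw [hχ]
    change ((monoidHomOfForallMemZpowers hb0 (hdvd i) b0 : Rˣ) : R) = ζ i
    rw [monoidHomOfForallMemZpowers_apply_gen, hu]
  refine ⟨T, T', hT, χ, fun y hy => ?_⟩
  obtain ⟨r, hr⟩ := (mem_powers_iff_mem_zpowers.mpr (hb0 ⟨π y, hy⟩) :
    (⟨π y, hy⟩ : C) ∈ Submonoid.powers b0)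
  beta_reduce at hr
  have hφy : φ (τ y) = D ^ r := by
    have h1 : y = b' ^ r * ((b' ^ r)⁻¹ * y) := by group
    have h2 : π ((b' ^ r)⁻¹ * y) = 1 := by
      rw [map_mul, map_inv, map_pow, hb', ← Subgroup.coe_pow, hr, inv_mul_cancel]
    rw [h1, map_mul, map_mul, hφN' _ h2, mul_one, map_pow, map_pow]
  obtain ⟨h3, h4⟩ := tri_pow hDtri r
  refine ⟨fun i j hij => ?_, fun i => ?_⟩
  · rw [hres, ← hφa, hφy, h3 i j hij]
  · rw [hres, map_sub, ← hφa, hφy, h4 i, ← hr, map_pow, hχ0, map_pow, hζ2, sub_self]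

end residue

end Pool.Agent.Lib.MP_8f66f0_al_Plus
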