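import Mathlib
import Pool.Agent.Lib.MP_8f66f0_al_Plus.Spec

/-! Triangular matrices. -/

set_option autoImplicit false
set_option linter.unusedSectionVars false

namespace Pool.Agent.Lib.MP_8f66f0_al_Plus

open Pool.Agent.Lib.MP_8f66f0_al_Dennis Pool.Agent.Lib.MP_8f66f0_al_FinQ

/-- The block matrix with blocks `1` and `S`. -/
def triBlk {K : Type*} [Field K] {k : ℕ} (S : Matrix (Fin k) (Fin k) K) :
    Matrix (Fin (k + 1)) (Fin (k + 1)) K :=
  Matrix.of (Fin.cons (Fin.cons 1 (fun _ => 0)) (fun i => Fin.cons 0 (S i)))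

section triBlk

variable {K : Type*} [Field K] {k : ℕ} (S S' : Matrix (Fin k) (Fin k) K)

@[simp] lemma triBlk_zero_zero : triBlk S 0 0 = 1 := rfl
@[simp] lemma triBlk_zero_succ (j : Fin k) : triBlk S 0 j.succ = 0 := rfl
@[simp] lemma triBlk_succ_zero (i : Fin k) : triBlk S i.succ 0 = 0 := rfl
@[simp] lemma triBlk_succ_succ (i j : Fin k) : triBlk S i.succ j.succ = S i j := rfl

lemma triBlk_mul : triBlk S * triBlk S' = triBlk (S * S') := by
  ext i j
  rw [Matrix.mul_apply, Fin.sum_univ_succ]
  refine Fin.cases ?_ (fun i => ?_) i <;> refine Fin.cases ?_ (fun j => ?_) j <;>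
    simp [Matrix.mul_apply]

lemma triBlk_one : triBlk (1 : Matrix (Fin k) (Fin k) K) = 1 := by
  ext i j
  refine Fin.cases ?_ (fun i => ?_) i <;> refine Fin.cases ?_ (fun j => ?_) j
  · simp
  · simp [Matrix.one_apply_ne (Fin.succ_ne_zero j).symm]
  · simp [Matrix.one_apply_ne (Fin.succ_ne_zero i)]
  · simp [Matrix.one_apply]

end triBlk

/-- A nonzero vector is the first column of an invertible matrix. -/
lemma tri_exists_first_col {K : Type*} [Field K] {k : ℕ} (w : Fin (k + 1) → K) (hw : w ≠ 0) :
    ∃ T T' : Matrix (Fin (k + 1)) (Fin (k + 1)) K, T * T' = 1 ∧ T' * T = 1 ∧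
      ∀ i, T i 0 = w i := by
  obtain ⟨i0, hi0⟩ : ∃ i, w i ≠ 0 := Function.ne_iff.1 hw
  set σ : Equiv.Perm (Fin (k + 1)) := Equiv.swap 0 i0 with hσ
  set w' : Fin (k + 1) → K := fun i => w (σ i) with hw'
  have h0 : w' 0 ≠ 0 := by
    rw [hw', hσ]
    simpa using hi0
  set N : Matrix (Fin (k + 1)) (Fin (k + 1)) K :=
    Matrix.of (fun i j => if j = 0 then w' i else if i = j then 1 else 0) with hN
  have hdet : IsUnit N.det := by
    have : N.det = w' 0 := by
      rw [Matrix.det_succ_row_zero, Finset.sum_eq_single (0 : Fin (k + 1))]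
      · have h1 : N.submatrix Fin.succ (Fin.succAbove 0) = 1 := by
          ext i j
          simp [hN, Matrix.one_apply, Fin.succ_ne_zero]
        rw [h1]
        simp [hN]
      · intro j _ hj
        have : N 0 j = 0 := by
          rw [hN]
          simp [hj, hj.symm]
        rw [this]
        ring
      · intro h
        exact absurd (Finset.mem_univ _) h
    rw [this]
    exact isUnit_iff_ne_zero.2 h0
  have hN1 : N * N⁻¹ = 1 := Matrix.mul_nonsing_inv N hdet
  have hN2 : N⁻¹ * N = 1 := Matrix.nonsing_inv_mul N hdet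
  refine ⟨N.submatrix σ id, N⁻¹.submatrix id σ, ?_, ?_, ?_⟩
  · have : N.submatrix σ id * N⁻¹.submatrix id σ = (N * N⁻¹).submatrix σ σ := by
      ext i j
      simp [Matrix.mul_apply]
    rw [this, hN1]
    exact Matrix.submatrix_one_equiv σ
  · rw [Matrix.submatrix_mul_equiv, hN2]
    exact Matrix.submatrix_id_id 1
  · intro i
    simp only [Matrix.submatrix_apply, id, hN, Matrix.of_apply, if_true, hw']
    rw [hσ, Equiv.swap_apply_self]

/-- Over an algebraically closed field every matrix is similar to an upper triangular one. -/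
theorem exists_triangular {K : Type*} [Field K] [IsAlgClosed K] {k : ℕ}
    (M : Matrix (Fin k) (Fin k) K) :
    ∃ T T' : Matrix (Fin k) (Fin k) K, T * T' = 1 ∧ T' * T = 1 ∧
      ∀ i j, j < i → (T' * M * T) i j = 0 := by
  induction k with
  | zero => exact ⟨1, 1, by simp, by simp, fun i => i.elim0⟩
  | succ k ih =>
    obtain ⟨μ, hμ⟩ := Module.End.exists_eigenvalue (Matrix.toLin' M)
    obtain ⟨w, hw⟩ := hμ.exists_hasEigenvector
    have hw0 : w ≠ 0 := hw.2
    have hMw : M.mulVec w = μ • w := by
      have := hw.apply_eq_smul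
      rwa [Matrix.toLin'_apply] at this
    obtain ⟨P, P', h1, h2, h3⟩ := tri_exists_first_col w hw0
    set A := P' * M * P with hA
    have hA0 : ∀ i : Fin k, A i.succ 0 = 0 := by
      intro i
      have e1 : ∀ l, (M * P) l 0 = μ * P l 0 := by
        intro l
        have := congrFun hMw l
        rw [Pi.smul_apply, smul_eq_mul, ← h3 l] at this
        rw [← this, Matrix.mul_apply]
        simp only [Matrix.mulVec, dotProduct, h3]
      rw [hA, Matrix.mul_assoc, Matrix.mul_apply]
      have e2 : ∑ l, P' i.succ l * (M * P) l 0 = μ * (P' * P) i.succ 0 := by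
        rw [Matrix.mul_apply, Finset.mul_sum]
        apply Finset.sum_congr rfl
        intro l _
        rw [e1 l]
        ring
      rw [e2, h2, Matrix.one_apply_ne (Fin.succ_ne_zero i), mul_zero]
    obtain ⟨S, S', g1, g2, g3⟩ := ih (Matrix.of (fun i j => A i.succ j.succ))
    refine ⟨P * triBlk S, triBlk S' * P', ?_, ?_, ?_⟩
    · calc P * triBlk S * (triBlk S' * P') = P * (triBlk S * triBlk S') * P' := by
            simp only [Matrix.mul_assoc]
        _ = 1 := by rw [triBlk_mul, g1, triBlk_one, Matrix.mul_one, h1]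
    · calc triBlk S' * P' * (P * triBlk S) = triBlk S' * (P' * P) * triBlk S := by
            simp only [Matrix.mul_assoc]
        _ = 1 := by rw [h2, Matrix.mul_one, triBlk_mul, g2, triBlk_one]
    · have e : triBlk S' * P' * M * (P * triBlk S) = triBlk S' * A * triBlk S := by
        rw [hA]
        simp only [Matrix.mul_assoc]
      rw [e]
      intro i
      refine Fin.cases ?_ (fun i => ?_) i
      · intro j hj
        exact absurd hj (Fin.not_lt_zero j)
      · intro j
        have e1 : ∀ m, (triBlk S' * A) i.succ m = ∑ l, S' i l * A l.succ m := by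
          intro m
          rw [Matrix.mul_apply, Fin.sum_univ_succ]
          simp
        refine Fin.cases ?_ (fun j => ?_) j
        · intro _
          rw [Matrix.mul_apply, Fin.sum_univ_succ]
          simp only [triBlk_zero_zero, triBlk_succ_zero, mul_zero, Finset.sum_const_zero, add_zero,
            mul_one]
          rw [e1]
          apply Finset.sum_eq_zero
          intro l _
          rw [hA0 l, mul_zero]
        · intro hj
          rw [Matrix.mul_apply, Fin.sum_univ_succ]
          simp only [triBlk_zero_succ, triBlk_succ_succ, mul_zero, zero_add]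
          have := g3 i j (Fin.succ_lt_succ_iff.1 hj)
          rw [Matrix.mul_apply] at this
          rw [← this]
          apply Finset.sum_congr rfl
          intro m _
          rw [e1, Matrix.mul_apply]
          rfl

/-- The same over a local ring with algebraically closed residue field, modulo the maximal
ideal (lift `T`; its determinant is a unit). -/
theorem exists_triangular_mod {R : Type*} [CommRing R] [IsLocalRing R]
    (hR : IsAlgClosed (IsLocalRing.ResidueField R)) {k : ℕ} (M : Matrix (Fin k) (Fin k) R) :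
    ∃ T T' : Matrix (Fin k) (Fin k) R, T * T' = 1 ∧ T' * T = 1 ∧
      ∀ i j, j < i → (T' * M * T) i j ∈ IsLocalRing.maximalIdeal R := by
  obtain ⟨S, S', h1, h2, h3⟩ := exists_triangular (M.map (IsLocalRing.residue R))
  have hlift : ∀ i j, ∃ x : R, IsLocalRing.residue R x = S i j := fun i j =>
    IsLocalRing.residue_surjective (S i j)
  choose T0 hT0 using hlift
  set T : Matrix (Fin k) (Fin k) R := Matrix.of T0 with hT
  have hTS : T.map (IsLocalRing.residue R) = S := by
    ext i j
    exact hT0 i j
  have hdet : IsUnit T.det := by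
    have e : IsLocalRing.residue R T.det = S.det := by
      rw [← hTS]
      exact RingHom.map_det (IsLocalRing.residue R) T
    have hS : IsUnit S.det := by
      rw [← Matrix.isUnit_iff_isUnit_det]
      exact IsUnit.of_mul_eq_one _ h1
    by_contra hcon
    have : T.det ∈ IsLocalRing.maximalIdeal R := (IsLocalRing.mem_maximalIdeal _).2 hcon
    rw [← IsLocalRing.residue_eq_zero_iff, e] at this
    rw [this] at hS
    exact not_isUnit_zero hS
  have hT1 : T * T⁻¹ = 1 := Matrix.mul_nonsing_inv T hdet
  have hT2 : T⁻¹ * T = 1 := Matrix.nonsing_inv_mul T hdet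
  have hT' : T⁻¹.map (IsLocalRing.residue R) = S' := by
    have e1 : T⁻¹.map (IsLocalRing.residue R) * S = 1 := by
      rw [← hTS, ← Matrix.map_mul, hT2]
      exact Matrix.map_one _ (map_zero _) (map_one _)
    calc T⁻¹.map (IsLocalRing.residue R) = T⁻¹.map (IsLocalRing.residue R) * (S * S') := by
          rw [h1, Matrix.mul_one]
      _ = S' := by rw [← Matrix.mul_assoc, e1, Matrix.one_mul]
  refine ⟨T, T⁻¹, hT1, hT2, ?_⟩
  intro i j hij
  rw [← IsLocalRing.residue_eq_zero_iff]
  have e : IsLocalRing.residue R ((T⁻¹ * M * T) i j)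
      = ((T⁻¹ * M * T).map (IsLocalRing.residue R)) i j := rfl
  rw [e, Matrix.map_mul, Matrix.map_mul, hTS, hT']
  exact h3 i j hij

end Pool.Agent.Lib.MP_8f66f0_al_Plus
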