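import Mathlib
import Pool.Agent.Lib.MP_8f66f0_al_FinQ.Monomial
import Pool.Agent.Lib.MP_8f66f0_al_Plus.Spec

import Pool.Agent.Lib.MP_8f66f0_al_Plus.Val
import Pool.Agent.Lib.MP_8f66f0_al_Plus.Tri
import Pool.Agent.Lib.MP_8f66f0_al_Plus.IndRep
import Pool.Agent.Lib.MP_8f66f0_al_Plus.ArtinStep

/-! Localization at the identity. -/

set_option autoImplicit false
set_option linter.unusedSectionVars false

namespace Pool.Agent.Lib.MP_8f66f0_al_Plus

open Pool.Agent.Lib.MP_8f66f0_al_Dennis Pool.Agent.Lib.MP_8f66f0_al_FinQ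

/-- `PropM` for arbitrary index types (reindex by `Fin`). -/
theorem PropM.apply {Γ : Type*} [Group Γ] {n p : ℕ}
    {A B : Matrix (Fin n) (Fin n) (MonoidAlgebra ℤ Γ)} (hM : PropM p A B) {O : Type} [CommRing O]
    [IsDomain O] [CharZero O] (hO : PSep O p) {κ κ' : Type*} [Fintype κ] [DecidableEq κ]
    [Fintype κ'] [DecidableEq κ'] (β β' : Γ →* Matrix κ κ O) (σ : Γ →* Matrix κ' κ' O)
    (h : NilMod p (twist β' B * twist β A - 1)) :
    ∃ N : ℕ, 0 < N ∧
      ((mapRep (tens β σ) A).det * (mapRep β' A).det ^ Fintype.card κ') ^ N =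
        ((mapRep (tens β' σ) A).det * (mapRep β A).det ^ Fintype.card κ') ^ N := by
  set e := Fintype.equivFin κ
  set e' := Fintype.equivFin κ'
  obtain ⟨N, hN0, hN⟩ := hM O hO (Fintype.card κ) (Fintype.card κ') (reRep e β) (reRep e β')
    (reRep e' σ) (by
      obtain ⟨m, W0, hW0⟩ := h
      refine ⟨m, Matrix.reindexAlgEquiv ℤ (MonoidAlgebra O Γ)
        (Equiv.prodCongr (Equiv.refl (Fin n)) e) W0, ?_⟩
      rw [twist_reRep, twist_reRep, ← map_mul, ← map_one (Matrix.reindexAlgEquiv ℤ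
        (MonoidAlgebra O Γ) (Equiv.prodCongr (Equiv.refl (Fin n)) e)), ← map_sub, ← map_pow, hW0,
        map_nsmul])
  rw [tens_reRep, tens_reRep, det_reRep, det_reRep, det_reRep, det_reRep] at hN
  exact ⟨N, hN0, hN⟩

section cyclic

open IsLocalRing

lemma det_regMon_sq {Γ Q : Type*} [Group Γ] [Group Q] [Fintype Q] [DecidableEq Q] {n : ℕ}
    {A B : Matrix (Fin n) (Fin n) (MonoidAlgebra ℤ Γ)} (hAB : A * B = 1) (R : Type*) [CommRing R]
    (π : Γ →* Q) : (mapRep ((regMon R Q).comp π) A).det ^ 2 = 1 := by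
  have h : (regMon R Q).comp π =
      ((Int.castRingHom R).mapMatrix : Matrix Q Q ℤ →+* Matrix Q Q R).toMonoidHom.comp
        ((regMon ℤ Q).comp π) := by
    ext g w' w
    change (if w' = π g * w then (1 : R) else 0) = ((if w' = π g * w then (1 : ℤ) else 0 : ℤ) : R)
    split_ifs
    · rw [Int.cast_one]
    · rw [Int.cast_zero]
  rw [h]
  exact det_int_sq hAB ((regMon ℤ Q).comp π)

/-- The cyclic step. -/
theorem cyclic_step {Γ Q : Type*} [Group Γ] [Group Q] [Fintype Q] [DecidableEq Q] {n p : ℕ}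
    {A B : Matrix (Fin n) (Fin n) (MonoidAlgebra ℤ Γ)} (hAB : A * B = 1) (hBA : B * A = 1)
    (hM : PropM p A B) {R : Type} [CommRing R] [IsDomain R] [CharZero R] [IsLocalRing R]
    (hR : PSep R p) (hp0 : (p : R) ≠ 0) (hI : ∀ x ∈ maximalIdeal R, ∃ r : ℕ, (p : R) ∣ x ^ r)
    (htri : ∀ {k : ℕ} (M : Matrix (Fin k) (Fin k) R), ∃ T T' : Matrix (Fin k) (Fin k) R,
      T * T' = 1 ∧ T' * T = 1 ∧ ∀ i j, j < i → (T' * M * T) i j ∈ maximalIdeal R)
    (hroot : ∀ {m : ℕ}, 0 < m → ∀ μ : ResidueField R, μ ^ m = 1 →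
      ∃ ζ : R, ζ ^ m = 1 ∧ residue R ζ = μ) {k : ℕ} (ρ : Γ →* Matrix (Fin k) (Fin k) R)
    (π : Γ →* Q) (hπ : Function.Surjective π)
    (hN : ∀ x, π x = 1 → ∀ i j, (ρ x - 1) i j ∈ maximalIdeal R) (C : Subgroup Q) [IsCyclic C]
    [Fintype (Q ⧸ C)] [DecidableEq (Q ⧸ C)]
    (hmon : ∀ ψ : C →* R, ∃ K : ℕ, 0 < K ∧
      (mapRep ((monRep (indCocycle_isMonCocycle C ψ)).comp π) A).det ^ K = 1) :
    ∃ (β : Γ →* Matrix ((Q ⧸ C) × Fin k) ((Q ⧸ C) × Fin k) R) (K : ℕ), 0 < K ∧
      (∀ g, (β g).trace = (∑ w : Q ⧸ C, if w = π g • w then (1 : R) else 0) * (ρ g).trace) ∧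
      (mapRep β A).det ^ (Nat.card C * K) =
        (mapRep (tens ρ ((regMon R Q).comp π)) A).det ^ K := by
  obtain ⟨T, T', hT, χ, hχ⟩ := exists_cyclic_characters htri hroot ρ π hπ hN C
  choose s hs using fun w : Q ⧸ C => hπ w.out
  set β := indRep π C s (conjRep T T' hT ρ) with hβ
  set β' : Γ →* Matrix ((Q ⧸ C) × Fin k) ((Q ⧸ C) × Fin k) R := (diagMon C χ).comp π with hβ'
  set σ := (regMon R Q).comp π with hσ
  have htr : ∀ g, (β g).trace =
      (∑ w : Q ⧸ C, if w = π g • w then (1 : R) else 0) * (ρ g).trace := by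
    intro g
    rw [hβ, trace_indRep, trace_conjRep]
  have h0 : ∀ g x y, β' g x y ∉ maximalIdeal R → (x.2 : ℕ) ≤ y.2 := by
    intro g x y h
    by_cases hxy : x.2 = y.2
    · rw [hxy]
    · exfalso
      apply h
      change diagMon C χ (π g) x y ∈ maximalIdeal R
      rw [diagMon_apply, if_neg hxy]
      exact Ideal.zero_mem _
  have h1 : ∀ g x y, β g x y - β' g x y ∉ maximalIdeal R → (x.2 : ℕ) + 1 ≤ y.2 := by
    intro g x y h
    have e' : β' g x y = if x.2 = y.2 then (if x.1 = π g • y.1 then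
      indCocycle C (χ x.2) (π g) y.1 else 0) else 0 := rfl
    rw [e', hβ, indRep_apply] at h
    by_cases hx : x.1 = π g • y.1
    · rw [if_pos hx, if_pos hx] at h
      have hmem : π ((s x.1)⁻¹ * g * s y.1) ∈ C := by
        rw [map_mul, map_mul, map_inv, hs, hs, hx]
        exact out_mem C (π g) y.1
      obtain ⟨h2, h3⟩ := hχ _ hmem
      by_cases hxy : x.2 = y.2
      · exfalso
        apply h
        rw [if_pos hxy, ← hxy]
        have e2 : indCocycle C (χ x.2) (π g) y.1 = χ x.2 ⟨π ((s x.1)⁻¹ * g * s y.1), hmem⟩ := by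
          unfold indCocycle
          congr 1
          apply Subtype.ext
          change (π g • y.1).out⁻¹ * π g * y.1.out = π ((s x.1)⁻¹ * g * s y.1)
          rw [map_mul, map_mul, map_inv, hs, hs, hx]
        rw [e2]
        exact h3 x.2
      · rw [if_neg hxy, sub_zero] at h
        by_contra hlt
        apply h
        apply h2
        rw [Fin.lt_def]
        have : (x.2 : ℕ) ≠ y.2 := fun h' => hxy (Fin.ext h')
        omega
    · exfalso
      apply h
      rw [if_neg hx, if_neg hx, ite_self, sub_zero]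
      exact Ideal.zero_mem _
  obtain ⟨N, hN0, hN1⟩ := hM.apply hR β β' σ (nilMod_twist hp0 hI β β' (fun x => (x.2 : ℕ)) k
    (fun x => x.2.2) h0 h1 hBA)
  -- the determinants
  choose Ka hKa0 hKa1 using fun a => hmon (χ a)
  set K' := ∏ a, Ka a with hK'
  have hK'0 : 0 < K' := Finset.prod_pos fun a _ => hKa0 a
  have d1 : (mapRep β' A).det ^ K' = 1 := by
    rw [det_eq_prod β' (fun a => (monRep (indCocycle_isMonCocycle C (χ a))).comp π)
      (fun g => trace_diagMon C χ (π g)) hAB, ← Finset.prod_pow]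
    refine Finset.prod_eq_one fun a _ => ?_
    obtain ⟨c, hc⟩ := Finset.dvd_prod_of_mem Ka (Finset.mem_univ a)
    rw [hK', hc, pow_mul, hKa1, one_pow]
  have hσ2 : (mapRep σ A).det ^ 2 = 1 := det_regMon_sq hAB R π
  have hone : (π (1 : Γ)) = 1 := map_one π
  have htrσ : ∀ g, π g ≠ 1 → (σ g).trace = 0 := fun g hg => trace_regMon (π g) hg
  have d2 : (mapRep (tens β' σ) A).det ^ 2 = 1 := by
    rw [det_eq_prod (tens β' σ) (J := (Q ⧸ C) × Fin k) (fun _ => σ) (fun g => by
      rw [trace_tens, Finset.sum_const, nsmul_eq_mul]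
      by_cases hg : π g = 1
      · congr 1
        change (diagMon C χ (π g)).trace = _
        rw [hg, map_one, Matrix.trace_one]
        rfl
      · rw [htrσ g hg, mul_zero, mul_zero]) hAB, ← Finset.prod_pow]
    exact Finset.prod_eq_one fun _ _ => hσ2
  have d3 : (mapRep (tens β σ) A).det = (mapRep (tens ρ σ) A).det ^ Fintype.card (Q ⧸ C) := by
    rw [det_eq_prod (tens β σ) (J := Q ⧸ C) (fun _ => tens ρ σ) (fun g => by
      rw [trace_tens, trace_tens, Finset.sum_const, nsmul_eq_mul, htr g]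
      by_cases hg : π g = 1
      · rw [hg]
        simp only [one_smul, if_true, Finset.sum_const, nsmul_eq_mul, mul_one]
        ring
      · rw [htrσ g hg, mul_zero, mul_zero, mul_zero]) hAB, Finset.prod_const]
    rfl
  have hcard : Fintype.card Q = Nat.card C * Fintype.card (Q ⧸ C) := by
    rw [← Nat.card_eq_fintype_card, ← Nat.card_eq_fintype_card (α := Q ⧸ C), mul_comm]
    exact Subgroup.card_eq_card_quotient_mul_card_subgroup C
  have hne : 0 < Fintype.card (Q ⧸ C) := Fintype.card_pos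
  refine ⟨β, Fintype.card (Q ⧸ C) * (N * (2 * K')), by positivity, htr, ?_⟩
  have h5 := congrArg (fun z => z ^ (2 * K')) hN1
  simp only [mul_pow] at h5
  have e1 : (((mapRep β' A).det ^ Fintype.card Q) ^ N) ^ (2 * K') = 1 := by
    rw [← pow_mul, ← pow_mul, show Fintype.card Q * (N * (2 * K')) =
      K' * (Fintype.card Q * N * 2) by ring, pow_mul, d1, one_pow]
  have e2 : ((mapRep (tens β' σ) A).det ^ N) ^ (2 * K') = 1 := by
    rw [← pow_mul, show N * (2 * K') = 2 * (N * K') by ring, pow_mul, d2, one_pow]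
  rw [e1, e2, mul_one, one_mul, d3] at h5
  rw [← pow_mul, ← pow_mul, ← pow_mul, ← pow_mul, hcard] at h5
  rw [h5, mul_assoc]

end cyclic

/-- Localization. Let `Q = Γ ⧸ N` and suppose that `ρ` is trivial on `N` modulo the maximal ideal.
Then `U(ρ) ^ |Q|` and `U(ρ ⊗ [Q])` agree up to a root of unity, `U(σ) = det (mapRep σ A)`.
Proof. For a cyclic subgroup `C` of `Q` with generator `b`, and an element `b'` of `Γ` over `b`,
let `T` be as in `exists_triangular_mod` for `ρ b'`; `ρ y` is congruent to `(ρ b') ^ i` modulo the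
maximal ideal when `y` maps to `b ^ i`, so `T' (ρ y) T` is upper triangular modulo the maximal
ideal for all `y` over `C`, and its diagonal entries are congruent to `χ_a(b ^ i)`, where
`χ_a : C →* W` are characters (`exists_root_lift`, `m = |C|`). With `s_x` elements of `Γ` over the
representatives of the cosets `x` in `Q ⧸ C`, let `β` be `ρ ⊗ [Q ⧸ C]` conjugated by the
block diagonal matrix with blocks `ρ(s_x) T`: its entries are
`[g x = x'] (T' ρ(s_{x'}⁻¹ g s_x) T)_{ab}`, and let `β'` be the sum over `a` of the monomial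
representations `Ind χ_a`: entries `[g x = x'] [a = b] χ_a(s_{x'}⁻¹ g s_x)`. Then
`twist β' B * twist β A - 1 = twist β' B * (twist β A - twist β' A)` is strictly upper triangular
in the indices `a, b` modulo the maximal ideal, so its `k`-th power has coefficients in the
maximal ideal and it is `NilMod p` (finitely many coefficients, `exists_dvd_pow`; see
FinQ/LemmaP.lean). `PropM.apply` with `σ = regMon`: `U([Q]β) U(β')^|Q| ~ U([Q]β') U(β)^|Q|`,
`U(β') ~ 1` by `hT`, `[Q]β'` has the character of a multiple of `[Q]`, `U([Q])^2 = 1`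
(integer matrix, `det_int_sq`), `[Q]β` has the character of `[Q:C]` copies of `ρ[Q]`
(`prod_det_mapRep`, `det_mapRep_eq_of_trace`). So `U(ρ[Q])^[Q:C] ~ U(ρ[Q/C])^|Q|`, i.e.
`U(ρ[Q/C])^|C| ~ U(ρ[Q])`. Finally `|Q| χ_ρ = ∑_C m_C |C| π_C χ_ρ` with `exists_artin` and
`card_conj'` (as in `artin_reduction`), and `∑ m_C = 1`, so `U(ρ)^|Q| ~ U(ρ[Q])`. -/
theorem localize {Γ : Type*} [Group Γ] {n p : ℕ} (hp : p.Prime)
    {A B : Matrix (Fin n) (Fin n) (MonoidAlgebra ℤ Γ)} (hAB : A * B = 1) (hBA : B * A = 1)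
    (hM : PropM p A B) (W : ValuationSubring Qbar) (hpW : ¬ IsUnit ((p : ℕ) : W))
    (hT : MonT W A) {k : ℕ} (ρ : Γ →* Matrix (Fin k) (Fin k) W) (N : Subgroup Γ) [N.Normal]
    [N.FiniteIndex] [Fintype (Γ ⧸ N)] [DecidableEq (Γ ⧸ N)]
    (hN : ∀ x ∈ N, ∀ i j, (ρ x - 1) i j ∈ IsLocalRing.maximalIdeal W) :
    ∃ K : ℕ, 0 < K ∧ (mapRep ρ A).det ^ (Fintype.card (Γ ⧸ N) * K) =
      (mapRep (tens ρ ((regMon W (Γ ⧸ N)).comp (QuotientGroup.mk' N))) A).det ^ K := by
  classical
  set π := QuotientGroup.mk' N with hπ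
  have hp0 : ((p : ℕ) : W) ≠ 0 := Nat.cast_ne_zero.mpr hp.ne_zero
  have key := artin_step π ρ hAB (mapRep (tens ρ ((regMon W (Γ ⧸ N)).comp π)) A).det
    (fun C hC => by
      have := hC
      exact cyclic_step hAB hBA hM (psep_val W hp hpW) hp0
        (fun x hx => exists_dvd_pow W hp hpW hx)
        (fun M => exists_triangular_mod (residue_algClosed W) M)
        (fun hm μ hμ => exists_root_lift W hm μ hμ) ρ π (QuotientGroup.mk'_surjective N)
        (fun x hx => hN x ((QuotientGroup.eq_one_iff x).mp hx)) C (fun ψ => hT N C ψ))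
  exact key

end Pool.Agent.Lib.MP_8f66f0_al_Plus
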