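import Mathlib
import Pool.Agent.Lib.MP_8f66f0_al_Plus.Spec
import Pool.Agent.Lib.MP_8f66f0_al_Plus.ClassFun

/-! The necklace congruence. -/

set_option autoImplicit false
set_option linter.unusedSectionVars false

namespace Pool.Agent.Lib.MP_8f66f0_al_Plus

open Pool.Agent.Lib.MP_8f66f0_al_Dennis Pool.Agent.Lib.MP_8f66f0_al_FinQ

lemma trf_eq_ztr {Γ : Type*} [Group Γ] {ι : Type*} [Fintype ι] [DecidableEq ι]
    {O : Type*} [CommRing O] (f : Γ → O) (Y : Matrix ι ι (MonoidAlgebra ℤ Γ)) :
    trf f Y = ztr f Y := rfl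

/-- The necklace congruence. Proof: write `Y` as a sum of finitely many letters
`± g E_{ij}` (a finite type of letters `l`, with sign `ε l = ± 1`, each letter occurring with
multiplicity); then `trf f (Y ^ N)` is the sum over all closed words `w : ZMod N → letters` (the
column index of `w t` is the row index of `w (t + 1)`) of `∏ ε (w t) * f (product of w)`; the
summand is invariant under the cyclic shift (`f` is a class function). For `N = p ^ (m + 1)`: the
orbits of words not fixed by the shift by `p ^ m` have `p ^ (m + 1)` elements; the words fixed by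
the shift by `p ^ m` are the `p`-th powers `u ... u` of the words `u` of length `p ^ m`, and
`f (P(u) ^ p) ∏ ε (u t) ^ p = f (P(u) ^ p) ∏ ε (u t)` as `p` is odd. -/
theorem necklace {Γ : Type*} [Group Γ] {p : ℕ} (hp : p.Prime) (hodd : p ≠ 2) {ι : Type*}
    [Fintype ι] [DecidableEq ι] (Y : Matrix ι ι (MonoidAlgebra ℤ Γ)) {O : Type*} [CommRing O]
    (f : Γ → O) (hf : IsClassFn f) (m : ℕ) :
    (p : O) ^ (m + 1) ∣ trf f (Y ^ (p ^ (m + 1))) - trf (psiF p f) (Y ^ (p ^ m)) := by
  obtain ⟨l, hl⟩ := ztr_necklace hp hodd Y m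
  refine ⟨ztr f l, ?_⟩
  rw [trf_eq_ztr, trf_eq_ztr, hl O f hf]
  exact add_sub_cancel_left _ _

end Pool.Agent.Lib.MP_8f66f0_al_Plus
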