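import Mathlib
import Pool.Agent.Lib.MP_8f66f0_al_Plus.Spec
import Pool.Agent.Lib.MP_8f66f0_al_Plus.Necklace
import Pool.Agent.Lib.MP_8f66f0_al_Plus.FinLevel

/-! The limit argument. -/

set_option autoImplicit false
set_option linter.unusedSectionVars false

namespace Pool.Agent.Lib.MP_8f66f0_al_Plus

open Pool.Agent.Lib.MP_8f66f0_al_Dennis Pool.Agent.Lib.MP_8f66f0_al_FinQ

section aux

variable {Γ : Type*} [Group Γ]

lemma isUnit_natCast_of_not_dvd (W : ValuationSubring Qbar) {p : ℕ} (hp : p.Prime)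
    (hpW : ¬ IsUnit ((p : ℕ) : W)) {r : ℕ} (hr : ¬ p ∣ r) : IsUnit ((r : ℕ) : W) := by
  have hcop : Nat.Coprime r p := ((Nat.Prime.coprime_iff_not_dvd hp).mpr hr).symm
  obtain ⟨a, b, hab⟩ := Nat.isCoprime_iff_coprime.mpr hcop
  have h1 : ((r : ℕ) : W) * (a : W) = 1 + ((p : ℕ) : W) * (-(b : W)) := by
    have h2 : (a : W) * r + b * p = 1 := by exact_mod_cast congrArg (Int.cast : ℤ → W) hab
    linear_combination h2
  have h3 := isUnit_one_add_mul W hpW (-(b : W))
  rw [← h1] at h3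
  exact isUnit_of_mul_isUnit_left h3

lemma psiF_psiF {O : Type*} (p i : ℕ) (f : Γ → O) : psiF p (psiF (p ^ i) f) = psiF (p ^ (i + 1)) f := by
  funext x
  unfold psiF
  rw [← pow_mul, pow_succ']

lemma psiF_zero {O : Type*} (p : ℕ) (f : Γ → O) : psiF (p ^ 0) f = f := by
  funext x
  unfold psiF
  rw [pow_zero, pow_one]

lemma conj_pow_classFn {O : Type*} {f : Γ → O} (hf : IsClassFn f) (m : ℕ) (g h : Γ) :
    f ((g * h) ^ m) = f ((h * g) ^ m) := by
  have h1 : (g * h) ^ m = g * ((h * g) ^ m * g⁻¹) := by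
    have h2 : g * h = g * (h * g) * g⁻¹ := by group
    rw [h2, conj_pow]
    group
  rw [h1, hf, mul_assoc, inv_mul_cancel, mul_one]

lemma psiF_classFn {O : Type*} {f : Γ → O} (hf : IsClassFn f) (m : ℕ) : IsClassFn (psiF m f) :=
  fun g h => conj_pow_classFn hf m g h

variable {ι : Type*} [Fintype ι] [DecidableEq ι] {O : Type*} [CommRing O]

lemma dvd_trf {q : O} {f : Γ → O} (hf : ∀ x, q ∣ f x) (Y : Matrix ι ι (MonoidAlgebra ℤ Γ)) :
    q ∣ trf f Y := by
  unfold trf
  rw [Finsupp.sum]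
  exact Finset.dvd_sum fun x _ => Dvd.dvd.mul_left (hf x) _

lemma trf_smul (c : O) (f : Γ → O) (Y : Matrix ι ι (MonoidAlgebra ℤ Γ)) :
    trf (fun x => c * f x) Y = c * trf f Y := zl_mul c f Y.trace

lemma trf_add (f f' : Γ → O) (Y : Matrix ι ι (MonoidAlgebra ℤ Γ)) :
    trf (fun x => f x + f' x) Y = trf f Y + trf f' Y := zl_add f f' Y.trace

/-- The necklace congruence for a multiple of a class function. -/
lemma necklace_mul [IsDomain O] {p : ℕ} (hp : p.Prime) (hodd : p ≠ 2) {q : O} (hq : q ≠ 0)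
    {f : Γ → O} (hf : IsClassFn f) (hdiv : ∀ x, q ∣ f x) (Y : Matrix ι ι (MonoidAlgebra ℤ Γ))
    (m : ℕ) : q * (p : O) ^ (m + 1) ∣
      trf f (Y ^ (p ^ (m + 1))) - trf (psiF p f) (Y ^ (p ^ m)) := by
  choose f' hf' using hdiv
  have h1 : f = fun x => q * f' x := funext hf'
  have h2 : IsClassFn f' := by
    intro g h
    have h3 := hf g h
    rw [hf', hf'] at h3
    exact mul_left_cancel₀ hq h3
  have h4 : psiF p f = fun x => q * psiF p f' x := by
    funext x
    exact hf' _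
  rw [h4, h1, trf_smul, trf_smul, ← mul_sub]
  exact mul_dvd_mul_left q (necklace hp hodd Y f' h2 m)

end aux

/-- The limit argument. Let `S_m(f) = trf f (A ^ (M p ^ m)) - n f(1)`. Then
`S_m(g) = ∑_{i < m} (S_{m-i}(ψ^{p^i} g) - S_{m-i-1}(ψ^{p^(i+1)} g)) + S_0(ψ^{p^m} g)`
(`psiF p (psiF (p ^ i) g) = psiF (p ^ (i + 1)) g`). By `necklace` for `ψ^{p^i} g = p ^ (2 i) g_i`
the `i`-th term is divisible by `p ^ (m - i + 2 i)`, enough for `i ≥ s`, and
`S_0(ψ^{p^m} g)` is divisible by `p ^ (2 m)`. For `i < s` write `g = h∘π + p ^ (2 s) r`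
(`r` a class function): the `r`-part of the `i`-th term is divisible by `p ^ (m - i + 2 s)`, and
the `h`-part times `|Γ ⧸ N|` is divisible by `p ^ (2 (m - i - 1 - j) + 4)` by `fin_level`;
`|Γ ⧸ N| = p ^ v * unit`. So `m0` of the size `3 s + 2 j + v + 10` works. -/
theorem telescope {Γ : Type*} [Group Γ] {n : ℕ}
    {A B : Matrix (Fin n) (Fin n) (MonoidAlgebra ℤ Γ)} (hAB : A * B = 1) {p : ℕ} (hp : p.Prime)
    (hodd : p ≠ 2) (W : ValuationSubring Qbar) (hpW : ¬ IsUnit ((p : ℕ) : W)) (hT : MonT W A)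
    (g : Γ → W) (hg : IsClassFn g) (hg1 : g 1 = 0)
    (hdec : ∀ (i : ℕ) (x : Γ), (p : W) ^ (2 * i) ∣ g (x ^ (p ^ i))) (s : ℕ)
    (N : Subgroup Γ) [N.Normal] [N.FiniteIndex] (h : Γ ⧸ N → W) (hh : IsClassFn h)
    (hh1 : h 1 = 0) (hloc : ∀ x : Γ, (p : W) ^ (2 * s) ∣ g x - h (QuotientGroup.mk' N x))
    {M j : ℕ} {Y : Matrix (Fin n) (Fin n) (MonoidAlgebra ℤ (Γ ⧸ N))}
    (hY : mapMat (QuotientGroup.mk' N) (A ^ (M * p ^ j)) = 1 + (p ^ 2) • Y) :
    ∃ m0 : ℕ, ∀ m : ℕ, m0 ≤ m → (p : W) ^ (m + s) ∣ trf g (A ^ (M * p ^ m)) := by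
  have hchar : CharZero W := charZero_val W
  have hp0 : (p : W) ≠ 0 := Nat.cast_ne_zero.mpr hp.ne_zero
  have hcard : Nat.card (Γ ⧸ N) ≠ 0 := Nat.card_pos.ne'
  obtain ⟨v, u, hu, hvu⟩ := Nat.exists_eq_pow_mul_and_not_dvd hcard p hp.ne_one
  have huW : IsUnit ((u : ℕ) : W) := isUnit_natCast_of_not_dvd W hp hpW hu
  refine ⟨3 * s + 2 * j + v + 10, fun m hm => ?_⟩
  set V := A ^ M with hV
  have hAV : ∀ i, A ^ (M * p ^ i) = V ^ (p ^ i) := fun i => pow_mul _ _ _
  rw [hAV]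
  set F : ℕ → W := fun i => trf (psiF (p ^ i) g) (V ^ (p ^ (m - i))) with hF
  have hF0 : F 0 = trf g (V ^ (p ^ m)) := by
    rw [hF]
    dsimp only
    rw [psiF_zero, Nat.sub_zero]
  have hsum : F 0 = F m + ∑ i ∈ Finset.range m, (F i - F (i + 1)) := by
    rw [Finset.sum_range_sub']
    ring
  rw [← hF0, hsum]
  refine dvd_add ?_ (Finset.dvd_sum fun i hi => ?_)
  · -- the last term
    refine (pow_dvd_pow (p : W) (show m + s ≤ 2 * m by omega)).trans ?_
    exact dvd_trf (fun x => hdec m x) _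
  · have him : i < m := Finset.mem_range.mp hi
    obtain ⟨l, hl⟩ : ∃ l, m - i = l + 1 := ⟨m - i - 1, by omega⟩
    have hl' : m - (i + 1) = l := by omega
    have hFi : F i - F (i + 1) = trf (psiF (p ^ i) g) (V ^ (p ^ (l + 1))) -
        trf (psiF p (psiF (p ^ i) g)) (V ^ (p ^ l)) := by
      rw [hF]
      dsimp only
      rw [hl, hl', psiF_psiF]
    rw [hFi]
    rcases Nat.lt_or_ge i s with his | his
    · -- small `i`
      set hπ : Γ → W := fun x => h (QuotientGroup.mk' N x) with hhπ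
      set r : Γ → W := fun x => g x - hπ x with hr
      have hrc : IsClassFn r := by
        intro x y
        rw [hr]
        dsimp only
        rw [hg x y, hhπ]
        dsimp only
        rw [map_mul, map_mul, hh]
      have hsplit : ∀ (e : ℕ) (Z : Matrix (Fin n) (Fin n) (MonoidAlgebra ℤ Γ)),
          trf (psiF e g) Z = trf (psiF e hπ) Z + trf (psiF e r) Z := by
        intro e Z
        rw [← trf_add]
        congr 1
        funext x
        unfold psiF
        rw [hr]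
        dsimp only
        ring
      have h1 : (p : W) ^ (m + s) ∣ trf (psiF (p ^ i) r) (V ^ (p ^ (l + 1))) -
          trf (psiF p (psiF (p ^ i) r)) (V ^ (p ^ l)) := by
        have h2 := necklace_mul hp hodd (q := (p : W) ^ (2 * s)) (pow_ne_zero _ hp0)
          (psiF_classFn hrc (p ^ i)) (fun x => hloc _) V l
        rw [← pow_add] at h2
        exact (pow_dvd_pow (p : W) (by omega)).trans h2
      -- the part from the finite quotient
      have hlev : ∀ (e a : ℕ), j ≤ a → ∃ d : W, (Nat.card (Γ ⧸ N) : W) *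
          trf (psiF e hπ) (V ^ (p ^ a)) = (p : W) ^ (2 * (a - j) + 4) * d := by
        intro e a ha
        have h3 := fin_level hAB hp W hpW N hT hY (fun x => h (x ^ e)) (fun x y => by
          exact conj_pow_classFn hh e x y) a ha
        obtain ⟨d, hd⟩ := h3
        refine ⟨d, ?_⟩
        rw [← hd, hAV]
        beta_reduce
        rw [one_pow, hh1, mul_zero, sub_zero]
        rfl
      obtain ⟨d1, hd1⟩ := hlev (p ^ i) (l + 1) (by omega)
      obtain ⟨d2, hd2⟩ := hlev (p ^ (i + 1)) l (by omega)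
      have h4 : (p : W) ^ (m + s) ∣ trf (psiF (p ^ i) hπ) (V ^ (p ^ (l + 1))) -
          trf (psiF p (psiF (p ^ i) hπ)) (V ^ (p ^ l)) := by
        rw [psiF_psiF]
        set D := trf (psiF (p ^ i) hπ) (V ^ (p ^ (l + 1))) -
          trf (psiF (p ^ (i + 1)) hπ) (V ^ (p ^ l)) with hD
        have h5 : (p : W) ^ (v + (m + s)) ∣ (Nat.card (Γ ⧸ N) : W) * D := by
          rw [hD, mul_sub, hd1, hd2]
          refine dvd_sub ?_ ?_
          · exact Dvd.dvd.mul_right (pow_dvd_pow (p : W) (by omega)) _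
          · exact Dvd.dvd.mul_right (pow_dvd_pow (p : W) (by omega)) _
        rw [hvu, pow_add] at h5
        push_cast at h5
        rw [mul_assoc] at h5
        have h6 := (mul_dvd_mul_iff_left (pow_ne_zero v hp0)).mp h5
        exact huW.dvd_mul_left.mp h6
      have h7 : trf (psiF (p ^ i) g) (V ^ (p ^ (l + 1))) -
          trf (psiF p (psiF (p ^ i) g)) (V ^ (p ^ l)) =
          (trf (psiF (p ^ i) hπ) (V ^ (p ^ (l + 1))) -
            trf (psiF p (psiF (p ^ i) hπ)) (V ^ (p ^ l))) +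
          (trf (psiF (p ^ i) r) (V ^ (p ^ (l + 1))) -
            trf (psiF p (psiF (p ^ i) r)) (V ^ (p ^ l))) := by
        rw [psiF_psiF, psiF_psiF, psiF_psiF, hsplit, hsplit]
        ring
      rw [h7]
      exact dvd_add h4 h1
    · -- large `i`
      have h1 := necklace_mul hp hodd (q := (p : W) ^ (2 * i)) (pow_ne_zero _ hp0)
        (psiF_classFn hg (p ^ i)) (fun x => hdec i x) V l
      rw [← pow_add] at h1
      exact (pow_dvd_pow (p : W) (by omega)).trans h1

end Pool.Agent.Lib.MP_8f66f0_al_Plus
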