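import Mathlib
import Pool.Agent.Lib.MP_8f66f0_al_Plus.Spec
import Pool.Agent.Lib.MP_8f66f0_al_Plus.Expo
import Pool.Agent.Lib.MP_8f66f0_al_Plus.Telescope
import Pool.Agent.Lib.MP_8f66f0_al_Plus.Close
import Pool.Agent.Lib.MP_8f66f0_al_Plus.Localize

/-! The local theorem: a representation over a valuation ring of the algebraic numbers, its
determinant representation, and the determinants of an invertible matrix in both. -/

set_option autoImplicit false
set_option linter.unusedSectionVars false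

namespace Pool.Agent.Lib.MP_8f66f0_al_Plus

open Pool.Agent.Lib.MP_8f66f0_al_Dennis Pool.Agent.Lib.MP_8f66f0_al_FinQ

section prelim

variable {Γ : Type*} [Group Γ] {O : Type*} [CommRing O] {κ : Type*} [Fintype κ] [DecidableEq κ]

lemma trf_add' {ι : Type*} [Fintype ι] (f g : Γ → O) (Y : Matrix ι ι (MonoidAlgebra ℤ Γ)) :
    trf (fun x => f x + g x) Y = trf f Y + trf g Y := by
  unfold trf
  rw [Finsupp.sum, Finsupp.sum, Finsupp.sum, ← Finset.sum_add_distrib]
  exact Finset.sum_congr rfl fun _ _ => mul_add _ _ _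

lemma trf_mul' {ι : Type*} [Fintype ι] (c : O) (f : Γ → O) (Y : Matrix ι ι (MonoidAlgebra ℤ Γ)) :
    trf (fun x => c * f x) Y = c * trf f Y := by
  unfold trf
  rw [Finsupp.sum, Finsupp.sum, Finset.mul_sum]
  exact Finset.sum_congr rfl fun _ _ => mul_left_comm _ _ _

lemma TrivMod.exists_eq {ρ : Γ →* Matrix κ κ O} {N : Subgroup Γ} {q : O} (h : TrivMod ρ N q)
    {x : Γ} (hx : x ∈ N) : ∃ Z : Matrix κ κ O, ρ x = 1 + q • Z := by
  choose Z hZ using h x hx
  refine ⟨Matrix.of Z, ?_⟩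
  ext i j
  have := hZ i j
  rw [Matrix.sub_apply] at this
  rw [Matrix.add_apply, Matrix.smul_apply, smul_eq_mul, Matrix.of_apply, ← this]
  ring

lemma TrivMod.mono {ρ : Γ →* Matrix κ κ O} {N N' : Subgroup Γ} {q q' : O} (h : TrivMod ρ N q)
    (hN : N' ≤ N) (hq : q' ∣ q) : TrivMod ρ N' q' :=
  fun x hx i j => hq.trans (h x (hN hx) i j)

lemma dvd_det_sub_one (q : O) (Z : Matrix κ κ O) : q ∣ (1 + q • Z).det - 1 := by
  rw [Matrix.det_one_add_smul]
  refine ⟨Z.trace + (Matrix.det (1 + (Polynomial.X : Polynomial O) •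
    Z.map Polynomial.C)).divX.divX.eval q * q, ?_⟩
  ring

lemma TrivMod.detRep {ρ : Γ →* Matrix κ κ O} {N : Subgroup Γ} {q : O} (h : TrivMod ρ N q) :
    TrivMod (detRep ρ) N q := by
  intro x hx i j
  obtain ⟨Z, hZ⟩ := h.exists_eq hx
  have h1 := dvd_det_sub_one q Z
  rw [← hZ] at h1
  rw [Subsingleton.elim j i, Matrix.sub_apply, Matrix.one_apply_eq]
  exact h1

lemma TrivMod.tens {κ' : Type*} [Fintype κ'] [DecidableEq κ'] {ρ : Γ →* Matrix κ κ O}
    {N : Subgroup Γ} {q : O} (h : TrivMod ρ N q) {σ : Γ →* Matrix κ' κ' O}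
    (hσ : ∀ x ∈ N, σ x = 1) : TrivMod (tens ρ σ) N q := by
  intro x hx i j
  have h1 := h x hx i.1 j.1
  have e : (MP_8f66f0_al_FinQ.tens ρ σ x - 1) i j = (ρ x - 1) i.1 j.1 * (1 : Matrix κ' κ' O) i.2 j.2 := by
    rw [Matrix.sub_apply, tens_apply, hσ x hx, Matrix.sub_apply, sub_mul]
    congr 1
    rw [Matrix.one_apply, Matrix.one_apply, Matrix.one_apply]
    by_cases h1 : i.1 = j.1
    · by_cases h2 : i.2 = j.2
      · rw [if_pos (Prod.ext h1 h2), if_pos h1, if_pos h2, one_mul]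
      · rw [if_neg (fun h => h2 (by rw [h])), if_neg h2, mul_zero]
    · rw [if_neg (fun h => h1 (by rw [h])), if_neg h1, zero_mul]
  rw [e]
  exact h1.mul_right _

lemma trivMod_of_eq_one {σ : Γ →* Matrix κ κ O} {N : Subgroup Γ} (q : O)
    (hσ : ∀ x ∈ N, σ x = 1) : TrivMod σ N q := by
  intro x hx i j
  rw [hσ x hx, sub_self]
  exact dvd_zero _

lemma dvd_trace_mul_sub {ρ : Γ →* Matrix κ κ O} {N : Subgroup Γ} {q : O} (h : TrivMod ρ N q)
    (w : Γ) {x : Γ} (hx : x ∈ N) : q ∣ (ρ (w * x)).trace - (ρ w).trace := by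
  obtain ⟨Z, hZ⟩ := h.exists_eq hx
  rw [map_mul, hZ, mul_add, mul_one, Matrix.trace_add, add_sub_cancel_left, mul_smul_comm,
    Matrix.trace_smul, smul_eq_mul]
  exact dvd_mul_right _ _

lemma dvd_det_mul_sub {ρ : Γ →* Matrix κ κ O} {N : Subgroup Γ} {q : O} (h : TrivMod ρ N q)
    (w : Γ) {x : Γ} (hx : x ∈ N) : q ∣ (ρ (w * x)).det - (ρ w).det := by
  obtain ⟨Z, hZ⟩ := h.exists_eq hx
  have h1 := dvd_det_sub_one q Z
  rw [map_mul, Matrix.det_mul, hZ]
  have e : (ρ w).det * (1 + q • Z).det - (ρ w).det = (ρ w).det * ((1 + q • Z).det - 1) := by ring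
  rw [e]
  exact h1.mul_left _

/-- The matrix of a power of `A` is one modulo `p ^ 2`. -/
lemma mapRep_pow_eq_one_add {n : ℕ} {A : Matrix (Fin n) (Fin n) (MonoidAlgebra ℤ Γ)} {p : ℕ}
    (τ : Γ →* Matrix κ κ O) (N : Subgroup Γ) [N.Normal] (hτ : TrivMod τ N ((p : O) ^ 2)) {M j : ℕ}
    {Y : Matrix (Fin n) (Fin n) (MonoidAlgebra ℤ (Γ ⧸ N))}
    (hY : mapMat (QuotientGroup.mk' N) (A ^ (M * p ^ j)) = 1 + (p ^ 2) • Y) :
    ∃ Z : Matrix (Fin n × κ) (Fin n × κ) O, mapRep τ (A ^ (M * p ^ j)) = 1 + (p ^ 2) • Z := by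
  set C := A ^ (M * p ^ j) with hC
  have h1 : mapMat (QuotientGroup.mk' N) (C - 1) = (p ^ 2) • Y := by
    rw [map_sub, map_one, hY]
    abel
  have h2 : ∀ x y : Fin n × κ, (p : O) ^ 2 ∣ (mapRep τ C - 1) x y := by
    intro x y
    have e1 : (mapRep τ C - 1) x y = mapHom τ ((C - 1) x.1 y.1) x.2 y.2 := by
      rw [Matrix.sub_apply, ← mapRep_one (ι := Fin n) τ, mapRep_apply, mapRep_apply,
        Matrix.sub_apply C 1, map_sub, Matrix.sub_apply]
    rw [e1]
    refine close_dvd τ N hτ (y := Y x.1 y.1) ?_ x.2 y.2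
    exact congrFun (congrFun h1 x.1) y.1
  choose X0 hX0 using h2
  refine ⟨Matrix.of X0, ?_⟩
  ext x y
  have e1 := hX0 x y
  rw [Matrix.sub_apply] at e1
  rw [Matrix.add_apply, Matrix.smul_apply, Matrix.of_apply, nsmul_eq_mul, Nat.cast_pow, ← e1]
  ring

/-- The second order estimate for elements trivial modulo `p ^ 2`. -/
lemma second_order {ρ : Γ →* Matrix κ κ O} {N : Subgroup Γ} {p : ℕ}
    (h : TrivMod ρ N ((p : O) ^ 2)) {y : Γ} (hy : y ∈ N) (m : ℕ) :
    (p : O) ^ (2 * m + 4) ∣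
      (ρ (y ^ (p ^ m))).trace - (Fintype.card κ : O) - (ρ (y ^ (p ^ m))).det + 1 := by
  obtain ⟨Z, hZ⟩ := h.exists_eq hy
  have hZ' : ρ y = 1 + (p ^ 2) • Z := by
    rw [hZ]
    congr 1
    ext i j
    simp [nsmul_eq_mul]
  obtain ⟨Zs, -, hZs, -⟩ := exists_seq p hZ'
  rw [map_pow, hZs m]
  obtain ⟨c, hc⟩ := det_one_add_nsmul (p ^ (m + 2)) (Zs m)
  rw [hc, Matrix.trace_add, Matrix.trace_one, Matrix.trace_smul]
  refine ⟨-c, ?_⟩
  rw [nsmul_eq_mul]
  push_cast
  ring

end prelim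

section lift

variable {Γ : Type*} [Group Γ] {O : Type*} [CommRing O]

/-- A class function which is constant modulo `q` on the cosets of a normal subgroup agrees
modulo `q` with a class function on the quotient. -/
lemma exists_level (N : Subgroup Γ) [N.Normal] (q : O) (g : Γ → O) (hg : IsClassFn g)
    (hg1 : g 1 = 0) (hgN : ∀ w, ∀ x ∈ N, q ∣ g (w * x) - g w) :
    ∃ h : Γ ⧸ N → O, IsClassFn h ∧ h 1 = 0 ∧ ∀ x : Γ, q ∣ g x - h (QuotientGroup.mk' N x) := by
  classical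
  have hex : ∀ c : ConjClasses (Γ ⧸ N), ∃ y : Γ,
      ConjClasses.mk (QuotientGroup.mk' N y) = c ∧ (c = ConjClasses.mk 1 → y = 1) := by
    intro c
    by_cases hc : c = ConjClasses.mk 1
    · exact ⟨1, by rw [hc, map_one], fun _ => rfl⟩
    · obtain ⟨d, hd⟩ := ConjClasses.exists_rep c
      obtain ⟨y, hy⟩ := QuotientGroup.mk'_surjective N d
      exact ⟨y, by rw [hy, hd], fun h => absurd h hc⟩
  choose l hl hl1 using hex
  refine ⟨fun q' => g (l (ConjClasses.mk q')), ?_, ?_, ?_⟩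
  · intro a b
    have : ConjClasses.mk (a * b) = ConjClasses.mk (b * a) := by
      rw [ConjClasses.mk_eq_mk_iff_isConj, isConj_iff]
      exact ⟨b, by group⟩
    simp only [this]
  · simp only
    rw [hl1 _ rfl, hg1]
  · intro x
    have h1 := hl (ConjClasses.mk (QuotientGroup.mk' N x))
    rw [ConjClasses.mk_eq_mk_iff_isConj, isConj_comm, isConj_iff] at h1
    obtain ⟨b, hb⟩ := h1
    obtain ⟨y, rfl⟩ := QuotientGroup.mk'_surjective N b
    set z := l (ConjClasses.mk (QuotientGroup.mk' N x)) with hz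
    have h2 : (y * x * y⁻¹)⁻¹ * z ∈ N := by
      rw [← QuotientGroup.eq]
      simpa using hb
    have h3 := hgN (y * x * y⁻¹) _ h2
    rw [mul_inv_cancel_left] at h3
    have h4 : g (y * x * y⁻¹) = g x := by
      rw [hg, inv_mul_cancel_left]
    rw [h4] at h3
    rw [← neg_sub]
    exact (dvd_neg).mpr h3

end lift

section local_

theorem plus_local {Γ : Type*} [Group Γ] {n p : ℕ} (hp : p.Prime) (hodd : p ≠ 2)
    {A B : Matrix (Fin n) (Fin n) (MonoidAlgebra ℤ Γ)} (hAB : A * B = 1) (hBA : B * A = 1)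
    (hM : PropM p A B) (W : ValuationSubring Qbar) (hpW : ¬ IsUnit ((p : ℕ) : W))
    (hT : MonT W A) {k : ℕ} (ρ : Γ →* Matrix (Fin k) (Fin k) W)
    (hρ : ∀ t : ℕ, ∃ N : Subgroup Γ, N.Normal ∧ N.FiniteIndex ∧ TrivMod ρ N ((p : W) ^ t)) :
    ∃ K : ℕ, 0 < K ∧ (mapRep ρ A).det ^ K = (mapRep (detRep ρ) A).det ^ K := by
  classical
  obtain ⟨N1, hN1n, hN1f, hN1⟩ := hρ 2
  have hp0 : (p : W) ≠ 0 := Nat.cast_ne_zero.mpr hp.ne_zero
  haveI : Fintype (Γ ⧸ N1) := Fintype.ofFinite _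
  set reg : Γ →* Matrix (Γ ⧸ N1) (Γ ⧸ N1) W :=
    (regMon W (Γ ⧸ N1)).comp (QuotientGroup.mk' N1) with hreg
  have hreg1 : ∀ x ∈ N1, reg x = 1 := by
    intro x hx
    rw [hreg, MonoidHom.comp_apply]
    have : QuotientGroup.mk' N1 x = 1 := (QuotientGroup.eq_one_iff x).mpr hx
    rw [this, map_one]
  have htrreg : ∀ x, (reg x).trace = if x ∈ N1 then (Fintype.card (Γ ⧸ N1) : W) else 0 := by
    intro x
    rw [hreg, MonoidHom.comp_apply, Matrix.trace]
    have h1 : ∀ q : Γ ⧸ N1, (regMon W (Γ ⧸ N1) (QuotientGroup.mk' N1 x)).diag q =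
        if x ∈ N1 then 1 else 0 := by
      intro q
      rw [Matrix.diag_apply]
      change (if q = QuotientGroup.mk' N1 x * q then (1 : W) else 0) = _
      refine if_congr ?_ rfl rfl
      rw [eq_comm, mul_eq_right]
      exact QuotientGroup.eq_one_iff x
    rw [Finset.sum_congr rfl fun q _ => h1 q]
    split_ifs
    · simp
    · simp
  -- the order of the quotient
  set q := Fintype.card (Γ ⧸ N1) with hq
  have hq0 : q ≠ 0 := Fintype.card_ne_zero
  obtain ⟨v, q', hq', hqv⟩ := Nat.exists_eq_pow_mul_and_not_dvd hq0 p hp.ne_one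
  -- the class function
  set g0 : Γ → W := fun x => if x ∈ N1 then (ρ x).trace - (k : W) - (ρ x).det + 1 else 0
    with hg0
  set g : Γ → W := fun x => (p : W) ^ (2 * v) * g0 x with hg
  have hmem : ∀ x y : Γ, x * y ∈ N1 ↔ y * x ∈ N1 := fun x y => hN1n.mem_comm_iff
  have hg0c : IsClassFn g0 := by
    intro x y
    simp only [hg0]
    refine if_congr (hmem x y) ?_ rfl
    rw [map_mul, map_mul, Matrix.trace_mul_comm, Matrix.det_mul_comm]
  have hgc : IsClassFn g := fun x y => by simp only [hg, hg0c x y]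
  have hg01 : g0 1 = 0 := by
    simp only [hg0]
    rw [if_pos N1.one_mem, map_one, Matrix.trace_one, Matrix.det_one, Fintype.card_fin]
    ring
  have hg1 : g 1 = 0 := by simp only [hg, hg01, mul_zero]
  have hdec : ∀ (i : ℕ) (x : Γ), (p : W) ^ (2 * i) ∣ g (x ^ (p ^ i)) := by
    intro i x
    by_cases hi : i ≤ v
    · exact (pow_dvd_pow _ (by omega)).trans (dvd_mul_right _ _)
    · push Not at hi
      by_cases hx : x ^ (p ^ i) ∈ N1
      · have hxq : (QuotientGroup.mk' N1 x) ^ (p ^ i) = 1 := by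
          rw [← map_pow]; exact (QuotientGroup.eq_one_iff _).mpr hx
        have hxq2 : (QuotientGroup.mk' N1 x) ^ q = 1 := by rw [hq]; exact pow_card_eq_one
        have hgcd : (QuotientGroup.mk' N1 x) ^ (p ^ v) = 1 := by
          have h1 := orderOf_dvd_of_pow_eq_one hxq
          have h2 := orderOf_dvd_of_pow_eq_one hxq2
          obtain ⟨e, he, hoe⟩ := (Nat.dvd_prime_pow hp).mp h1
          rw [hoe] at h2
          have h3 : p ^ e ∣ p ^ v := by
            rw [hqv] at h2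
            exact (Nat.Coprime.pow_left e ((Nat.Prime.coprime_iff_not_dvd hp).mpr hq')).dvd_of_dvd_mul_right h2
          exact orderOf_dvd_iff_pow_eq_one.mp (hoe ▸ h3)
        have hy : x ^ (p ^ v) ∈ N1 := by
          rw [← map_pow] at hgcd
          exact (QuotientGroup.eq_one_iff _).mp hgcd
        have e1 : x ^ (p ^ i) = (x ^ (p ^ v)) ^ (p ^ (i - v)) := by
          rw [← pow_mul, ← pow_add, Nat.add_sub_cancel' hi.le]
        have h4 := second_order hN1 hy (i - v)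
        rw [← e1, Fintype.card_fin] at h4
        simp only [hg, hg0]
        rw [if_pos hx]
        have e2 : (p : W) ^ (2 * i) ∣ (p : W) ^ (2 * v) * (p : W) ^ (2 * (i - v) + 4) := by
          rw [← pow_add]
          exact pow_dvd_pow _ (by omega)
        exact e2.trans (mul_dvd_mul_left _ h4)
      · simp only [hg, hg0]
        rw [if_neg hx, mul_zero]
        exact dvd_zero _
  -- the relation between the class functions
  have hrel : ∀ x : Γ, (q : W) * g0 x = (tens ρ reg x).trace + (-(k : W)) * (reg x).trace +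
      (-1) * (tens (detRep ρ) reg x).trace + (reg x).trace := by
    intro x
    rw [trace_tens, trace_tens, htrreg]
    have : (detRep ρ x).trace = (ρ x).det := by
      rw [Matrix.trace, Fin.sum_univ_one]; rfl
    rw [this]
    simp only [hg0]
    split_ifs
    · ring
    · ring
  set a := (mapRep (tens ρ reg) A).det with ha
  set b := (mapRep reg A).det with hb
  set d := (mapRep (tens (detRep ρ) reg) A).det with hd
  have hunit : ∀ {κ : Type _} [Fintype κ] [DecidableEq κ] (τ : Γ →* Matrix κ κ W),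
      IsUnit (mapRep τ A).det := fun τ => isUnit_det_mapRep τ hAB
  have hclose : ∀ s : ℕ, ∃ M : ℕ, ¬ p ∣ M ∧ ∃ m : ℕ,
      (p : W) ^ (m + s) ∣ (a * b) ^ (M * p ^ m) - (b ^ k * d) ^ (M * p ^ m) := by
    intro s
    set s' := s + 2 * v with hs'
    obtain ⟨N2, hN2n, hN2f, hN2⟩ := hρ (2 * s' + 2)
    haveI := hN1n
    haveI := hN2n
    haveI := hN1f
    haveI := hN2f
    set N := N1 ⊓ N2 with hN
    have hNn : N.Normal := inferInstance
    have hNf : N.FiniteIndex := inferInstance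
    have hNt : TrivMod ρ N ((p : W) ^ (2 * s')) :=
      hN2.mono inf_le_right (pow_dvd_pow _ (by omega))
    have hN2' : TrivMod ρ N ((p : W) ^ 2) := hN1.mono inf_le_left dvd_rfl
    obtain ⟨h, hh, hh1, hloc⟩ := exists_level N ((p : W) ^ (2 * s')) g hgc hg1 (by
      intro w x hx
      simp only [hg, hg0]
      have hx1 : x ∈ N1 := inf_le_left (a := N1) (b := N2) hx
      have hiff : w * x ∈ N1 ↔ w ∈ N1 := by
        rw [Subgroup.mul_mem_cancel_right _ hx1]
      by_cases hw : w ∈ N1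
      · rw [if_pos hw, if_pos (hiff.mpr hw), ← mul_sub]
        refine Dvd.dvd.mul_left ?_ _
        have e : (ρ (w * x)).trace - (k : W) - (ρ (w * x)).det + 1 -
            ((ρ w).trace - (k : W) - (ρ w).det + 1) =
            ((ρ (w * x)).trace - (ρ w).trace) - ((ρ (w * x)).det - (ρ w).det) := by ring
        rw [e]
        exact dvd_sub (dvd_trace_mul_sub hNt w hx) (dvd_det_mul_sub hNt w hx)
      · rw [if_neg hw, if_neg (fun h => hw (hiff.mp h)), sub_self]
        exact dvd_zero _)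
    obtain ⟨M, j, hM0, hMp, Y, hY⟩ := exists_exponent hAB hBA hp N
    obtain ⟨m0, hm0⟩ := telescope hAB hp hodd W hpW hT g hgc hg1 hdec s' N h hh hh1 hloc hY
    refine ⟨M, hMp, ?_⟩
    set m := max m0 (2 * j + s + 2) with hm
    have hmm0 : m0 ≤ m := le_max_left _ _
    have hmj : 2 * j + s + 2 ≤ m := le_max_right _ _
    refine ⟨m, ?_⟩
    have h1 := hm0 m hmm0
    rw [hg, trf_mul', hs', show m + (s + 2 * v) = 2 * v + (m + s) by ring, pow_add] at h1
    have h2 := (mul_dvd_mul_iff_left (pow_ne_zero _ hp0)).mp h1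
    have h3 : (p : W) ^ (m + s) ∣ trf (fun x => (q : W) * g0 x) (A ^ (M * p ^ m)) := by
      rw [trf_mul']; exact h2.mul_left _
    rw [funext hrel, trf_add', trf_add', trf_add', trf_mul', trf_mul'] at h3
    -- the three estimates
    have hN1' : ∀ x ∈ N, reg x = 1 := fun x hx => hreg1 x (inf_le_left (a := N1) (b := N2) hx)
    have t1 : TrivMod (tens ρ reg) N ((p : W) ^ 2) := hN2'.tens hN1'
    have t2 : TrivMod reg N ((p : W) ^ 2) := trivMod_of_eq_one _ hN1'
    have t3 : TrivMod (tens (detRep ρ) reg) N ((p : W) ^ 2) := hN2'.detRep.tens hN1'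
    obtain ⟨c1, hc1⟩ := det_trace_estimate _ N t1 hY m (by omega)
    obtain ⟨c2, hc2⟩ := det_trace_estimate _ N t2 hY m (by omega)
    obtain ⟨c3, hc3⟩ := det_trace_estimate _ N t3 hY m (by omega)
    rw [← ha] at hc1
    rw [← hb] at hc2
    rw [← hd] at hc3
    -- powers congruent to one
    have hone : ∀ {κ : Type _} [Fintype κ] [DecidableEq κ] (τ : Γ →* Matrix κ κ W),
        TrivMod τ N ((p : W) ^ 2) →
        (p : W) ^ (m - j + 2) ∣ (mapRep τ A).det ^ (M * p ^ m) - 1 := by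
      intro κ _ _ τ hτ
      obtain ⟨Z, hZ'⟩ := mapRep_pow_eq_one_add τ N hτ hY
      obtain ⟨Zs, -, hZs, -⟩ := exists_seq p hZ'
      have e1 : mapRep τ (A ^ (M * p ^ m)) = (mapRep τ (A ^ (M * p ^ j))) ^ (p ^ (m - j)) := by
        rw [← mapRep_pow, ← pow_mul, mul_assoc, ← pow_add, Nat.add_sub_cancel' (by omega)]
      have e2 : (mapRep τ A).det ^ (M * p ^ m) = (mapRep τ (A ^ (M * p ^ m))).det := by
        rw [mapRep_pow, Matrix.det_pow]
      rw [e2, e1, hZs (m - j)]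
      obtain ⟨c, hc⟩ := det_one_add_nsmul (p ^ (m - j + 2)) (Zs (m - j))
      rw [hc]
      refine ⟨(Zs (m - j)).trace + (p : W) ^ (m - j + 2) * c, ?_⟩
      push_cast
      ring
    obtain ⟨x1, hx1⟩ := hone (tens ρ reg) t1
    obtain ⟨x2, hx2⟩ := hone reg t2
    obtain ⟨x3, hx3⟩ := hone (tens (detRep ρ) reg) t3
    rw [← ha] at hx1
    rw [← hb] at hx2
    rw [← hd] at hx3
    have hsq : (p : W) ^ (m + s) ∣ ((p : W) ^ (m - j + 2)) ^ 2 := by
      rw [← pow_mul]; exact pow_dvd_pow _ (by omega)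
    have hsq2 : (p : W) ^ (m + s) ∣ (p : W) ^ (2 * (m - j) + 4) := pow_dvd_pow _ (by omega)
    -- the power of `b`
    obtain ⟨y, hy⟩ := pow_one_add_mod x2 (0 : W) hsq k
    obtain ⟨f, hf⟩ := hsq
    obtain ⟨f2, hf2⟩ := hsq2
    obtain ⟨f3, hf3⟩ := h3
    rw [mul_zero, add_zero] at hy
    have hc : (Fintype.card (Fin k × Γ ⧸ N1) : W) = k * q := by
      rw [Fintype.card_prod, Fintype.card_fin, hq]; push_cast; ring
    have hc' : (Fintype.card (Fin 1 × Γ ⧸ N1) : W) = q := by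
      rw [Fintype.card_prod, Fintype.card_fin, hq]; push_cast; ring
    rw [hc] at hc1
    rw [hc'] at hc3
    rw [hf2] at hc1 hc2 hc3
    have e2 : b ^ (M * p ^ m) = 1 + (p : W) ^ (m - j + 2) * x2 := by rw [← hx2]; ring
    have e1 : a ^ (M * p ^ m) = 1 + (p : W) ^ (m - j + 2) * x1 := by rw [← hx1]; ring
    have e3 : d ^ (M * p ^ m) = 1 + (p : W) ^ (m - j + 2) * x3 := by rw [← hx3]; ring
    have e4 : (b ^ k) ^ (M * p ^ m) =
        1 + (k : W) * ((p : W) ^ (m - j + 2) * x2) + (p : W) ^ (m + s) * y := by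
      rw [← hy, ← e2, ← pow_mul, ← pow_mul, mul_comm k]
    rw [mul_pow, mul_pow, e4, e1, e2, e3]
    set P := (p : W) ^ (m - j + 2) with hP
    set e := (p : W) ^ (m + s) with he
    set S1 := trf (fun x => ((tens ρ reg) x).trace) (A ^ (M * p ^ m)) with hS1
    set S2 := trf (fun x => (reg x).trace) (A ^ (M * p ^ m)) with hS2
    set S3 := trf (fun x => ((tens (detRep ρ) reg) x).trace) (A ^ (M * p ^ m)) with hS3
    rw [e1] at hc1
    rw [e2] at hc2
    rw [e3] at hc3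
    have r1 : P * x1 = S1 - n * (k * q) + e * f2 * c1 := by linear_combination hc1
    have r2 : P * x2 = S2 - n * q + e * f2 * c2 := by linear_combination hc2
    have r3 : P * x3 = S3 - n * q + e * f2 * c3 := by linear_combination hc3
    refine ⟨f3 + f2 * c1 + (1 - k) * (f2 * c2) - f2 * c3 + f * x1 * x2 - f * k * x2 * x3 -
      y * (1 + P * x3), ?_⟩
    linear_combination r1 + (1 - (k : W)) * r2 - r3 + hf3 + (x1 * x2 - k * x2 * x3) * hf
  obtain ⟨K, hK, hKeq⟩ := eq_of_close_powers hp W hpW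
    ((hunit (tens ρ reg)).mul (hunit reg)) (((hunit reg).pow k).mul (hunit (tens (detRep ρ) reg)))
    hclose
  rw [← ha, ← hb, ← hd] at hKeq
  have hb2 : b ^ 2 = 1 := by
    have h1 := det_int_sq hAB ((regMon ℤ (Γ ⧸ N1)).comp (QuotientGroup.mk' N1)) (K := W)
    have h2 : ((Int.castRingHom W).mapMatrix : Matrix (Γ ⧸ N1) (Γ ⧸ N1) ℤ →+*
        Matrix (Γ ⧸ N1) (Γ ⧸ N1) W).toMonoidHom.comp
        ((regMon ℤ (Γ ⧸ N1)).comp (QuotientGroup.mk' N1)) = reg := by
      refine MonoidHom.ext fun x => Matrix.ext fun i j => ?_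
      change (((if i = QuotientGroup.mk' N1 x * j then (1 : ℤ) else 0) : ℤ) : W) =
        if i = QuotientGroup.mk' N1 x * j then (1 : W) else 0
      split_ifs <;> simp
    rw [h2] at h1
    exact h1
  haveI := hN1n
  haveI := hN1f
  have hm1 : ∀ x : W, (p : W) ^ 2 ∣ x → x ∈ IsLocalRing.maximalIdeal W := by
    rintro x ⟨y, rfl⟩
    refine Ideal.mul_mem_right _ _ (Ideal.pow_mem_of_mem _ ?_ 2 two_pos)
    exact (IsLocalRing.mem_maximalIdeal _).mpr hpW
  obtain ⟨K1, hK1, hK1eq⟩ := localize hp hAB hBA hM W hpW hT ρ N1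
    (fun x hx i j => hm1 _ (hN1 x hx i j))
  obtain ⟨K2, hK2, hK2eq⟩ := localize hp hAB hBA hM W hpW hT (detRep ρ) N1
    (fun x hx i j => hm1 _ (hN1.detRep x hx i j))
  rw [← hreg, ← ha, ← hq] at hK1eq
  rw [← hreg, ← hd, ← hq] at hK2eq
  refine ⟨q * K1 * K2 * K * 2, by positivity, ?_⟩
  have had : a ^ (K * 2) = d ^ (K * 2) := by
    have h1 : ((a * b) ^ K) ^ 2 = ((b ^ k * d) ^ K) ^ 2 := by rw [hKeq]
    calc a ^ (K * 2) = a ^ (K * 2) * (b ^ 2) ^ K := by rw [hb2, one_pow, mul_one]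
      _ = ((a * b) ^ K) ^ 2 := by ring
      _ = ((b ^ k * d) ^ K) ^ 2 := h1
      _ = (b ^ 2) ^ (k * K) * d ^ (K * 2) := by ring
      _ = d ^ (K * 2) := by rw [hb2, one_pow, one_mul]
  calc (mapRep ρ A).det ^ (q * K1 * K2 * K * 2)
      = ((mapRep ρ A).det ^ (q * K1)) ^ (K2 * (K * 2)) := by rw [← pow_mul]; ring_nf
    _ = (a ^ K1) ^ (K2 * (K * 2)) := by rw [hK1eq]
    _ = (a ^ (K * 2)) ^ (K1 * K2) := by rw [← pow_mul, ← pow_mul]; ring_nf
    _ = (d ^ (K * 2)) ^ (K1 * K2) := by rw [had]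
    _ = (d ^ K2) ^ (K1 * (K * 2)) := by rw [← pow_mul, ← pow_mul]; ring_nf
    _ = ((mapRep (detRep ρ) A).det ^ (q * K2)) ^ (K1 * (K * 2)) := by rw [hK2eq]
    _ = _ := by rw [← pow_mul]; ring_nf

end local_

end Pool.Agent.Lib.MP_8f66f0_al_Plus
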